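import Pool.Agent.Lib.MP_216314_pr.P.PBase

/-!
# JOB PProbA: elementary properties of `Pr`, Harris inequality

* `Pr_fkg`: Mathlib `Mathlib.Combinatorics.SetFamily.HarrisKleitman` (`IsLowerSet.le_card_inter_finset'`, `IsUpperSet.le_card_inter_finset`, ...) or
  `four_functions_theorem` / `fkg`. E.g. pass to the complements `E \ ω` (bijection of `E.powerset`) where the events become lower sets of subsets of
  `E`, and use `IsLowerSet.le_card_inter_finset'`: `#A * #B ≤ 2 ^ #E * #(A ∩ B)`. NOTE: the families must be lower sets inside `E.powerset`.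
* `Pr_compl`: the bijection `ω ↦ E \ ω` of `E.powerset`.
-/

set_option autoImplicit false

noncomputable section

namespace FKP

open Finset FKI

theorem pproba_eq (E : Finset Edge) (A : Finset Edge → Prop) [DecidablePred A] :
    Pr E A = ((E.powerset.filter A).card : ℝ) / 2 ^ E.card := by
  unfold Pr
  rw [Finset.filter_congr_decidable]

theorem Pr_nonneg (E : Finset Edge) (A : Finset Edge → Prop) : 0 ≤ Pr E A := by
  unfold Pr
  positivity

theorem Pr_le_one (E : Finset Edge) (A : Finset Edge → Prop) : Pr E A ≤ 1 := by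
  classical
  rw [pproba_eq, div_le_one (by positivity)]
  have h1 : (E.powerset.filter A).card ≤ 2 ^ E.card := by
    rw [← Finset.card_powerset]
    exact Finset.card_filter_le _ _
  exact_mod_cast h1

theorem Pr_true (E : Finset Edge) : Pr E (fun _ => True) = 1 := by
  classical
  rw [pproba_eq, Finset.filter_true, Finset.card_powerset]
  push_cast
  exact div_self (by positivity)

theorem Pr_mono {E : Finset Edge} {A B : Finset Edge → Prop} (hAB : ∀ ω, ω ⊆ E → A ω → B ω) :
    Pr E A ≤ Pr E B := by
  classical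
  rw [pproba_eq, pproba_eq]
  refine div_le_div_of_nonneg_right ?_ (by positivity)
  have h1 : (E.powerset.filter A).card ≤ (E.powerset.filter B).card := by
    refine Finset.card_le_card fun ω hω => ?_
    rw [Finset.mem_filter, Finset.mem_powerset] at hω ⊢
    exact ⟨hω.1, hAB ω hω.1 hω.2⟩
  exact_mod_cast h1

theorem Pr_congr {E : Finset Edge} {A B : Finset Edge → Prop} (hAB : ∀ ω, ω ⊆ E → (A ω ↔ B ω)) :
    Pr E A = Pr E B := by
  exact le_antisymm (Pr_mono fun ω h1 h2 => (hAB ω h1).1 h2)
    (Pr_mono fun ω h1 h2 => (hAB ω h1).2 h2)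

theorem Pr_or_le (E : Finset Edge) (A B : Finset Edge → Prop) :
    Pr E (fun ω => A ω ∨ B ω) ≤ Pr E A + Pr E B := by
  classical
  rw [pproba_eq, pproba_eq, pproba_eq, ← add_div]
  refine div_le_div_of_nonneg_right ?_ (by positivity)
  have h1 : (E.powerset.filter (fun ω => A ω ∨ B ω)).card ≤
      (E.powerset.filter A).card + (E.powerset.filter B).card := by
    rw [Finset.filter_or]
    exact Finset.card_union_le _ _
  exact_mod_cast h1

theorem Pr_not (E : Finset Edge) (A : Finset Edge → Prop) :
    Pr E (fun ω => ¬ A ω) = 1 - Pr E A := by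
  classical
  rw [pproba_eq, pproba_eq, eq_sub_iff_add_eq, ← add_div, div_eq_one_iff_eq (by positivity)]
  have h1 : (E.powerset.filter (fun ω => ¬ A ω)).card + (E.powerset.filter A).card =
      2 ^ E.card := by
    rw [← Finset.card_powerset, add_comm]
    exact Finset.card_filter_add_card_filter_not (s := E.powerset) A
  exact_mod_cast h1

theorem Pr_compl (E : Finset Edge) (A : Finset Edge → Prop) :
    Pr E (fun ω => A (E \ ω)) = Pr E A := by
  classical
  rw [pproba_eq, pproba_eq]
  congr 2
  refine Finset.card_nbij' (fun ω => E \ ω) (fun ω => E \ ω) ?_ ?_ ?_ ?_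
  · intro ω hω
    rw [Finset.mem_coe, Finset.mem_filter, Finset.mem_powerset] at hω
    rw [Finset.mem_coe, Finset.mem_filter, Finset.mem_powerset]
    exact ⟨Finset.sdiff_subset, hω.2⟩
  · intro ω hω
    rw [Finset.mem_coe, Finset.mem_filter, Finset.mem_powerset] at hω
    rw [Finset.mem_coe, Finset.mem_filter, Finset.mem_powerset]
    refine ⟨Finset.sdiff_subset, ?_⟩
    show A (E \ (E \ ω))
    rw [Finset.sdiff_sdiff_eq_self hω.1]
    exact hω.2
  · intro ω hω
    rw [Finset.mem_coe, Finset.mem_filter, Finset.mem_powerset] at hω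
    exact Finset.sdiff_sdiff_eq_self hω.1
  · intro ω hω
    rw [Finset.mem_coe, Finset.mem_filter, Finset.mem_powerset] at hω
    exact Finset.sdiff_sdiff_eq_self hω.1

/-- Harris inequality -/
theorem Pr_fkg (E : Finset Edge) {A B : Finset Edge → Prop} (hA : Inc A) (hB : Inc B) :
    Pr E A * Pr E B ≤ Pr E (fun ω => A ω ∧ B ω) := by
  classical
  have key : ∀ C : Finset Edge → Prop, Inc C →
      IsLowerSet ((E.powerset.filter (fun ω => C (E \ ω)) : Finset (Finset Edge)) :
        Set (Finset Edge)) := by
    intro C hC s t hts hs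
    rw [Finset.mem_coe, Finset.mem_filter, Finset.mem_powerset] at hs ⊢
    exact ⟨Finset.Subset.trans hts hs.1, hC _ _ (Finset.sdiff_subset_sdiff
      (Finset.Subset.refl _) hts) hs.2⟩
  have h1 := IsLowerSet.le_card_inter_finset' (s := E) (key A hA) (key B hB)
    (fun t ht => Finset.mem_powerset.1 (Finset.mem_filter.1 ht).1)
    (fun t ht => Finset.mem_powerset.1 (Finset.mem_filter.1 ht).1)
  rw [← Finset.filter_and] at h1
  rw [← Pr_compl E A, ← Pr_compl E B, ← Pr_compl E (fun ω => A ω ∧ B ω), pproba_eq, pproba_eq,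
    pproba_eq, div_mul_div_comm, div_le_div_iff₀ (by positivity) (by positivity)]
  have h2 : ((E.powerset.filter (fun ω => A (E \ ω))).card : ℝ) *
      ((E.powerset.filter (fun ω => B (E \ ω))).card : ℝ) ≤
      2 ^ E.card * ((E.powerset.filter (fun ω => A (E \ ω) ∧ B (E \ ω))).card : ℝ) := by
    exact_mod_cast h1
  calc _ ≤ 2 ^ E.card * ((E.powerset.filter (fun ω => A (E \ ω) ∧ B (E \ ω))).card : ℝ) *
        2 ^ E.card := mul_le_mul_of_nonneg_right h2 (by positivity)
    _ = _ := by ring

end FKP
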