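import Pool.Agent.Lib.MP_216314_pr.P.PBase
import Pool.Agent.Lib.MP_216314_pr.P.PProbA

/-!
# JOB PProbB: marginals, independence, partitions

* `Pr_dep`: every subset of `F` is the trace of exactly `2 ^ #(E \ F)` subsets of `E` (bijection `E.powerset ≃ F.powerset × (E \ F).powerset`,
  `ω ↦ (ω ∩ F, ω \ F)`, inverse the union).
* `Pr_indep`: with `E = F' ∪ G'`; e.g. first reduce to `E = F ∪ G` (`Pr_dep`, `Dep (F ∪ G)`), then the bijection `(F ∪ G).powerset ≃ F.powerset × G.powerset`
  and `Finset.card_product`, `2 ^ #(F ∪ G) = 2 ^ #F * 2 ^ #G`.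
* `Pr_super`: `Pr E A = Pr E' (fun ω => A (ω ∩ E))` (`Pr_dep` for this event) and `A (ω ∩ E) → A ω` as `A` is increasing.
* `Pr_part`: disjoint events (`Finset.card_biUnion` or induction on `T`).
-/

set_option autoImplicit false

noncomputable section

namespace FKP

open Finset FKI

open Classical in
theorem pprobb_prod {F G : Finset Edge} (hd : Disjoint F G) (A B : Finset Edge → Prop) :
    ((F ∪ G).powerset.filter (fun ω => A (ω ∩ F) ∧ B (ω ∩ G))).card =
      (F.powerset.filter A).card * (G.powerset.filter B).card := by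
  rw [← Finset.card_product]
  refine Finset.card_nbij' (fun ω => (ω ∩ F, ω ∩ G)) (fun p => p.1 ∪ p.2) ?_ ?_ ?_ ?_
  · intro ω hω
    rw [Finset.mem_coe, Finset.mem_filter, Finset.mem_powerset] at hω
    rw [Finset.mem_coe, Finset.mem_product, Finset.mem_filter, Finset.mem_filter,
      Finset.mem_powerset, Finset.mem_powerset]
    exact ⟨⟨Finset.inter_subset_right, hω.2.1⟩, ⟨Finset.inter_subset_right, hω.2.2⟩⟩
  · rintro ⟨a, b⟩ hω
    rw [Finset.mem_coe, Finset.mem_product, Finset.mem_filter, Finset.mem_filter,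
      Finset.mem_powerset, Finset.mem_powerset] at hω
    obtain ⟨⟨h1, h2⟩, ⟨h3, h4⟩⟩ := hω
    rw [Finset.mem_coe, Finset.mem_filter, Finset.mem_powerset]
    have e1 : (a ∪ b) ∩ F = a := by
      ext e
      simp only [Finset.mem_inter, Finset.mem_union]
      constructor
      · rintro ⟨h5 | h5, h6⟩
        · exact h5
        · exact absurd (h3 h5) (Finset.disjoint_left.1 hd h6)
      · intro h5
        exact ⟨Or.inl h5, h1 h5⟩
    have e2 : (a ∪ b) ∩ G = b := by
      ext e
      simp only [Finset.mem_inter, Finset.mem_union]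
      constructor
      · rintro ⟨h5 | h5, h6⟩
        · exact absurd h6 (Finset.disjoint_left.1 hd (h1 h5))
        · exact h5
      · intro h5
        exact ⟨Or.inr h5, h3 h5⟩
    refine ⟨Finset.union_subset_union h1 h3, ?_, ?_⟩
    · show A ((a ∪ b) ∩ F)
      rw [e1]
      exact h2
    · show B ((a ∪ b) ∩ G)
      rw [e2]
      exact h4
  · intro ω hω
    rw [Finset.mem_coe, Finset.mem_filter, Finset.mem_powerset] at hω
    show ω ∩ F ∪ ω ∩ G = ω
    rw [← Finset.inter_union_distrib_left, Finset.inter_eq_left.2 hω.1]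
  · rintro ⟨a, b⟩ hω
    rw [Finset.mem_coe, Finset.mem_product, Finset.mem_filter, Finset.mem_filter,
      Finset.mem_powerset, Finset.mem_powerset] at hω
    obtain ⟨⟨h1, h2⟩, ⟨h3, h4⟩⟩ := hω
    show ((a ∪ b) ∩ F, (a ∪ b) ∩ G) = (a, b)
    refine Prod.ext ?_ ?_
    · show (a ∪ b) ∩ F = a
      ext e
      simp only [Finset.mem_inter, Finset.mem_union]
      constructor
      · rintro ⟨h5 | h5, h6⟩
        · exact h5
        · exact absurd (h3 h5) (Finset.disjoint_left.1 hd h6)
      · intro h5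
        exact ⟨Or.inl h5, h1 h5⟩
    · show (a ∪ b) ∩ G = b
      ext e
      simp only [Finset.mem_inter, Finset.mem_union]
      constructor
      · rintro ⟨h5 | h5, h6⟩
        · exact absurd h6 (Finset.disjoint_left.1 hd (h1 h5))
        · exact h5
      · intro h5
        exact ⟨Or.inr h5, h3 h5⟩

theorem pprobb_pr {F G : Finset Edge} (hd : Disjoint F G) (A B : Finset Edge → Prop) :
    Pr (F ∪ G) (fun ω => A (ω ∩ F) ∧ B (ω ∩ G)) = Pr F A * Pr G B := by
  classical
  rw [pproba_eq, pproba_eq, pproba_eq, pprobb_prod hd, Finset.card_union_of_disjoint hd, pow_add,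
    div_mul_div_comm]
  push_cast
  rfl

theorem Pr_dep {E F : Finset Edge} (hF : F ⊆ E) {A : Finset Edge → Prop} (hA : Dep F A) :
    Pr E A = Pr F A := by
  have h1 : F ∪ (E \ F) = E := Finset.union_sdiff_of_subset hF
  have h2 := pprobb_pr (F := F) (G := E \ F) Finset.disjoint_sdiff A (fun _ => True)
  rw [h1, Pr_true, mul_one] at h2
  rw [← h2]
  refine Pr_congr fun ω _ => ?_
  rw [hA ω]
  exact ⟨fun h => ⟨h, trivial⟩, fun h => h.1⟩

theorem Pr_indep {E F G : Finset Edge} (hF : F ⊆ E) (hG : G ⊆ E) (hd : Disjoint F G)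
    {A B : Finset Edge → Prop} (hA : Dep F A) (hB : Dep G B) :
    Pr E (fun ω => A ω ∧ B ω) = Pr E A * Pr E B := by
  have hFG : F ∪ G ⊆ E := Finset.union_subset hF hG
  have h1 : Dep (F ∪ G) (fun ω => A ω ∧ B ω) := by
    intro ω
    show (A ω ∧ B ω) ↔ (A (ω ∩ (F ∪ G)) ∧ B (ω ∩ (F ∪ G)))
    rw [hA ω, hB ω, hA (ω ∩ (F ∪ G)), hB (ω ∩ (F ∪ G)), Finset.inter_assoc, Finset.inter_assoc,
      Finset.inter_eq_right.2 (Finset.subset_union_left (s₁ := F) (s₂ := G)),
      Finset.inter_eq_right.2 (Finset.subset_union_right (s₁ := F) (s₂ := G))]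
  rw [Pr_dep hFG h1, Pr_dep hF hA, Pr_dep hG hB, ← pprobb_pr hd A B]
  refine Pr_congr fun ω _ => ?_
  rw [hA ω, hB ω]

theorem Pr_super {E E' : Finset Edge} (hE : E ⊆ E') {A : Finset Edge → Prop} (hA : Inc A) :
    Pr E A ≤ Pr E' A := by
  have h1 : Dep E (fun ω => A (ω ∩ E)) := by
    intro ω
    show A (ω ∩ E) ↔ A (ω ∩ E ∩ E)
    rw [Finset.inter_assoc, Finset.inter_self]
  have h2 : Pr E A = Pr E (fun ω => A (ω ∩ E)) := by
    refine Pr_congr fun ω hω => ?_
    rw [Finset.inter_eq_left.2 hω]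
  rw [h2, ← Pr_dep hE h1]
  exact Pr_mono fun ω _ h3 => hA _ _ Finset.inter_subset_left h3

theorem Pr_part {E : Finset Edge} {ι : Type*} [DecidableEq ι] (T : Finset ι)
    (D : Finset Edge → ι) (B : ι → Finset Edge → Prop) (A : Finset Edge → Prop)
    (hA : ∀ ω, ω ⊆ E → ∀ d ∈ T, D ω = d → B d ω → A ω) :
    ∑ d ∈ T, Pr E (fun ω => D ω = d ∧ B d ω) ≤ Pr E A := by
  classical
  simp only [pproba_eq]
  rw [← Finset.sum_div]
  refine div_le_div_of_nonneg_right ?_ (by positivity)
  have h1 : ∑ d ∈ T, (E.powerset.filter (fun ω => D ω = d ∧ B d ω)).card ≤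
      (E.powerset.filter A).card := by
    rw [← Finset.card_biUnion]
    · refine Finset.card_le_card fun ω hω => ?_
      rw [Finset.mem_biUnion] at hω
      obtain ⟨d, hd, h2⟩ := hω
      rw [Finset.mem_filter, Finset.mem_powerset] at h2 ⊢
      exact ⟨h2.1, hA ω h2.1 d hd h2.2.1 h2.2.2⟩
    · intro d _ d' _ hne
      show Disjoint _ _
      rw [Finset.disjoint_left]
      intro ω h2 h3
      rw [Finset.mem_filter] at h2 h3
      exact hne (h2.2.1.symm.trans h3.2.1)
  exact_mod_cast h1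

theorem Pr_part_eq {E : Finset Edge} {ι : Type*} [DecidableEq ι] (T : Finset ι)
    (D : Finset Edge → ι) (A : Finset Edge → Prop)
    (hA : ∀ ω, ω ⊆ E → (A ω ↔ D ω ∈ T)) :
    ∑ d ∈ T, Pr E (fun ω => D ω = d) = Pr E A := by
  classical
  simp only [pproba_eq]
  rw [← Finset.sum_div]
  congr 1
  have h1 : (E.powerset.filter A).card =
      ∑ d ∈ T, (E.powerset.filter (fun ω => D ω = d)).card := by
    rw [Finset.card_eq_sum_card_fiberwise (f := D) (t := T)]
    · refine Finset.sum_congr rfl fun d hd => ?_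
      congr 1
      ext ω
      simp only [Finset.mem_filter, Finset.mem_powerset]
      constructor
      · rintro ⟨⟨h2, _⟩, h3⟩
        exact ⟨h2, h3⟩
      · rintro ⟨h2, h3⟩
        exact ⟨⟨h2, (hA ω h2).2 (by rw [h3]; exact hd)⟩, h3⟩
    · intro ω hω
      rw [Finset.mem_coe, Finset.mem_filter, Finset.mem_powerset] at hω
      exact (hA ω hω.1).1 hω.2
  rw [h1]
  push_cast
  rfl

end FKP
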