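import Pool.Agent.Lib.MP_216314_pr.P.PSymB
import Pool.Agent.Lib.MP_216314_pr.P.PProbB

/-!
# JOB PSymC: the crossing events under the symmetries

* `HC_*`: from `conn_map` and `box_*` (for the other direction of the iff use the explicit point: every ordinate `y` of the image is the image of an ordinate, and `conn_map` is an iff).
* `Pr_HC`, `Pr_VC`: `Pr_dep`, `dep_HC`, then `Pr_map` with the translation by `(x1,y1)` (from `box 0 a 0 b`), and `trE` for `VC`.
-/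

set_option autoImplicit false

noncomputable section

namespace FKP

open Finset FKI

theorem HC_sh (a b x1 x2 y1 y2 : ℤ) (ω : Finset Edge) :
    HC (x1 + a) (x2 + a) (y1 + b) (y2 + b) (ω.map (shE a b).toEmbedding) ↔ HC x1 x2 y1 y2 ω := by
  have key : ∀ y y' : ℤ, Conn (box (x1 + a) (x2 + a) (y1 + b) (y2 + b))
      (ω.map (shE a b).toEmbedding) (x1 + a, y + b) (x2 + a, y' + b) ↔
      Conn (box x1 x2 y1 y2) ω (x1, y) (x2, y') := by
    intro y y'
    have h := conn_map (cp_sh a b) (box x1 x2 y1 y2) ω (x1, y) (x2, y')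
    rw [box_sh] at h
    exact h
  constructor
  · rintro ⟨y, y', h1, h2, h3, h4, hc⟩
    refine ⟨y - b, y' - b, by omega, by omega, by omega, by omega, (key _ _).1 ?_⟩
    rw [sub_add_cancel, sub_add_cancel]
    exact hc
  · rintro ⟨y, y', h1, h2, h3, h4, hc⟩
    exact ⟨y + b, y' + b, by omega, by omega, by omega, by omega, (key _ _).2 hc⟩

theorem HC_rx (s x1 x2 y1 y2 : ℤ) (ω : Finset Edge) :
    HC (s - x2) (s - x1) y1 y2 (ω.map (rxE s).toEmbedding) ↔ HC x1 x2 y1 y2 ω := by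
  have key : ∀ y y' : ℤ, Conn (box (s - x2) (s - x1) y1 y2)
      (ω.map (rxE s).toEmbedding) (s - x2, y') (s - x1, y) ↔
      Conn (box x1 x2 y1 y2) ω (x1, y) (x2, y') := by
    intro y y'
    have h := conn_map (cp_rx s) (box x1 x2 y1 y2) ω (x2, y') (x1, y)
    rw [box_rx] at h
    exact h.trans ⟨fun hc => hc.symm, fun hc => hc.symm⟩
  constructor
  · rintro ⟨y, y', h1, h2, h3, h4, hc⟩
    exact ⟨y', y, h3, h4, h1, h2, (key _ _).1 hc⟩
  · rintro ⟨y, y', h1, h2, h3, h4, hc⟩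
    exact ⟨y', y, h3, h4, h1, h2, (key _ _).2 hc⟩

theorem HC_ry (s x1 x2 y1 y2 : ℤ) (ω : Finset Edge) :
    HC x1 x2 (s - y2) (s - y1) (ω.map (ryE s).toEmbedding) ↔ HC x1 x2 y1 y2 ω := by
  have key : ∀ y y' : ℤ, Conn (box x1 x2 (s - y2) (s - y1))
      (ω.map (ryE s).toEmbedding) (x1, s - y) (x2, s - y') ↔
      Conn (box x1 x2 y1 y2) ω (x1, y) (x2, y') := by
    intro y y'
    have h := conn_map (cp_ry s) (box x1 x2 y1 y2) ω (x1, y) (x2, y')
    rw [box_ry] at h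
    exact h
  constructor
  · rintro ⟨y, y', h1, h2, h3, h4, hc⟩
    refine ⟨s - y, s - y', by omega, by omega, by omega, by omega, (key _ _).1 ?_⟩
    rw [sub_sub_cancel, sub_sub_cancel]
    exact hc
  · rintro ⟨y, y', h1, h2, h3, h4, hc⟩
    exact ⟨s - y, s - y', by omega, by omega, by omega, by omega, (key _ _).2 hc⟩

theorem HC_tr (x1 x2 y1 y2 : ℤ) (ω : Finset Edge) :
    HC y1 y2 x1 x2 (ω.map trE.toEmbedding) ↔ VC x1 x2 y1 y2 ω := by
  have key : ∀ y y' : ℤ, Conn (box y1 y2 x1 x2)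
      (ω.map trE.toEmbedding) (y1, y) (y2, y') ↔
      Conn (box x1 x2 y1 y2) ω (y, y1) (y', y2) := by
    intro y y'
    have h := conn_map cp_tr (box x1 x2 y1 y2) ω (y, y1) (y', y2)
    rw [box_tr] at h
    exact h
  constructor
  · rintro ⟨y, y', h1, h2, h3, h4, hc⟩
    exact ⟨y, y', h1, h2, h3, h4, (key _ _).1 hc⟩
  · rintro ⟨y, y', h1, h2, h3, h4, hc⟩
    exact ⟨y, y', h1, h2, h3, h4, (key _ _).2 hc⟩

theorem Pr_HC {x1 x2 y1 y2 : ℤ} (a b : ℕ) (ha : x2 = x1 + a) (hb : y2 = y1 + b) {E : Finset Edge}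
    (hE : box x1 x2 y1 y2 ⊆ E) : Pr E (HC x1 x2 y1 y2) = h a b := by
  rw [Pr_dep hE (dep_HC (Finset.Subset.refl _))]
  have h1 : box x1 x2 y1 y2 = (box 0 a 0 b).map (shE x1 y1).toEmbedding := by
    rw [box_sh, zero_add, zero_add, ha, hb, add_comm x1, add_comm y1]
  rw [h1, Pr_map]
  unfold h
  congr 1
  funext ω
  have h2 := HC_sh x1 y1 0 a 0 b ω
  rw [zero_add, zero_add, add_comm (a : ℤ), add_comm (b : ℤ), ← ha, ← hb] at h2
  exact propext h2

theorem Pr_VC {x1 x2 y1 y2 : ℤ} (a b : ℕ) (ha : x2 = x1 + a) (hb : y2 = y1 + b) {E : Finset Edge}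
    (hE : box x1 x2 y1 y2 ⊆ E) : Pr E (VC x1 x2 y1 y2) = h b a := by
  rw [Pr_dep hE (dep_VC (Finset.Subset.refl _))]
  have h1 : VC x1 x2 y1 y2 = fun ω => HC y1 y2 x1 x2 (ω.map trE.toEmbedding) := by
    funext ω
    exact propext (HC_tr x1 x2 y1 y2 ω).symm
  rw [h1, ← Pr_map, box_tr]
  exact Pr_HC b a hb ha (Finset.Subset.refl _)

end FKP
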