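import Pool.Agent.Lib.MP_216314_pr.Defs

/-!
# Critical bond percolation on finite sets of edges: definitions

`Pr E A`: probability of the event `A` when every edge of the finite set `E` is open with probability `1/2`, independently.
`Conn F ω u v`: the vertices `u`, `v` are connected by open edges of the set `F`.
`box x1 x2 y1 y2`: edges of the rectangle `[x1,x2] × [y1,y2]`. `HC`, `VC`: horizontal and vertical crossing of a rectangle.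
-/

set_option autoImplicit false

noncomputable section

namespace FKP

open Finset FKI

/-- edges of the rectangle `[x1,x2] × [y1,y2]` -/
def box (x1 x2 y1 y2 : ℤ) : Finset Edge :=
  (Ico x1 x2 ×ˢ (Icc y1 y2 ×ˢ {false})) ∪ (Icc x1 x2 ×ˢ (Ico y1 y2 ×ˢ {true}))

/-- `u` and `v` are connected by open edges of `F` -/
def Conn (F ω : Finset Edge) (u v : V) : Prop := (gr (ω ∩ F)).Reachable u v

/-- horizontal crossing of the rectangle -/
def HC (x1 x2 y1 y2 : ℤ) (ω : Finset Edge) : Prop :=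
  ∃ y y' : ℤ, y1 ≤ y ∧ y ≤ y2 ∧ y1 ≤ y' ∧ y' ≤ y2 ∧ Conn (box x1 x2 y1 y2) ω (x1, y) (x2, y')

/-- vertical crossing of the rectangle -/
def VC (x1 x2 y1 y2 : ℤ) (ω : Finset Edge) : Prop :=
  ∃ x x' : ℤ, x1 ≤ x ∧ x ≤ x2 ∧ x1 ≤ x' ∧ x' ≤ x2 ∧ Conn (box x1 x2 y1 y2) ω (x, y1) (x', y2)

open Classical in
/-- probability of `A` under the uniform measure on the subsets of `E` -/
def Pr (E : Finset Edge) (A : Finset Edge → Prop) : ℝ :=
  ((E.powerset.filter A).card : ℝ) / 2 ^ E.card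

/-- the event `A` depends only on the edges of `F` -/
def Dep (F : Finset Edge) (A : Finset Edge → Prop) : Prop := ∀ ω, A ω ↔ A (ω ∩ F)

/-- increasing event -/
def Inc (A : Finset Edge → Prop) : Prop := ∀ ω ω', ω ⊆ ω' → A ω → A ω'

/-- probability of a horizontal crossing of a rectangle with sides `a` (horizontal) and `b` -/
def h (a b : ℕ) : ℝ := Pr (box 0 a 0 b) (HC 0 a 0 b)

/-- the corner arm event: `(0,0)` is connected to the right or upper side of `[0,n]²` inside `[0,n]²` -/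
def QA (n : ℕ) (ω : Finset Edge) : Prop :=
  (∃ y : ℤ, 0 ≤ y ∧ y ≤ n ∧ Conn (box 0 n 0 n) ω (0, 0) ((n : ℤ), y)) ∨
  (∃ x : ℤ, 0 ≤ x ∧ x ≤ n ∧ Conn (box 0 n 0 n) ω (0, 0) (x, (n : ℤ)))

/-- the boundary arm event: `(0,0)` is connected to the left, right or upper side of `[-n,n] × [0,n]`
inside this rectangle -/
def HA (n : ℕ) (ω : Finset Edge) : Prop :=
  (∃ y : ℤ, 0 ≤ y ∧ y ≤ n ∧ Conn (box (-n) n 0 n) ω (0, 0) ((n : ℤ), y)) ∨
  (∃ y : ℤ, 0 ≤ y ∧ y ≤ n ∧ Conn (box (-n) n 0 n) ω (0, 0) (-(n : ℤ), y)) ∨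
  (∃ x : ℤ, -(n : ℤ) ≤ x ∧ x ≤ n ∧ Conn (box (-n) n 0 n) ω (0, 0) (x, (n : ℤ)))

/-- quarter plane one arm probability -/
def piQ (n : ℕ) : ℝ := Pr (box 0 n 0 n) (QA n)

/-- half plane one arm probability -/
def piH (n : ℕ) : ℝ := Pr (box (-n) n 0 n) (HA n)

theorem mem_box {x1 x2 y1 y2 : ℤ} {e : Edge} : e ∈ box x1 x2 y1 y2 ↔
    (e.2.2 = false ∧ x1 ≤ e.1 ∧ e.1 < x2 ∧ y1 ≤ e.2.1 ∧ e.2.1 ≤ y2) ∨
    (e.2.2 = true ∧ x1 ≤ e.1 ∧ e.1 ≤ x2 ∧ y1 ≤ e.2.1 ∧ e.2.1 < y2) := by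
  obtain ⟨x, y, t⟩ := e
  simp only [box, mem_union, mem_product, mem_Ico, mem_Icc, mem_singleton]
  cases t <;> simp <;> tauto

theorem box_mono {x1 x2 y1 y2 x3 x4 y3 y4 : ℤ} (h1 : x3 ≤ x1) (h2 : x2 ≤ x4) (h3 : y3 ≤ y1)
    (h4 : y2 ≤ y4) : box x1 x2 y1 y2 ⊆ box x3 x4 y3 y4 := by
  intro e he
  rw [mem_box] at he ⊢
  rcases he with ⟨h, h5, h6, h7, h8⟩ | ⟨h, h5, h6, h7, h8⟩
  · left
    exact ⟨h, by omega, by omega, by omega, by omega⟩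
  · right
    exact ⟨h, by omega, by omega, by omega, by omega⟩

theorem box_eq_edges (m n : ℕ) : box 0 m 0 n = edges m n := rfl

theorem gr_mono {ω ω' : Finset Edge} (h : ω ⊆ ω') : gr ω ≤ gr ω' := by
  intro u v huv
  unfold gr at huv ⊢
  rw [SimpleGraph.fromRel_adj] at huv ⊢
  obtain ⟨h1, h2⟩ := huv
  refine ⟨h1, ?_⟩
  rcases h2 with ⟨e, he, h3⟩ | ⟨e, he, h3⟩
  · exact Or.inl ⟨e, h he, h3⟩
  · exact Or.inr ⟨e, h he, h3⟩

theorem Conn.mono {F F' ω ω' : Finset Edge} {u v : V} (hF : F ⊆ F') (hω : ω ⊆ ω')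
    (hc : Conn F ω u v) : Conn F' ω' u v :=
  SimpleGraph.Reachable.mono (gr_mono (Finset.inter_subset_inter hω hF)) hc

theorem Conn.symm {F ω : Finset Edge} {u v : V} (hc : Conn F ω u v) : Conn F ω v u :=
  SimpleGraph.Reachable.symm hc

theorem Conn.trans {F ω : Finset Edge} {u v w : V} (h1 : Conn F ω u v) (h2 : Conn F ω v w) :
    Conn F ω u w := SimpleGraph.Reachable.trans h1 h2

theorem Conn.refl (F ω : Finset Edge) (u : V) : Conn F ω u u := SimpleGraph.Reachable.refl _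

theorem Conn.reach {F ω : Finset Edge} {u v : V} (hc : Conn F ω u v) : (gr ω).Reachable u v :=
  SimpleGraph.Reachable.mono (gr_mono Finset.inter_subset_left) hc

theorem Conn.of_reach {F ω : Finset Edge} {u v : V} (h : ω ⊆ F) (hc : (gr ω).Reachable u v) :
    Conn F ω u v := by
  unfold Conn
  rw [Finset.inter_eq_left.2 h]
  exact hc

theorem inc_Conn (F : Finset Edge) (u v : V) : Inc (fun ω => Conn F ω u v) :=
  fun _ _ hs hc => hc.mono (Finset.Subset.refl _) hs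

theorem dep_Conn {F E : Finset Edge} (hF : F ⊆ E) (u v : V) : Dep E (fun ω => Conn F ω u v) := by
  intro ω
  show Conn F ω u v ↔ Conn F (ω ∩ E) u v
  unfold Conn
  have h1 : ω ∩ E ∩ F = ω ∩ F := by
    rw [Finset.inter_assoc, Finset.inter_eq_right.2 hF]
  rw [h1]

theorem inc_HC (x1 x2 y1 y2 : ℤ) : Inc (HC x1 x2 y1 y2) := by
  rintro ω ω' hs ⟨y, y', h1, h2, h3, h4, hc⟩
  exact ⟨y, y', h1, h2, h3, h4, hc.mono (Finset.Subset.refl _) hs⟩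

theorem inc_VC (x1 x2 y1 y2 : ℤ) : Inc (VC x1 x2 y1 y2) := by
  rintro ω ω' hs ⟨y, y', h1, h2, h3, h4, hc⟩
  exact ⟨y, y', h1, h2, h3, h4, hc.mono (Finset.Subset.refl _) hs⟩

theorem dep_HC {x1 x2 y1 y2 : ℤ} {E : Finset Edge} (hE : box x1 x2 y1 y2 ⊆ E) :
    Dep E (HC x1 x2 y1 y2) := by
  intro ω
  unfold HC
  constructor
  · rintro ⟨y, y', h1, h2, h3, h4, hc⟩
    exact ⟨y, y', h1, h2, h3, h4, (dep_Conn hE _ _ ω).1 hc⟩
  · rintro ⟨y, y', h1, h2, h3, h4, hc⟩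
    exact ⟨y, y', h1, h2, h3, h4, (dep_Conn hE _ _ ω).2 hc⟩

theorem dep_VC {x1 x2 y1 y2 : ℤ} {E : Finset Edge} (hE : box x1 x2 y1 y2 ⊆ E) :
    Dep E (VC x1 x2 y1 y2) := by
  intro ω
  unfold VC
  constructor
  · rintro ⟨y, y', h1, h2, h3, h4, hc⟩
    exact ⟨y, y', h1, h2, h3, h4, (dep_Conn hE _ _ ω).1 hc⟩
  · rintro ⟨y, y', h1, h2, h3, h4, hc⟩
    exact ⟨y, y', h1, h2, h3, h4, (dep_Conn hE _ _ ω).2 hc⟩

theorem inc_QA (n : ℕ) : Inc (QA n) := by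
  rintro ω ω' hs (⟨y, h1, h2, hc⟩ | ⟨y, h1, h2, hc⟩)
  · exact Or.inl ⟨y, h1, h2, hc.mono (Finset.Subset.refl _) hs⟩
  · exact Or.inr ⟨y, h1, h2, hc.mono (Finset.Subset.refl _) hs⟩

theorem dep_QA {n : ℕ} {E : Finset Edge} (hE : box 0 n 0 n ⊆ E) : Dep E (QA n) := by
  intro ω
  unfold QA
  constructor
  · rintro (⟨y, h1, h2, hc⟩ | ⟨y, h1, h2, hc⟩)
    · exact Or.inl ⟨y, h1, h2, (dep_Conn hE _ _ ω).1 hc⟩
    · exact Or.inr ⟨y, h1, h2, (dep_Conn hE _ _ ω).1 hc⟩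
  · rintro (⟨y, h1, h2, hc⟩ | ⟨y, h1, h2, hc⟩)
    · exact Or.inl ⟨y, h1, h2, (dep_Conn hE _ _ ω).2 hc⟩
    · exact Or.inr ⟨y, h1, h2, (dep_Conn hE _ _ ω).2 hc⟩

end FKP
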