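import Pool.Agent.Lib.MP_216314_pr.P.PBase
import Pool.Agent.Lib.MP_216314_pr.Par

/-!
# A horizontal crossing of a wide rectangle meets a vertical crossing of a tall one

Chains modulo 2: the number of edges of the horizontal crossing below a vertex of the tall rectangle is
constant along the vertical crossing if the two crossings have no common vertex; it is zero at the
bottom and one at the top.
-/

set_option autoImplicit false

noncomputable section

namespace FKP

open Finset FKI

theorem cross_z (a : ZMod 2) : a + a = 0 := by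
  revert a
  decide

/-- partial sums of a column -/
def cross_S (c : Edge → ZMod 2) (y0 x y : ℤ) : ZMod 2 := ∑ k ∈ Ico y0 y, c (x, k, false)

theorem cross_Ico {y0 y : ℤ} (h : y0 ≤ y) : Ico y0 (y + 1) = insert y (Ico y0 y) := by
  ext k
  simp only [mem_Ico, mem_insert]
  omega

theorem cross_S_succ (c : Edge → ZMod 2) (x : ℤ) {y0 y : ℤ} (h : y0 ≤ y) :
    cross_S c y0 x (y + 1) = cross_S c y0 x y + c (x, y, false) := by
  rw [cross_S, cross_Ico h, sum_insert (by simp), add_comm]
  rfl

theorem cross_col (c : Edge → ZMod 2) (y0 x : ℤ) (hlow : c (x + 1, y0 - 1, true) = 0) {y : ℤ}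
    (hy : y0 ≤ y) : cross_S c y0 x y + cross_S c y0 (x + 1) y =
      c (x + 1, y - 1, true) + ∑ k ∈ Ico y0 y, bd c (x + 1, k) := by
  induction y, hy using Int.leInduction with
  | base => simp [cross_S, hlow]
  | succ y hy ih =>
    rw [cross_S_succ c x hy, cross_S_succ c (x + 1) hy, cross_Ico hy, sum_insert (by simp)]
    simp only [bd, add_sub_cancel_right] at ih ⊢
    linear_combination ih - cross_z (c (x + 1, y, true))

theorem cross_ind (a b x y0 y : ℤ) : ∑ k ∈ Ico y0 y, ind (a, b) (x, k) =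
    if x = a ∧ y0 ≤ b ∧ b < y then 1 else 0 := by
  by_cases h : x = a ∧ y0 ≤ b ∧ b < y
  · rw [if_pos h, Finset.sum_eq_single b]
    · simp [ind, h.1]
    · intro k _ hk
      simp [ind, hk]
    · intro hb
      exact absurd (mem_Ico.2 ⟨h.2.1, h.2.2⟩) hb
  · rw [if_neg h]
    refine Finset.sum_eq_zero fun k hk => ?_
    rw [mem_Ico] at hk
    unfold ind
    rw [if_neg]
    rintro hh
    simp only [Prod.mk.injEq] at hh
    exact h ⟨hh.1, by omega, by omega⟩

theorem cross {ω : Finset Edge} {x1 x2 y1 y2 x3 x4 y3 y4 : ℤ} (h1 : x1 ≤ x3) (h2 : x4 ≤ x2)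
    (h3 : y3 ≤ y1) (h4 : y2 ≤ y4) {yu yu' xv xv' : ℤ} (hu : y1 ≤ yu ∧ yu ≤ y2)
    (hu' : y1 ≤ yu' ∧ yu' ≤ y2) (hv : x3 ≤ xv ∧ xv ≤ x4) (hv' : x3 ≤ xv' ∧ xv' ≤ x4)
    (hc : Conn (box x1 x2 y1 y2) ω (x1, yu) (x2, yu'))
    (hd : Conn (box x3 x4 y3 y4) ω (xv, y3) (xv', y4)) : (gr ω).Reachable (x1, yu) (xv, y3) := by
  classical
  by_contra hno'
  have hno : ∀ w, Conn (box x1 x2 y1 y2) ω (x1, yu) w → ¬ Conn (box x3 x4 y3 y4) ω (xv, y3) w :=
    fun w ha hb => hno' (ha.reach.trans hb.reach.symm)
  obtain ⟨c0, hc0, hbd0⟩ := pth hc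
  have hadj : ∀ e, c0 e ≠ 0 → (Conn (box x1 x2 y1 y2) ω (x1, yu) (ea e) ↔
      Conn (box x1 x2 y1 y2) ω (x1, yu) (eb e)) := by
    intro e he
    have he' : e ∈ ω ∩ box x1 x2 y1 y2 := by
      by_contra hn
      exact he (hc0 e hn)
    have hab : Conn (box x1 x2 y1 y2) ω (ea e) (eb e) := by
      refine SimpleGraph.Adj.reachable ?_
      unfold gr
      rw [SimpleGraph.fromRel_adj]
      refine ⟨?_, Or.inl ⟨e, he', rfl, rfl⟩⟩
      obtain ⟨x, y, t⟩ := e
      cases t <;> simp [ea, eb]
    exact ⟨fun h => h.trans hab, fun h => h.trans hab.symm⟩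
  obtain ⟨c, hcdef⟩ : ∃ c : Edge → ZMod 2, ∀ e, c e =
      if Conn (box x1 x2 y1 y2) ω (x1, yu) (ea e) then c0 e else 0 := ⟨_, fun _ => rfl⟩
  have hcdef' : ∀ e, c e = if Conn (box x1 x2 y1 y2) ω (x1, yu) (eb e) then c0 e else 0 := by
    intro e
    rw [hcdef]
    by_cases he : c0 e = 0
    · rw [he]
      simp
    · simp only [hadj e he]
  have hcA : ∀ e, ¬ Conn (box x1 x2 y1 y2) ω (x1, yu) (ea e) → c e = 0 := by
    intro e he
    rw [hcdef, if_neg he]
  have hcB : ∀ e, ¬ Conn (box x1 x2 y1 y2) ω (x1, yu) (eb e) → c e = 0 := by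
    intro e he
    rw [hcdef', if_neg he]
  have hcbox : ∀ e, e ∉ box x1 x2 y1 y2 → c e = 0 := by
    intro e he
    rw [hcdef, hc0 e (fun h => he (mem_inter.1 h).2)]
    simp
  have hbd : ∀ w, bd c w = ind (x1, yu) w + ind (x2, yu') w := by
    intro w
    obtain ⟨x, y⟩ := w
    have e1 := hcdef' (x - 1, y, false)
    have e2 := hcdef (x, y, false)
    have e3 := hcdef' (x, y - 1, true)
    have e4 := hcdef (x, y, true)
    simp only [ea, eb, if_true, Bool.false_eq_true, if_false, sub_add_cancel] at e1 e2 e3 e4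
    have e5 := hbd0 (x, y)
    simp only [bd] at e5 ⊢
    rw [e1, e2, e3, e4]
    by_cases hw : Conn (box x1 x2 y1 y2) ω (x1, yu) (x, y)
    · simp only [if_pos hw]
      exact e5
    · simp only [if_neg hw]
      have hw1 : ((x, y) : V) ≠ (x1, yu) := fun h => hw (h ▸ Conn.refl _ _ _)
      have hw2 : ((x, y) : V) ≠ (x2, yu') := fun h => hw (h ▸ hc)
      unfold ind
      rw [if_neg hw1, if_neg hw2]
      simp
  -- the sums of the boundary
  have hsum : ∀ x y : ℤ, ∑ k ∈ Ico y3 y, bd c (x, k) =
      (if x = x1 ∧ y3 ≤ yu ∧ yu < y then 1 else 0) +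
      (if x = x2 ∧ y3 ≤ yu' ∧ yu' < y then 1 else 0) := by
    intro x y
    simp only [hbd, sum_add_distrib, cross_ind]
  have hcol : ∀ x y : ℤ, y3 ≤ y → cross_S c y3 x y + cross_S c y3 (x + 1) y =
      c (x + 1, y - 1, true) + ((if x + 1 = x1 ∧ y3 ≤ yu ∧ yu < y then 1 else 0) +
      (if x + 1 = x2 ∧ y3 ≤ yu' ∧ yu' < y then 1 else 0)) := by
    intro x y hy
    rw [cross_col c y3 x (hcbox _ ?_) hy, hsum]
    rw [mem_box]
    simp only
    rintro (⟨h, _⟩ | ⟨_, _, _, h, _⟩)
    · exact absurd h (by simp)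
    · omega
  -- the potential
  obtain ⟨pv, hpv⟩ : ∃ pv : V → ZMod 2, ∀ w, pv w = cross_S c y3 w.1 w.2 +
      (if w.1 = x2 ∧ yu' < w.2 then 1 else 0) := ⟨_, fun _ => rfl⟩
  have hstep : ∀ e ∈ box x3 x4 y3 y4, ¬ Conn (box x1 x2 y1 y2) ω (x1, yu) (ea e) →
      ¬ Conn (box x1 x2 y1 y2) ω (x1, yu) (eb e) → pv (ea e) = pv (eb e) := by
    rintro ⟨x, y, t⟩ he hea heb
    rw [mem_box] at he
    simp only at he
    rcases he with ⟨rfl, k1, k2, k3, k4⟩ | ⟨rfl, k1, k2, k3, k4⟩
    · simp only [ea, eb, Bool.false_eq_true, if_false] at hea heb ⊢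
      rw [hpv, hpv]
      simp only
      have q1 := hcol x y k3
      have q2 : c (x + 1, y - 1, true) = 0 := by
        apply hcB
        simpa [eb] using heb
      rw [q2, if_neg (by omega : ¬ (x + 1 = x1 ∧ y3 ≤ yu ∧ yu < y)), zero_add, zero_add] at q1
      rw [if_neg (by omega : ¬ (x = x2 ∧ yu' < y)), add_zero]
      have q3 : (x + 1 = x2 ∧ y3 ≤ yu' ∧ yu' < y) ↔ (x + 1 = x2 ∧ yu' < y) := by omega
      simp only [q3] at q1
      linear_combination q1 - cross_z (cross_S c y3 (x + 1) y)
    · simp only [ea, eb, if_true] at hea heb ⊢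
      rw [hpv, hpv]
      simp only
      rw [cross_S_succ c x k3, hcA (x, y, false) (by simpa [ea] using hea), add_zero]
      have q3 : (x = x2 ∧ yu' < y + 1) ↔ (x = x2 ∧ yu' < y) := by
        constructor
        · rintro ⟨q4, q5⟩
          refine ⟨q4, ?_⟩
          rcases lt_or_eq_of_le (Int.lt_add_one_iff.1 q5) with q6 | q6
          · exact q6
          · exfalso
            apply hea
            rw [q4, ← q6]
            exact hc
        · rintro ⟨q4, q5⟩
          exact ⟨q4, by omega⟩
      simp only [q3]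
  have hconst : ∀ w, (gr (ω ∩ box x3 x4 y3 y4)).Reachable (xv, y3) w → pv w = pv (xv, y3) := by
    intro w hw
    rw [SimpleGraph.reachable_iff_reflTransGen] at hw
    induction hw with
    | refl => rfl
    | @tail b d hb hbd' ih =>
      rw [← ih]
      have hb' : Conn (box x3 x4 y3 y4) ω (xv, y3) b := by
        unfold Conn
        rw [SimpleGraph.reachable_iff_reflTransGen]
        exact hb
      have hd' : Conn (box x3 x4 y3 y4) ω (xv, y3) d := hb'.trans hbd'.reachable
      unfold gr at hbd'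
      rw [SimpleGraph.fromRel_adj] at hbd'
      obtain ⟨_, ⟨e, he, he1, he2⟩ | ⟨e, he, he1, he2⟩⟩ := hbd'
      · have := hstep e (mem_inter.1 he).2 (fun h => hno _ h (he1 ▸ hb')) (fun h => hno _ h (he2 ▸ hd'))
        rw [he1, he2] at this
        exact this.symm
      · have := hstep e (mem_inter.1 he).2 (fun h => hno _ h (he1 ▸ hd')) (fun h => hno _ h (he2 ▸ hb'))
        rw [he1, he2] at this
        exact this
  have hbot : pv (xv, y3) = 0 := by
    rw [hpv]
    simp only [cross_S, Ico_self, sum_empty, zero_add]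
    rw [if_neg (by omega)]
  have hne : ¬ Conn (box x1 x2 y1 y2) ω (x1, yu) (xv', y4) := fun h => hno _ h hd
  -- the column sums
  have hcolsum : ∀ x : ℤ, x1 ≤ x → x < x2 → cross_S c y3 x (y4 + 1) = 1 := by
    intro x hx
    induction x, hx using Int.leInduction with
    | base =>
      intro hlt
      have q1 := hcol (x1 - 1) (y4 + 1) (by omega)
      have q2 : cross_S c y3 (x1 - 1) (y4 + 1) = 0 := by
        refine Finset.sum_eq_zero fun k _ => hcbox _ ?_
        rw [mem_box]
        simp only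
        rintro (⟨_, h, _⟩ | ⟨h, _⟩)
        · omega
        · exact absurd h (by simp)
      have q3 : c (x1 - 1 + 1, y4 + 1 - 1, true) = 0 := by
        refine hcbox _ ?_
        rw [mem_box]
        simp only
        rintro (⟨h, _⟩ | ⟨_, _, _, _, h⟩)
        · exact absurd h (by simp)
        · omega
      rw [q2, q3, if_pos (by omega), if_neg (by omega), zero_add, zero_add, add_zero,
        sub_add_cancel] at q1
      exact q1
    | succ x hx ih =>
      intro hlt
      have q0 := ih (by omega)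
      have q1 := hcol x (y4 + 1) (by omega)
      have q3 : c (x + 1, y4 + 1 - 1, true) = 0 := by
        refine hcbox _ ?_
        rw [mem_box]
        simp only
        rintro (⟨h, _⟩ | ⟨_, _, _, _, h⟩)
        · exact absurd h (by simp)
        · omega
      rw [q0, q3, if_neg (by omega), if_neg (by omega)] at q1
      linear_combination q1 - cross_z 1
  have htop : pv (xv', y4) = 1 := by
    rw [hpv]
    simp only
    rcases lt_or_eq_of_le (le_trans hv'.2 h2) with hx | hx
    · rw [if_neg (by omega), add_zero]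
      have q1 := hcolsum xv' (by omega) hx
      rw [cross_S_succ c xv' (by omega : y3 ≤ y4), hcA (xv', y4, false) (by simpa [ea] using hne),
        add_zero] at q1
      exact q1
    · have q1 : cross_S c y3 xv' y4 = 0 := by
        refine Finset.sum_eq_zero fun k _ => hcbox _ ?_
        rw [mem_box]
        simp only
        rintro (⟨_, _, h, _⟩ | ⟨h, _⟩)
        · omega
        · exact absurd h (by simp)
      rw [q1, zero_add, if_pos]
      refine ⟨hx, ?_⟩
      rcases lt_or_eq_of_le (le_trans hu'.2 h4) with q6 | q6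
      · exact q6
      · exfalso
        apply hne
        rw [hx, ← q6]
        exact hc
  have := hconst _ hd
  rw [htop, hbot] at this
  exact absurd this (by decide)

end FKP
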