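import Pool.Agent.Lib.MP_216314_pr.P.PSymC
import Pool.Agent.Lib.MP_216314_pr.P.PProbA
import Pool.Agent.Lib.MP_216314_pr.P.PCross

/-!
# Gluing two crossings

* `glue`: `E = box 0 (a+b-N) 0 N`: events `HC 0 a 0 N`, `HC (a-N) (a+b-N) 0 N`, `VC (a-N) a 0 N`; `cross` twice.
-/

set_option autoImplicit false

noncomputable section

namespace FKP

open Finset FKI

theorem glue {a b N : ℕ} (ha : N ≤ a) (hb : N ≤ b) :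
    h a N * h b N * h N N ≤ h (a + b - N) N := by
  have hcast : ((a + b - N : ℕ) : ℤ) = (a : ℤ) + b - N := by omega
  have e1 : Pr (box 0 ((a + b - N : ℕ) : ℤ) 0 (N : ℤ)) (HC 0 a 0 N) = h a N :=
    Pr_HC a N (by ring) (by ring) (box_mono le_rfl (by omega) le_rfl le_rfl)
  have e2 : Pr (box 0 ((a + b - N : ℕ) : ℤ) 0 (N : ℤ))
      (HC ((a : ℤ) - N) ((a : ℤ) + b - N) 0 N) = h b N :=
    Pr_HC b N (by ring) (by ring) (box_mono (by omega) (by omega) le_rfl le_rfl)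
  have e3 : Pr (box 0 ((a + b - N : ℕ) : ℤ) 0 (N : ℤ)) (VC ((a : ℤ) - N) a 0 N) = h N N :=
    Pr_VC N N (by ring) (by ring) (box_mono (by omega) (by omega) le_rfl le_rfl)
  have i12 : Inc (fun ω => HC 0 a 0 N ω ∧ HC ((a : ℤ) - N) ((a : ℤ) + b - N) 0 N ω) :=
    fun ω ω' hs hh => ⟨inc_HC _ _ _ _ ω ω' hs hh.1, inc_HC _ _ _ _ ω ω' hs hh.2⟩
  have f1 := Pr_fkg (box 0 ((a + b - N : ℕ) : ℤ) 0 (N : ℤ)) (inc_HC 0 a 0 N)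
    (inc_HC ((a : ℤ) - N) ((a : ℤ) + b - N) 0 N)
  have f2 := Pr_fkg (box 0 ((a + b - N : ℕ) : ℤ) 0 (N : ℤ)) i12 (inc_VC ((a : ℤ) - N) a 0 N)
  rw [e1, e2] at f1
  rw [e3] at f2
  refine (mul_le_mul_of_nonneg_right f1 (e3 ▸ Pr_nonneg _ _)).trans (f2.trans ?_)
  refine Pr_mono fun ω hω hh => ?_
  obtain ⟨⟨⟨y, y', k1, k2, k3, k4, hc⟩, ⟨u, u', l1, l2, l3, l4, hd⟩⟩,
    ⟨x, x', m1, m2, m3, m4, he⟩⟩ := hh
  have c1 : (gr ω).Reachable (0, y) (x, 0) := cross (x1 := 0) (x2 := a) (y1 := 0) (y2 := N)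
    (x3 := (a : ℤ) - N) (x4 := a) (y3 := 0) (y4 := N) (by omega) le_rfl le_rfl le_rfl
    ⟨k1, k2⟩ ⟨k3, k4⟩ ⟨m1, m2⟩ ⟨m3, m4⟩ hc he
  have c2 : (gr ω).Reachable ((a : ℤ) - N, u) (x, 0) := cross (x1 := (a : ℤ) - N)
    (x2 := (a : ℤ) + b - N) (y1 := 0) (y2 := N)
    (x3 := (a : ℤ) - N) (x4 := a) (y3 := 0) (y4 := N) le_rfl (by omega) le_rfl le_rfl
    ⟨l1, l2⟩ ⟨l3, l4⟩ ⟨m1, m2⟩ ⟨m3, m4⟩ hd he
  refine ⟨y, u', k1, k2, l3, l4, Conn.of_reach hω ?_⟩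
  rw [hcast]
  exact (c1.trans c2.symm).trans hd.reach

end FKP
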