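import Pool.Agent.Lib.MP_216314_pr.P.PComb
import Pool.Agent.Lib.MP_216314_pr.P.PGlue

/-!
# JOB PLong: crossing probabilities of long rectangles are bounded below (Russo-Seymour-Welsh)

Let `N = 2n+1`, `n ≥ 1`. `h N N ≥ 1/2` (`square_half`). `comb` with `m = N`: `h (3n+2) N ≥ 1/128`. `comb` with `m = 3n+2`: `h (5n+4) N ≥ 2^(-19)`, so `h (2N) N ≥ 2^(-19)` (`h_anti`, `4n+2 ≤ 5n+4`).
`glue` with `a = kN`, `b = 2N`: `h ((k+1)N) N ≥ h (kN) N * 2^(-20)`. So `h (kN) N ≥ 2^(-20k)` for `k ≥ 1` (for `k = 1` use the square).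
General `a ≤ κ b`, `b ≥ 3`: let `N = b` or `b - 1` be odd, `N ≥ 3`, `b ≤ 2N`: `h a b ≥ h (2κN) N` (`h_anti`, `h_mono`). `b ≤ 2`: `h a b ≥ 2^(-a) ≥ 2^(-2κ)` (`h_line`).
-/

set_option autoImplicit false

noncomputable section

namespace FKP

open Finset FKI

theorem plong_two {n : ℕ} (hn : 1 ≤ n) : (1 / 2 : ℝ) ^ 19 ≤ h (2 * (2 * n + 1)) (2 * n + 1) := by
  have h1 : 1 / 2 ≤ h (2 * n + 1) (2 * n + 1) := square_half (by omega)
  have h2 := comb (n := n) (m := 2 * n + 1) hn (by omega)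
  have h3 := comb (n := n) (m := 3 * n + 2) hn (by omega)
  have e1 : 2 * (2 * n + 1) - n = 3 * n + 2 := by omega
  have e2 : 2 * (3 * n + 2) - n = 5 * n + 4 := by omega
  rw [e1] at h2
  rw [e2] at h3
  have h4 : (1 / 2 : ℝ) ^ 2 ≤ h (2 * n + 1) (2 * n + 1) ^ 2 := pow_le_pow_left₀ (by norm_num) h1 2
  have h5 : (1 / 128 : ℝ) ≤ h (3 * n + 2) (2 * n + 1) := by
    norm_num at h4
    linarith
  have h6 : (1 / 128 : ℝ) ^ 2 ≤ h (3 * n + 2) (2 * n + 1) ^ 2 := pow_le_pow_left₀ (by norm_num) h5 2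
  have h7 : h (5 * n + 4) (2 * n + 1) ≤ h (2 * (2 * n + 1)) (2 * n + 1) := h_anti (by omega)
  norm_num at h6 ⊢
  linarith

theorem rsw_odd {n : ℕ} (hn : 1 ≤ n) (k : ℕ) (hk : 1 ≤ k) :
    (1 / 2 : ℝ) ^ (20 * k) ≤ h (k * (2 * n + 1)) (2 * n + 1) := by
  have hsq : 1 / 2 ≤ h (2 * n + 1) (2 * n + 1) := square_half (by omega)
  have h2 := plong_two hn
  induction k, hk using Nat.le_induction with
  | base =>
    rw [one_mul]
    refine le_trans ?_ hsq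
    norm_num
  | succ k hk ih =>
    have hN : 2 * n + 1 ≤ k * (2 * n + 1) := Nat.le_mul_of_pos_left _ hk
    have h3 := glue (a := k * (2 * n + 1)) (b := 2 * (2 * n + 1)) (N := 2 * n + 1) hN (by omega)
    have e1 : k * (2 * n + 1) + 2 * (2 * n + 1) - (2 * n + 1) = (k + 1) * (2 * n + 1) := by
      rw [Nat.add_mul, one_mul]
      omega
    rw [e1] at h3
    refine le_trans ?_ h3
    have e2 : (1 / 2 : ℝ) ^ (20 * (k + 1)) = (1 / 2 : ℝ) ^ (20 * k) * (1 / 2) ^ 19 * (1 / 2) := by ring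
    rw [e2]
    have h0 : (0 : ℝ) ≤ (1 / 2 : ℝ) ^ (20 * k) := by positivity
    exact mul_le_mul (mul_le_mul ih h2 (by positivity) (h0.trans ih)) hsq (by norm_num)
      (mul_nonneg (h0.trans ih) (le_trans (by positivity) h2))

theorem rsw (κ : ℕ) : ∃ c : ℝ, 0 < c ∧ ∀ a b : ℕ, 1 ≤ b → a ≤ κ * b → c ≤ h a b := by
  refine ⟨(1 / 2 : ℝ) ^ (20 * (2 * κ + 1)), by positivity, fun a b hb ha => ?_⟩
  by_cases hb3 : 3 ≤ b
  · obtain ⟨n, hn1, hn2, hn3⟩ : ∃ n : ℕ, 1 ≤ n ∧ 2 * n + 1 ≤ b ∧ b ≤ 2 * n + 2 :=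
      ⟨(b - 1) / 2, by omega, by omega, by omega⟩
    have h1 := rsw_odd hn1 (2 * κ + 1) (by omega)
    have h2 : a ≤ (2 * κ + 1) * (2 * n + 1) := by
      calc a ≤ κ * b := ha
        _ ≤ κ * (2 * (2 * n + 1)) := Nat.mul_le_mul_left _ (by omega)
        _ ≤ (2 * κ + 1) * (2 * n + 1) := by
          nlinarith
    exact h1.trans ((h_mono hn2).trans (h_anti h2))
  · have h1 : a ≤ 20 * (2 * κ + 1) := by
      have : κ * b ≤ κ * 2 := Nat.mul_le_mul_left _ (by omega)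
      omega
    refine le_trans ?_ (h_line a b)
    exact pow_le_pow_of_le_one (by norm_num) (by norm_num) h1

end FKP
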