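import Pool.Agent.Lib.MP_216314_pr.P.PSymA

/-!
# JOB PSymB: translations, reflections, transposition of the square lattice

`shE a b` translation by `(a,b)`, `rxE s`: reflection `x ↦ s - x`, `ryE s`: reflection `y ↦ s - y`, `trE`: transposition.
* `Cp` facts: case analysis on the type of the edge (`Bool`).
* `box_*`: `Finset.ext`, `Finset.mem_map`, `mem_box` (for the existence of the preimage use the inverse), `omega`.
-/

set_option autoImplicit false

noncomputable section

namespace FKP

open Finset FKI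

/-- translation of the vertices -/
def shV (a b : ℤ) : V ≃ V where
  toFun v := (v.1 + a, v.2 + b)
  invFun v := (v.1 - a, v.2 - b)
  left_inv v := by ext <;> simp
  right_inv v := by ext <;> simp

/-- translation of the edges -/
def shE (a b : ℤ) : Edge ≃ Edge where
  toFun e := (e.1 + a, e.2.1 + b, e.2.2)
  invFun e := (e.1 - a, e.2.1 - b, e.2.2)
  left_inv e := by simp
  right_inv e := by simp

/-- reflection `x ↦ s - x` -/
def rxV (s : ℤ) : V ≃ V where
  toFun v := (s - v.1, v.2)
  invFun v := (s - v.1, v.2)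
  left_inv v := by ext <;> simp
  right_inv v := by ext <;> simp

/-- reflection `x ↦ s - x` of the edges -/
def rxE (s : ℤ) : Edge ≃ Edge where
  toFun e := (if e.2.2 then s - e.1 else s - e.1 - 1, e.2.1, e.2.2)
  invFun e := (if e.2.2 then s - e.1 else s - e.1 - 1, e.2.1, e.2.2)
  left_inv e := by
    obtain ⟨x, y, t⟩ := e
    cases t <;> simp <;> ring
  right_inv e := by
    obtain ⟨x, y, t⟩ := e
    cases t <;> simp <;> ring

/-- reflection `y ↦ s - y` -/
def ryV (s : ℤ) : V ≃ V where
  toFun v := (v.1, s - v.2)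
  invFun v := (v.1, s - v.2)
  left_inv v := by ext <;> simp
  right_inv v := by ext <;> simp

/-- reflection `y ↦ s - y` of the edges -/
def ryE (s : ℤ) : Edge ≃ Edge where
  toFun e := (e.1, (if e.2.2 then s - e.2.1 - 1 else s - e.2.1), e.2.2)
  invFun e := (e.1, (if e.2.2 then s - e.2.1 - 1 else s - e.2.1), e.2.2)
  left_inv e := by
    obtain ⟨x, y, t⟩ := e
    cases t <;> simp <;> ring
  right_inv e := by
    obtain ⟨x, y, t⟩ := e
    cases t <;> simp <;> ring

/-- transposition -/
def trV : V ≃ V where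
  toFun v := (v.2, v.1)
  invFun v := (v.2, v.1)
  left_inv _ := rfl
  right_inv _ := rfl

/-- transposition of the edges -/
def trE : Edge ≃ Edge where
  toFun e := (e.2.1, e.1, !e.2.2)
  invFun e := (e.2.1, e.1, !e.2.2)
  left_inv e := by
    obtain ⟨x, y, t⟩ := e
    simp
  right_inv e := by
    obtain ⟨x, y, t⟩ := e
    simp

theorem cp_sh (a b : ℤ) : Cp (shE a b) (shV a b) := by
  rintro ⟨x, y, t⟩
  left
  cases t
  · refine ⟨rfl, ?_⟩
    show ((x + a + 1, y + b) : V) = (x + 1 + a, y + b)
    exact Prod.ext (by show x + a + 1 = x + 1 + a; ring) rfl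
  · refine ⟨rfl, ?_⟩
    show ((x + a, y + b + 1) : V) = (x + a, y + 1 + b)
    exact Prod.ext rfl (by show y + b + 1 = y + 1 + b; ring)

theorem cp_rx (s : ℤ) : Cp (rxE s) (rxV s) := by
  rintro ⟨x, y, t⟩
  cases t
  · right
    refine ⟨?_, ?_⟩
    · show ((s - x - 1, y) : V) = (s - (x + 1), y)
      exact Prod.ext (by show s - x - 1 = s - (x + 1); ring) rfl
    · show ((s - x - 1 + 1, y) : V) = (s - x, y)
      exact Prod.ext (by show s - x - 1 + 1 = s - x; ring) rfl
  · left
    exact ⟨rfl, rfl⟩

theorem cp_ry (s : ℤ) : Cp (ryE s) (ryV s) := by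
  rintro ⟨x, y, t⟩
  cases t
  · left
    exact ⟨rfl, rfl⟩
  · right
    refine ⟨?_, ?_⟩
    · show ((x, s - y - 1) : V) = (x, s - (y + 1))
      exact Prod.ext rfl (by show s - y - 1 = s - (y + 1); ring)
    · show ((x, s - y - 1 + 1) : V) = (x, s - y)
      exact Prod.ext rfl (by show s - y - 1 + 1 = s - y; ring)

theorem cp_tr : Cp trE trV := by
  rintro ⟨x, y, t⟩
  left
  cases t
  · exact ⟨rfl, rfl⟩
  · exact ⟨rfl, rfl⟩

theorem psymb_mem (σ : Edge ≃ Edge) (E : Finset Edge) (e : Edge) :
    e ∈ E.map σ.toEmbedding ↔ σ.symm e ∈ E := by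
  rw [Finset.mem_map_equiv]

theorem box_sh (a b x1 x2 y1 y2 : ℤ) :
    (box x1 x2 y1 y2).map (shE a b).toEmbedding = box (x1 + a) (x2 + a) (y1 + b) (y2 + b) := by
  ext ⟨x, y, t⟩
  rw [psymb_mem, mem_box, mem_box]
  have h1 : (shE a b).symm (x, y, t) = (x - a, y - b, t) := rfl
  rw [h1]
  cases t
  · simp only [Bool.false_eq_true, false_and, or_false, true_and]
    omega
  · simp only [Bool.true_eq_false, false_and, false_or, true_and]
    omega

theorem box_rx (s x1 x2 y1 y2 : ℤ) :
    (box x1 x2 y1 y2).map (rxE s).toEmbedding = box (s - x2) (s - x1) y1 y2 := by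
  ext ⟨x, y, t⟩
  rw [psymb_mem, mem_box, mem_box]
  have h1 : (rxE s).symm (x, y, t) = (if t then s - x else s - x - 1, y, t) := rfl
  rw [h1]
  cases t
  · simp only [Bool.false_eq_true, false_and, or_false, true_and, if_false]
    omega
  · simp only [Bool.true_eq_false, false_and, false_or, true_and, if_true]
    omega

theorem box_ry (s x1 x2 y1 y2 : ℤ) :
    (box x1 x2 y1 y2).map (ryE s).toEmbedding = box x1 x2 (s - y2) (s - y1) := by
  ext ⟨x, y, t⟩
  rw [psymb_mem, mem_box, mem_box]
  have h1 : (ryE s).symm (x, y, t) = (x, (if t then s - y - 1 else s - y), t) := rfl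
  rw [h1]
  cases t
  · simp only [Bool.false_eq_true, false_and, or_false, true_and, if_false]
    omega
  · simp only [Bool.true_eq_false, false_and, false_or, true_and, if_true]
    omega

theorem box_tr (x1 x2 y1 y2 : ℤ) :
    (box x1 x2 y1 y2).map trE.toEmbedding = box y1 y2 x1 x2 := by
  ext ⟨x, y, t⟩
  rw [psymb_mem, mem_box, mem_box]
  have h1 : trE.symm (x, y, t) = (y, x, !t) := rfl
  rw [h1]
  cases t
  · simp only [Bool.not_false, Bool.false_eq_true, Bool.true_eq_false, false_and, or_false,
      false_or, true_and]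
    omega
  · simp only [Bool.not_true, Bool.false_eq_true, Bool.true_eq_false, false_and, or_false,
      false_or, true_and]
    omega

end FKP
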