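import Pool.Agent.Lib.MP_216314_pr.P.PBase
import Pool.Agent.Lib.MP_216314_pr.P.PProbA
import Pool.Agent.Lib.MP_216314_pr.P.PProbB

/-!
# JOB PExit: last exit decomposition, monotonicity of the crossing probabilities

* `last_exit`: induction on the walk from `a` to `b` (`Conn` is reachability in `gr (ω ∩ F)`): take the last vertex `c` of the walk with `f c = t` (it exists because
  `f a ≤ t ≤ f b` and `f` changes by at most `1`); after it all vertices satisfy `t ≤ f`. E.g. induction on the length with the head fixed: if `a` is adjacent to `a'` and the statement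
  holds for `a'` when `f a' ≤ t`; if `f a' > t` then `f a = t` or `f a < t < f a'`, impossible unless `f a = t`; look at whether the rest of the walk returns to `f ≤ t`.
  (Induction from the end of the walk: `b` fixed... choose what is convenient.)
* `first_hit`: the symmetric statement for the first vertex with `f = t` (apply `last_exit` to `-f`, or to the reversed walk).
* `h_mono`: taller is easier (`box_mono`; the crossing of the lower rectangle is a crossing of the taller one, and `Pr_dep`).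
* `h_anti`: shorter is easier: a crossing of `[0,a] × [0,b]` contains a crossing of `[0,a'] × [0,b]`: `first_hit` with `f = x`, `t = a'`
  (all vertices have `x ≥ 0`; the edges used satisfy `x ≤ a'` at both ends, hence are in `box 0 a' 0 b`).
* `h_line`: the `a` edges of the line `y = 0` are open with probability `2^(-a)` (e.g. `Pr E (fun ω => F ⊆ ω) = 1 / 2 ^ #F`).
-/

set_option autoImplicit false

noncomputable section

namespace FKP

open Finset FKI

theorem pexit_adj {ω : Finset Edge} {u v : V} (h : (gr ω).Adj u v) :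
    ∃ e ∈ ω, (ea e = u ∧ eb e = v) ∨ (ea e = v ∧ eb e = u) := by
  unfold gr at h
  rw [SimpleGraph.fromRel_adj] at h
  rcases h.2 with ⟨e, he, h1⟩ | ⟨e, he, h1⟩
  · exact ⟨e, he, Or.inl h1⟩
  · exact ⟨e, he, Or.inr h1⟩

theorem pexit_edge {F ω : Finset Edge} {e : Edge} (heF : e ∈ F) (heω : e ∈ ω) {u v : V}
    (h : (ea e = u ∧ eb e = v) ∨ (ea e = v ∧ eb e = u)) : Conn F ω u v := by
  by_cases huv : u = v
  · subst huv
    exact Conn.refl _ _ _
  · have h1 : (gr (ω ∩ F)).Adj u v := by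
      unfold gr
      rw [SimpleGraph.fromRel_adj]
      refine ⟨huv, ?_⟩
      rcases h with h | h
      · exact Or.inl ⟨e, mem_inter.2 ⟨heω, heF⟩, h⟩
      · exact Or.inr ⟨e, mem_inter.2 ⟨heω, heF⟩, h⟩
    exact h1.reachable

theorem pexit_aux {F ω : Finset Edge} (f : V → ℤ)
    (hf : ∀ e ∈ F, f (ea e) - f (eb e) ≤ 1 ∧ f (eb e) - f (ea e) ≤ 1) {t : ℤ} {a b : V}
    (p : (gr (ω ∩ F)).Walk a b) (hb : t ≤ f b) :
    (Conn (F.filter (fun e => t ≤ f (ea e) ∧ t ≤ f (eb e))) ω a b ∧ t ≤ f a) ∨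
    ∃ c, f c = t ∧ Conn F ω a c ∧ Conn (F.filter (fun e => t ≤ f (ea e) ∧ t ≤ f (eb e))) ω c b := by
  induction p with
  | nil => exact Or.inl ⟨Conn.refl _ _ _, hb⟩
  | @cons u v w hadj p ih =>
    obtain ⟨e, he, hends⟩ := pexit_adj hadj
    rw [mem_inter] at he
    have hfe := hf e he.2
    have hc1 : Conn F ω u v := pexit_edge he.2 he.1 hends
    rcases ih hb with ⟨h1, h2⟩ | ⟨c, h1, h2, h3⟩
    · by_cases hu : t ≤ f u
      · left
        refine ⟨Conn.trans (pexit_edge (e := e) ?_ he.1 hends) h1, hu⟩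
        rw [mem_filter]
        refine ⟨he.2, ?_⟩
        rcases hends with ⟨h3, h4⟩ | ⟨h3, h4⟩
        · rw [h3, h4]
          exact ⟨hu, h2⟩
        · rw [h3, h4]
          exact ⟨h2, hu⟩
      · right
        refine ⟨v, ?_, hc1, h1⟩
        rcases hends with ⟨h3, h4⟩ | ⟨h3, h4⟩
        · rw [h3, h4] at hfe
          omega
        · rw [h3, h4] at hfe
          omega
    · exact Or.inr ⟨c, h1, hc1.trans h2, h3⟩

theorem last_exit {F ω : Finset Edge} (f : V → ℤ)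
    (hf : ∀ e ∈ F, f (ea e) - f (eb e) ≤ 1 ∧ f (eb e) - f (ea e) ≤ 1) {a b : V} {t : ℤ}
    (ha : f a ≤ t) (hb : t ≤ f b) (hc : Conn F ω a b) :
    ∃ c, f c = t ∧ Conn F ω a c ∧ Conn (F.filter (fun e => t ≤ f (ea e) ∧ t ≤ f (eb e))) ω c b := by
  obtain ⟨p⟩ := hc
  rcases pexit_aux f hf p hb with ⟨h1, h2⟩ | h
  · exact ⟨a, le_antisymm ha h2, Conn.refl _ _ _, h1⟩
  · exact h

theorem first_hit {F ω : Finset Edge} (f : V → ℤ)
    (hf : ∀ e ∈ F, f (ea e) - f (eb e) ≤ 1 ∧ f (eb e) - f (ea e) ≤ 1) {a b : V} {t : ℤ}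
    (ha : f a ≤ t) (hb : t ≤ f b) (hc : Conn F ω a b) :
    ∃ c, f c = t ∧ Conn F ω c b ∧ Conn (F.filter (fun e => f (ea e) ≤ t ∧ f (eb e) ≤ t)) ω a c := by
  obtain ⟨c, h1, h2, h3⟩ := last_exit (F := F) (ω := ω) (fun v => - f v) (t := -t) (a := b) (b := a)
    (fun e he => by have := hf e he; constructor <;> omega) (neg_le_neg hb) (neg_le_neg ha) hc.symm
  refine ⟨c, neg_injective h1, h2.symm, ?_⟩
  refine (Conn.mono ?_ (Finset.Subset.refl _) h3).symm
  intro e he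
  rw [mem_filter] at he ⊢
  exact ⟨he.1, neg_le_neg_iff.1 he.2.1, neg_le_neg_iff.1 he.2.2⟩

theorem pexit_box {x1 x2 y1 y2 : ℤ} {e : Edge} (he : e ∈ box x1 x2 y1 y2) :
    (x1 ≤ (ea e).1 ∧ (ea e).1 ≤ x2 ∧ y1 ≤ (ea e).2 ∧ (ea e).2 ≤ y2) ∧
    (x1 ≤ (eb e).1 ∧ (eb e).1 ≤ x2 ∧ y1 ≤ (eb e).2 ∧ (eb e).2 ≤ y2) := by
  rw [mem_box] at he
  obtain ⟨x, y, b⟩ := e
  cases b
  · simp only [ea, eb] at he ⊢
    simp at he ⊢
    omega
  · simp only [ea, eb] at he ⊢
    simp at he ⊢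
    omega

/-- vertices connected to a vertex of the rectangle inside the rectangle are in the rectangle -/
theorem conn_mem_box {x1 x2 y1 y2 : ℤ} {ω : Finset Edge} {u v : V}
    (hc : Conn (box x1 x2 y1 y2) ω u v) (hu : x1 ≤ u.1 ∧ u.1 ≤ x2 ∧ y1 ≤ u.2 ∧ u.2 ≤ y2) :
    x1 ≤ v.1 ∧ v.1 ≤ x2 ∧ y1 ≤ v.2 ∧ v.2 ≤ y2 := by
  obtain ⟨p⟩ := hc
  induction p with
  | nil => exact hu
  | @cons u v w hadj p ih =>
    obtain ⟨e, he, hends⟩ := pexit_adj hadj
    rw [mem_inter] at he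
    have h1 := pexit_box he.2
    refine ih ?_
    rcases hends with ⟨h3, h4⟩ | ⟨h3, h4⟩
    · rw [← h4]
      exact h1.2
    · rw [← h3]
      exact h1.1

theorem h_mono {a b b' : ℕ} (hb : b ≤ b') : h a b ≤ h a b' := by
  have hb' : (b : ℤ) ≤ b' := by exact_mod_cast hb
  have hsub : box 0 a 0 b ⊆ box 0 a 0 b' := box_mono le_rfl le_rfl le_rfl hb'
  unfold h
  rw [← Pr_dep hsub (dep_HC (Finset.Subset.refl _))]
  refine Pr_mono fun ω _ hω => ?_
  obtain ⟨y, y', h1, h2, h3, h4, hc⟩ := hω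
  exact ⟨y, y', h1, h2.trans hb', h3, h4.trans hb', hc.mono hsub (Finset.Subset.refl _)⟩

theorem h_anti {a a' b : ℕ} (ha : a' ≤ a) : h a b ≤ h a' b := by
  have ha' : (a' : ℤ) ≤ a := by exact_mod_cast ha
  have hsub : box 0 a' 0 b ⊆ box 0 a 0 b := box_mono le_rfl ha' le_rfl le_rfl
  unfold h
  rw [← Pr_dep hsub (dep_HC (Finset.Subset.refl _))]
  refine Pr_mono fun ω _ hω => ?_
  obtain ⟨y, y', h1, h2, h3, h4, hc⟩ := hω
  have hf : ∀ e ∈ box 0 (a : ℤ) 0 b, (ea e).1 - (eb e).1 ≤ 1 ∧ (eb e).1 - (ea e).1 ≤ 1 := by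
    rintro ⟨x, z, t⟩ _
    cases t <;> simp [ea, eb]
  obtain ⟨c, hc1, hc2, hc3⟩ := first_hit (fun v : V => v.1) hf (a := (0, y)) (b := ((a : ℤ), y')) (t := (a' : ℤ))
    (by simp) ha' hc
  have hsub2 : (box 0 (a : ℤ) 0 b).filter (fun e => (ea e).1 ≤ (a' : ℤ) ∧ (eb e).1 ≤ (a' : ℤ)) ⊆ box 0 a' 0 b := by
    intro e he
    rw [mem_filter] at he
    obtain ⟨he1, he2, he3⟩ := he
    rw [mem_box] at he1 ⊢
    obtain ⟨x, z, t⟩ := e
    cases t
    · simp only [ea, eb] at he1 he2 he3 ⊢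
      simp at he1 he2 he3 ⊢
      omega
    · simp only [ea, eb] at he1 he2 he3 ⊢
      simp at he1 he2 he3 ⊢
      omega
  have hc4 : Conn (box 0 a' 0 b) ω (0, y) c := hc3.mono hsub2 (Finset.Subset.refl _)
  have hmem := conn_mem_box hc4 (by simp only; omega)
  refine ⟨y, c.2, h1, h2, hmem.2.2.1, hmem.2.2.2, ?_⟩
  have hceq : c = ((a' : ℤ), c.2) := Prod.ext hc1 rfl
  rw [← hceq]
  exact hc4

theorem pexit_line (a : ℕ) (k : ℕ) (hk : k ≤ a) :
    Conn (box 0 a 0 0) (box 0 a 0 0) (0, 0) ((k : ℤ), 0) := by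
  induction k with
  | zero => exact Conn.refl _ _ _
  | succ k ih =>
    have he : (((k : ℤ), (0 : ℤ), false) : Edge) ∈ box 0 (a : ℤ) 0 0 := by
      rw [mem_box]
      left
      simp only
      exact ⟨trivial, by omega, by omega, le_rfl, le_rfl⟩
    refine (ih (by omega)).trans (pexit_edge he he (Or.inl ⟨rfl, ?_⟩))
    simp [eb]

theorem h_line (a b : ℕ) : (1 / 2 : ℝ) ^ a ≤ h a b := by
  classical
  refine le_trans ?_ (h_mono (Nat.zero_le b))
  unfold h Pr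
  have hcard : (box 0 (a : ℤ) 0 ((0 : ℕ) : ℤ)).card = a := by
    have h1 : box 0 (a : ℤ) 0 ((0 : ℕ) : ℤ) = Ico 0 (a : ℤ) ×ˢ (Icc 0 0 ×ˢ {false}) := by
      unfold box
      simp
    rw [h1, card_product, card_product]
    simp
  have hmem : box 0 (a : ℤ) 0 ((0 : ℕ) : ℤ) ∈
      (box 0 (a : ℤ) 0 ((0 : ℕ) : ℤ)).powerset.filter (HC 0 a 0 ((0 : ℕ) : ℤ)) := by
    rw [mem_filter, mem_powerset]
    exact ⟨Finset.Subset.refl _, 0, 0, le_rfl, by simp, le_rfl, by simp, pexit_line a a le_rfl⟩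
  have h1 : 1 ≤ ((box 0 (a : ℤ) 0 ((0 : ℕ) : ℤ)).powerset.filter (HC 0 a 0 ((0 : ℕ) : ℤ))).card :=
    Finset.card_pos.2 ⟨_, hmem⟩
  rw [hcard]
  have h2 : (1 : ℝ) ≤ (((box 0 (a : ℤ) 0 ((0 : ℕ) : ℤ)).powerset.filter (HC 0 a 0 ((0 : ℕ) : ℤ))).card : ℝ) := by
    exact_mod_cast h1
  rw [one_div, inv_pow, ← one_div]
  exact div_le_div_of_nonneg_right h2 (by positivity)

end FKP
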