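import Pool.Agent.Lib.MP_216314_pr.P.PSymB
import Pool.Agent.Lib.MP_216314_pr.P.PProbB

/-!
# JOB PHB: the boundary arm at a vertex of the upper side

`HB n r x ω`: `(x,2n)` is connected to the left, right or lower side of `[x-r,x+r] × [2n-r,2n]` inside this rectangle. It is the image of `HA r` under the translation by `(x, -2n)` followed by the reflection
`y ↦ -y`: i.e. `σ = (shE x (-2n)).trans (ryE 0)` or simply `ω.map (ryE (2n))` followed by `shE`: the vertex `(0,0)` goes to `(x,2n)`. `Pr_HB`: `Pr_dep`, `Pr_map`, `conn_map`, `box_ry`, `box_sh`.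
-/

set_option autoImplicit false

noncomputable section

namespace FKP

open Finset FKI

/-- the boundary arm of the upper side -/
def HB (n r : ℕ) (x : ℤ) (ω : Finset Edge) : Prop :=
  (∃ y : ℤ, 2 * (n : ℤ) - r ≤ y ∧ y ≤ 2 * n ∧
    Conn (box (x - r) (x + r) (2 * n - r) (2 * n)) ω (x, 2 * (n : ℤ)) (x + r, y)) ∨
  (∃ y : ℤ, 2 * (n : ℤ) - r ≤ y ∧ y ≤ 2 * n ∧
    Conn (box (x - r) (x + r) (2 * n - r) (2 * n)) ω (x, 2 * (n : ℤ)) (x - r, y)) ∨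
  (∃ x' : ℤ, x - r ≤ x' ∧ x' ≤ x + r ∧
    Conn (box (x - r) (x + r) (2 * n - r) (2 * n)) ω (x, 2 * (n : ℤ)) (x', 2 * (n : ℤ) - r))

theorem inc_HB (n r : ℕ) (x : ℤ) : Inc (HB n r x) := by
  rintro ω ω' hs (⟨y, h1, h2, hc⟩ | ⟨y, h1, h2, hc⟩ | ⟨y, h1, h2, hc⟩)
  · exact Or.inl ⟨y, h1, h2, hc.mono (Finset.Subset.refl _) hs⟩
  · exact Or.inr (Or.inl ⟨y, h1, h2, hc.mono (Finset.Subset.refl _) hs⟩)
  · exact Or.inr (Or.inr ⟨y, h1, h2, hc.mono (Finset.Subset.refl _) hs⟩)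

theorem phb_dep {n r : ℕ} {x : ℤ} {E : Finset Edge}
    (hE : box (x - r) (x + r) (2 * n - r) (2 * n) ⊆ E) : Dep E (HB n r x) := by
  intro ω
  unfold HB
  constructor
  · rintro (⟨y, h1, h2, hc⟩ | ⟨y, h1, h2, hc⟩ | ⟨y, h1, h2, hc⟩)
    · exact Or.inl ⟨y, h1, h2, (dep_Conn hE _ _ ω).1 hc⟩
    · exact Or.inr (Or.inl ⟨y, h1, h2, (dep_Conn hE _ _ ω).1 hc⟩)
    · exact Or.inr (Or.inr ⟨y, h1, h2, (dep_Conn hE _ _ ω).1 hc⟩)
  · rintro (⟨y, h1, h2, hc⟩ | ⟨y, h1, h2, hc⟩ | ⟨y, h1, h2, hc⟩)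
    · exact Or.inl ⟨y, h1, h2, (dep_Conn hE _ _ ω).2 hc⟩
    · exact Or.inr (Or.inl ⟨y, h1, h2, (dep_Conn hE _ _ ω).2 hc⟩)
    · exact Or.inr (Or.inr ⟨y, h1, h2, (dep_Conn hE _ _ ω).2 hc⟩)

theorem phb_box (n r : ℕ) (x : ℤ) :
    ((box (-r) r 0 r).map (ryE (2 * n)).toEmbedding).map (shE x 0).toEmbedding =
      box (x - r) (x + r) (2 * n - r) (2 * n) := by
  rw [box_ry, box_sh]
  congr 1 <;> ring

theorem phb_conn (n r : ℕ) (x : ℤ) (ω : Finset Edge) (a b c d a' b' c' d' : ℤ) (ha : a' = a + x)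
    (hb : b' = 2 * n - b) (hc : c' = c + x) (hd : d' = 2 * n - d) :
    Conn (box (x - r) (x + r) (2 * n - r) (2 * n))
      ((ω.map (ryE (2 * n)).toEmbedding).map (shE x 0).toEmbedding) (a', b') (c', d') ↔
      Conn (box (-r) r 0 r) ω (a, b) (c, d) := by
  have h1 : shV x 0 (ryV (2 * n) (a, b)) = (a', b') := by
    show (a + x, 2 * (n : ℤ) - b + 0) = (a', b')
    rw [ha, hb, add_zero]
  have h2 : shV x 0 (ryV (2 * n) (c, d)) = (c', d') := by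
    show (c + x, 2 * (n : ℤ) - d + 0) = (c', d')
    rw [hc, hd, add_zero]
  have k1 := conn_map (cp_sh x 0) ((box (-r) r 0 r).map (ryE (2 * n)).toEmbedding)
    (ω.map (ryE (2 * n)).toEmbedding) (ryV (2 * n) (a, b)) (ryV (2 * n) (c, d))
  have k2 := conn_map (cp_ry (2 * n)) (box (-r) r 0 r) ω (a, b) (c, d)
  rw [h1, h2, phb_box] at k1
  exact k1.trans k2

theorem phb_iff (n r : ℕ) (x : ℤ) (ω : Finset Edge) :
    HB n r x ((ω.map (ryE (2 * n)).toEmbedding).map (shE x 0).toEmbedding) ↔ HA r ω := by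
  unfold HB HA
  have e1 : (∃ y : ℤ, 2 * (n : ℤ) - r ≤ y ∧ y ≤ 2 * n ∧
      Conn (box (x - r) (x + r) (2 * n - r) (2 * n))
        ((ω.map (ryE (2 * n)).toEmbedding).map (shE x 0).toEmbedding) (x, 2 * (n : ℤ)) (x + r, y)) ↔
      (∃ y : ℤ, 0 ≤ y ∧ y ≤ r ∧ Conn (box (-r) r 0 r) ω (0, 0) ((r : ℤ), y)) := by
    constructor
    · rintro ⟨y, h1, h2, hc⟩
      exact ⟨2 * n - y, by omega, by omega, (phb_conn n r x ω 0 0 r (2 * n - y) _ _ _ _ (by ring)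
        (by ring) (by ring) (by ring)).1 hc⟩
    · rintro ⟨y, h1, h2, hc⟩
      exact ⟨2 * n - y, by omega, by omega, (phb_conn n r x ω 0 0 r y _ _ _ _ (by ring)
        (by ring) (by ring) (by ring)).2 hc⟩
  have e2 : (∃ y : ℤ, 2 * (n : ℤ) - r ≤ y ∧ y ≤ 2 * n ∧
      Conn (box (x - r) (x + r) (2 * n - r) (2 * n))
        ((ω.map (ryE (2 * n)).toEmbedding).map (shE x 0).toEmbedding) (x, 2 * (n : ℤ)) (x - r, y)) ↔
      (∃ y : ℤ, 0 ≤ y ∧ y ≤ r ∧ Conn (box (-r) r 0 r) ω (0, 0) (-(r : ℤ), y)) := by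
    constructor
    · rintro ⟨y, h1, h2, hc⟩
      exact ⟨2 * n - y, by omega, by omega, (phb_conn n r x ω 0 0 (-r) (2 * n - y) _ _ _ _ (by ring)
        (by ring) (by ring) (by ring)).1 hc⟩
    · rintro ⟨y, h1, h2, hc⟩
      exact ⟨2 * n - y, by omega, by omega, (phb_conn n r x ω 0 0 (-r) y _ _ _ _ (by ring)
        (by ring) (by ring) (by ring)).2 hc⟩
  have e3 : (∃ x' : ℤ, x - r ≤ x' ∧ x' ≤ x + r ∧
      Conn (box (x - r) (x + r) (2 * n - r) (2 * n))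
        ((ω.map (ryE (2 * n)).toEmbedding).map (shE x 0).toEmbedding) (x, 2 * (n : ℤ))
        (x', 2 * (n : ℤ) - r)) ↔
      (∃ x' : ℤ, -(r : ℤ) ≤ x' ∧ x' ≤ r ∧ Conn (box (-r) r 0 r) ω (0, 0) (x', (r : ℤ))) := by
    constructor
    · rintro ⟨y, h1, h2, hc⟩
      exact ⟨y - x, by omega, by omega, (phb_conn n r x ω 0 0 (y - x) r _ _ _ _ (by ring)
        (by ring) (by ring) (by ring)).1 hc⟩
    · rintro ⟨y, h1, h2, hc⟩
      exact ⟨y + x, by omega, by omega, (phb_conn n r x ω 0 0 y r _ _ _ _ (by ring)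
        (by ring) (by ring) (by ring)).2 hc⟩
  rw [e1, e2, e3]

/-- the probability of the boundary arm of the upper side -/
theorem Pr_HB {n r : ℕ} {x : ℤ} {E : Finset Edge}
    (hE : box (x - r) (x + r) (2 * n - r) (2 * n) ⊆ E) : Pr E (HB n r x) = piH r := by
  rw [Pr_dep hE (phb_dep (Finset.Subset.refl _)), ← phb_box, Pr_map, Pr_map]
  unfold piH
  congr 1
  funext ω
  exact propext (phb_iff n r x ω)

end FKP
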