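import Pool.Agent.Lib.MP_216314_pr.P.PCross
import Pool.Agent.Lib.MP_216314_pr.P.PExit
import Pool.Agent.Lib.MP_216314_pr.P.PHB

/-!
# JOB PGeo: gluing the corner arm and the boundary arm

`Λ = [0,2n]²`. `0 < k < n`: the corner arm reaches distance `n`, the strips `k..n` surround the corner; the target is `(x,2n)`, `0 < s < r`, `r ≤ x ≤ 2n - r`, `r ≤ 2n`.
Crossings: `G1 = HC 0 2n k n`, `G2 = VC k n 0 2n`, `V1 = VC (x-r) (x-s) 0 2n`, `V2 = VC (x+s) (x+r) 0 2n`, `H1 = HC 0 2n (2n-r) (2n-s)`.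
`HB n r x ω` (file PHB): `(x,2n)` is connected to the left, right or lower side of `[x-r,x+r] × [2n-r,2n]` inside this rectangle (the boundary arm, upside down).

* `geo1`: `QA n` and `G1`, `G2` imply that `(0,0)` is connected to the crossing of `G1`: if `(0,0)` is connected to `(x',n)` in `box 0 n 0 n`, `last_exit` with `f = ordinate`, `t = k` gives a vertical crossing
  of `box 0 n k n` (the filtered edges are in it), which meets `G1` by `cross`; if it is connected to `(n,y)` then `last_exit` with `f = abscissa` gives a horizontal crossing of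
  `box k n 0 n`, which meets `G2` (`cross` with wide = `box k n 0 n`, tall = `box k n 0 2n`), and `G2` meets `G1`.
* `geo2`: similarly `(x,2n)` is connected to the crossing of `H1`: if the arm reaches the lower side: `last_exit` with `f = -ordinate`, `t = -(2n-s)`: it crosses `box (x-r) (x+r) (2n-r) (2n-s)` vertically,
  meets `H1`. If it reaches the right side: it crosses `box (x+s) (x+r) (2n-r) 2n` horizontally, meets `V2` (tall), and `V2` meets `H1`. Left side: the same with `V1`.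
* `geo`: `G1` meets `V1`, `V1` meets `H1`.
The vertices connected in `cross` are `(x1,yu)` and `(xv,y3)`.
-/

set_option autoImplicit false

noncomputable section

namespace FKP

open Finset FKI

theorem pgeo_right {x1 x2 y1 y2 t : ℤ} {ω : Finset Edge} {a : V} {y : ℤ}
    (hc : Conn (box x1 x2 y1 y2) ω a (x2, y)) (ht2 : t ≤ x2)
    (ha : x1 ≤ a.1 ∧ a.1 ≤ t ∧ y1 ≤ a.2 ∧ a.2 ≤ y2) :
    ∃ y0 : ℤ, y1 ≤ y0 ∧ y0 ≤ y2 ∧ Conn (box x1 x2 y1 y2) ω a (t, y0) ∧ Conn (box t x2 y1 y2) ω (t, y0) (x2, y) := by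
  have hf : ∀ e ∈ box x1 x2 y1 y2, (ea e).1 - (eb e).1 ≤ 1 ∧ (eb e).1 - (ea e).1 ≤ 1 := by
    rintro ⟨x, z, u⟩ _
    cases u <;> simp [ea, eb]
  obtain ⟨c, h1, h2, h3⟩ := last_exit (fun v : V => v.1) hf (t := t) ha.2.1 ht2 hc
  have hm := conn_mem_box h2 ⟨ha.1, ha.2.1.trans ht2, ha.2.2.1, ha.2.2.2⟩
  have hceq : c = (t, c.2) := Prod.ext h1 rfl
  refine ⟨c.2, hm.2.2.1, hm.2.2.2, by rw [← hceq]; exact h2, ?_⟩
  rw [← hceq]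
  refine h3.mono ?_ (Finset.Subset.refl _)
  intro e he
  rw [mem_filter] at he
  obtain ⟨he1, he2, he3⟩ := he
  rw [mem_box] at he1 ⊢
  obtain ⟨x, z, u⟩ := e
  cases u
  · simp only [ea, eb] at he1 he2 he3 ⊢
    simp at he1 he2 he3 ⊢
    omega
  · simp only [ea, eb] at he1 he2 he3 ⊢
    simp at he1 he2 he3 ⊢
    omega

theorem pgeo_left {x1 x2 y1 y2 t : ℤ} {ω : Finset Edge} {a : V} {y : ℤ}
    (hc : Conn (box x1 x2 y1 y2) ω a (x1, y)) (ht1 : x1 ≤ t)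
    (ha : t ≤ a.1 ∧ a.1 ≤ x2 ∧ y1 ≤ a.2 ∧ a.2 ≤ y2) :
    ∃ y0 : ℤ, y1 ≤ y0 ∧ y0 ≤ y2 ∧ Conn (box x1 x2 y1 y2) ω a (t, y0) ∧ Conn (box x1 t y1 y2) ω (x1, y) (t, y0) := by
  have hf : ∀ e ∈ box x1 x2 y1 y2, -(ea e).1 - -(eb e).1 ≤ 1 ∧ -(eb e).1 - -(ea e).1 ≤ 1 := by
    rintro ⟨x, z, u⟩ _
    cases u <;> simp [ea, eb]
  obtain ⟨c, h1, h2, h3⟩ := last_exit (fun v : V => -v.1) hf (t := -t) (neg_le_neg ha.1) (neg_le_neg ht1) hc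
  have hm := conn_mem_box h2 ⟨ht1.trans ha.1, ha.2.1, ha.2.2.1, ha.2.2.2⟩
  have hceq : c = (t, c.2) := Prod.ext (neg_injective h1) rfl
  refine ⟨c.2, hm.2.2.1, hm.2.2.2, by rw [← hceq]; exact h2, ?_⟩
  rw [← hceq]
  refine (h3.mono ?_ (Finset.Subset.refl _)).symm
  intro e he
  rw [mem_filter] at he
  obtain ⟨he1, he2, he3⟩ := he
  rw [neg_le_neg_iff] at he2 he3
  rw [mem_box] at he1 ⊢
  obtain ⟨x, z, u⟩ := e
  cases u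
  · simp only [ea, eb] at he1 he2 he3 ⊢
    simp at he1 he2 he3 ⊢
    omega
  · simp only [ea, eb] at he1 he2 he3 ⊢
    simp at he1 he2 he3 ⊢
    omega

theorem pgeo_up {x1 x2 y1 y2 t : ℤ} {ω : Finset Edge} {a : V} {x : ℤ}
    (hc : Conn (box x1 x2 y1 y2) ω a (x, y2)) (ht2 : t ≤ y2)
    (ha : x1 ≤ a.1 ∧ a.1 ≤ x2 ∧ y1 ≤ a.2 ∧ a.2 ≤ t) :
    ∃ x0 : ℤ, x1 ≤ x0 ∧ x0 ≤ x2 ∧ Conn (box x1 x2 y1 y2) ω a (x0, t) ∧ Conn (box x1 x2 t y2) ω (x0, t) (x, y2) := by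
  have hf : ∀ e ∈ box x1 x2 y1 y2, (ea e).2 - (eb e).2 ≤ 1 ∧ (eb e).2 - (ea e).2 ≤ 1 := by
    rintro ⟨x, z, u⟩ _
    cases u <;> simp [ea, eb]
  obtain ⟨c, h1, h2, h3⟩ := last_exit (fun v : V => v.2) hf (t := t) ha.2.2.2 ht2 hc
  have hm := conn_mem_box h2 ⟨ha.1, ha.2.1, ha.2.2.1, ha.2.2.2.trans ht2⟩
  have hceq : c = (c.1, t) := Prod.ext rfl h1
  refine ⟨c.1, hm.1, hm.2.1, by rw [← hceq]; exact h2, ?_⟩
  rw [← hceq]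
  refine h3.mono ?_ (Finset.Subset.refl _)
  intro e he
  rw [mem_filter] at he
  obtain ⟨he1, he2, he3⟩ := he
  rw [mem_box] at he1 ⊢
  obtain ⟨x, z, u⟩ := e
  cases u
  · simp only [ea, eb] at he1 he2 he3 ⊢
    simp at he1 he2 he3 ⊢
    omega
  · simp only [ea, eb] at he1 he2 he3 ⊢
    simp at he1 he2 he3 ⊢
    omega

theorem pgeo_down {x1 x2 y1 y2 t : ℤ} {ω : Finset Edge} {a : V} {x : ℤ}
    (hc : Conn (box x1 x2 y1 y2) ω a (x, y1)) (ht1 : y1 ≤ t)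
    (ha : x1 ≤ a.1 ∧ a.1 ≤ x2 ∧ t ≤ a.2 ∧ a.2 ≤ y2) :
    ∃ x0 : ℤ, x1 ≤ x0 ∧ x0 ≤ x2 ∧ Conn (box x1 x2 y1 y2) ω a (x0, t) ∧ Conn (box x1 x2 y1 t) ω (x, y1) (x0, t) := by
  have hf : ∀ e ∈ box x1 x2 y1 y2, -(ea e).2 - -(eb e).2 ≤ 1 ∧ -(eb e).2 - -(ea e).2 ≤ 1 := by
    rintro ⟨x, z, u⟩ _
    cases u <;> simp [ea, eb]
  obtain ⟨c, h1, h2, h3⟩ := last_exit (fun v : V => -v.2) hf (t := -t) (neg_le_neg ha.2.2.1) (neg_le_neg ht1) hc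
  have hm := conn_mem_box h2 ⟨ha.1, ha.2.1, ht1.trans ha.2.2.1, ha.2.2.2⟩
  have hceq : c = (c.1, t) := Prod.ext rfl (neg_injective h1)
  refine ⟨c.1, hm.1, hm.2.1, by rw [← hceq]; exact h2, ?_⟩
  rw [← hceq]
  refine (h3.mono ?_ (Finset.Subset.refl _)).symm
  intro e he
  rw [mem_filter] at he
  obtain ⟨he1, he2, he3⟩ := he
  rw [neg_le_neg_iff] at he2 he3
  rw [mem_box] at he1 ⊢
  obtain ⟨x, z, u⟩ := e
  cases u
  · simp only [ea, eb] at he1 he2 he3 ⊢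
    simp at he1 he2 he3 ⊢
    omega
  · simp only [ea, eb] at he1 he2 he3 ⊢
    simp at he1 he2 he3 ⊢
    omega

theorem geo1 {n k : ℕ} (hk : k < n) {ω : Finset Edge} (hQ : QA n ω) (h2 : VC k n 0 (2 * n) ω)
    {y y' : ℤ} (hy : (k : ℤ) ≤ y ∧ y ≤ n) (hy' : (k : ℤ) ≤ y' ∧ y' ≤ n)
    (h1 : Conn (box 0 (2 * n) k n) ω (0, y) (2 * (n : ℤ), y')) :
    (gr ω).Reachable (0, 0) (0, y) := by
  have hkn : (k : ℤ) ≤ n := by omega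
  have hn0 : (0 : ℤ) ≤ n := by omega
  have hk0 : (0 : ℤ) ≤ k := by omega
  rcases hQ with ⟨y0, hy1, hy2, hc⟩ | ⟨x0, hx1, hx2, hc⟩
  · obtain ⟨y3, h3, h4, h5, h6⟩ := pgeo_right (t := (k : ℤ)) hc hkn ⟨le_rfl, hk0, le_rfl, hn0⟩
    obtain ⟨xv, xv', v1, v2, v3, v4, hv⟩ := h2
    have c1 := cross (x1 := k) (x2 := n) (y1 := 0) (y2 := n) (x3 := k) (x4 := n) (y3 := 0) (y4 := 2 * n)
      le_rfl le_rfl le_rfl (by omega) ⟨h3, h4⟩ ⟨hy1, hy2⟩ ⟨v1, v2⟩ ⟨v3, v4⟩ h6 hv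
    have c2 := cross (x1 := 0) (x2 := 2 * n) (y1 := k) (y2 := n) (x3 := k) (x4 := n) (y3 := 0) (y4 := 2 * n)
      hk0 (by omega) hk0 (by omega) hy hy' ⟨v1, v2⟩ ⟨v3, v4⟩ h1 hv
    exact h5.reach.trans (c1.trans c2.symm)
  · obtain ⟨x3, h3, h4, h5, h6⟩ := pgeo_up (t := (k : ℤ)) hc hkn ⟨le_rfl, hn0, le_rfl, hk0⟩
    have c2 := cross (x1 := 0) (x2 := 2 * n) (y1 := k) (y2 := n) (x3 := 0) (x4 := n) (y3 := k) (y4 := n)
      le_rfl (by omega) le_rfl le_rfl hy hy' ⟨h3, h4⟩ ⟨hx1, hx2⟩ h1 h6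
    exact h5.reach.trans c2.symm

theorem geo2 {n r s : ℕ} (hs : s < r) (hr : r ≤ 2 * n) {x : ℤ} (hx : (r : ℤ) ≤ x)
    (hx' : x + r ≤ 2 * n) {ω : Finset Edge} (hH : HB n r x ω)
    (h1 : VC (x - r) (x - s) 0 (2 * n) ω) (h2 : VC (x + s) (x + r) 0 (2 * n) ω)
    {y y' : ℤ} (hy : 2 * (n : ℤ) - r ≤ y ∧ y ≤ 2 * n - s) (hy' : 2 * (n : ℤ) - r ≤ y' ∧ y' ≤ 2 * n - s)
    (h3 : Conn (box 0 (2 * n) (2 * n - r) (2 * n - s)) ω (0, y) (2 * (n : ℤ), y')) :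
    (gr ω).Reachable (x, 2 * (n : ℤ)) (0, y) := by
  have hs0 : (0 : ℤ) ≤ s := by omega
  have hsr : (s : ℤ) < r := by omega
  rcases hH with ⟨y0, hy1, hy2, hc⟩ | ⟨y0, hy1, hy2, hc⟩ | ⟨x0, hx1, hx2, hc⟩
  · obtain ⟨y3, e1, e2, e3, e4⟩ := pgeo_right (t := x + s) hc (by omega)
      ⟨by simp only; omega, by simp only; omega, by simp only; omega, le_rfl⟩
    obtain ⟨xv, xv', v1, v2, v3, v4, hv⟩ := h2
    have c1 := cross (x1 := x + s) (x2 := x + r) (y1 := 2 * n - r) (y2 := 2 * n) (x3 := x + s) (x4 := x + r)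
      (y3 := 0) (y4 := 2 * n) le_rfl le_rfl (by omega) le_rfl ⟨e1, e2⟩ ⟨hy1, hy2⟩ ⟨v1, v2⟩ ⟨v3, v4⟩ e4 hv
    have c2 := cross (x1 := 0) (x2 := 2 * n) (y1 := 2 * n - r) (y2 := 2 * n - s) (x3 := x + s) (x4 := x + r)
      (y3 := 0) (y4 := 2 * n) (by omega) (by omega) (by omega) (by omega) hy hy' ⟨v1, v2⟩ ⟨v3, v4⟩ h3 hv
    exact e3.reach.trans (c1.trans c2.symm)
  · obtain ⟨y3, e1, e2, e3, e4⟩ := pgeo_left (t := x - s) hc (by omega)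
      ⟨by simp only; omega, by simp only; omega, by simp only; omega, le_rfl⟩
    obtain ⟨xv, xv', v1, v2, v3, v4, hv⟩ := h1
    have c1 := cross (x1 := x - r) (x2 := x - s) (y1 := 2 * n - r) (y2 := 2 * n) (x3 := x - r) (x4 := x - s)
      (y3 := 0) (y4 := 2 * n) le_rfl le_rfl (by omega) le_rfl ⟨hy1, hy2⟩ ⟨e1, e2⟩ ⟨v1, v2⟩ ⟨v3, v4⟩ e4 hv
    have c2 := cross (x1 := 0) (x2 := 2 * n) (y1 := 2 * n - r) (y2 := 2 * n - s) (x3 := x - r) (x4 := x - s)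
      (y3 := 0) (y4 := 2 * n) (by omega) (by omega) (by omega) (by omega) hy hy' ⟨v1, v2⟩ ⟨v3, v4⟩ h3 hv
    exact hc.reach.trans (c1.trans c2.symm)
  · obtain ⟨x3, e1, e2, e3, e4⟩ := pgeo_down (t := 2 * n - s) hc (by omega)
      ⟨by simp only; omega, by simp only; omega, by simp only; omega, le_rfl⟩
    have c2 := cross (x1 := 0) (x2 := 2 * n) (y1 := 2 * n - r) (y2 := 2 * n - s) (x3 := x - r) (x4 := x + r)
      (y3 := 2 * n - r) (y4 := 2 * n - s) (by omega) (by omega) le_rfl le_rfl hy hy' ⟨hx1, hx2⟩ ⟨e1, e2⟩ h3 e4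
    exact hc.reach.trans c2.symm

theorem geo {n k r s : ℕ} (hk : k < n) (hs : s < r) (hr : r ≤ 2 * n) {x : ℤ} (hx : (r : ℤ) ≤ x)
    (hx' : x + r ≤ 2 * n) {ω : Finset Edge} (hQ : QA n ω) (hH : HB n r x ω)
    (g1 : HC 0 (2 * n) k n ω) (g2 : VC k n 0 (2 * n) ω) (v1 : VC (x - r) (x - s) 0 (2 * n) ω)
    (v2 : VC (x + s) (x + r) 0 (2 * n) ω) (h1 : HC 0 (2 * n) (2 * n - r) (2 * n - s) ω) :
    (gr ω).Reachable (0, 0) (x, 2 * (n : ℤ)) := by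
  obtain ⟨y, y', a1, a2, a3, a4, ha⟩ := g1
  obtain ⟨z, z', b1, b2, b3, b4, hb⟩ := h1
  have r1 := geo1 hk hQ g2 ⟨a1, a2⟩ ⟨a3, a4⟩ ha
  have r2 := geo2 hs hr hx hx' hH v1 v2 ⟨b1, b2⟩ ⟨b3, b4⟩ hb
  obtain ⟨xv, xv', c1, c2, c3, c4, hc⟩ := v1
  have r3 := cross (x1 := 0) (x2 := 2 * n) (y1 := k) (y2 := n) (x3 := x - r) (x4 := x - s)
    (y3 := 0) (y4 := 2 * n) (by omega) (by omega) (by omega) (by omega) ⟨a1, a2⟩ ⟨a3, a4⟩ ⟨c1, c2⟩ ⟨c3, c4⟩ ha hc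
  have r4 := cross (x1 := 0) (x2 := 2 * n) (y1 := 2 * n - r) (y2 := 2 * n - s) (x3 := x - r) (x4 := x - s)
    (y3 := 0) (y4 := 2 * n) (by omega) (by omega) (by omega) (by omega) ⟨b1, b2⟩ ⟨b3, b4⟩ ⟨c1, c2⟩ ⟨c3, c4⟩ hb hc
  exact r1.trans (r3.trans (r4.symm.trans r2.symm))

end FKP
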