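import Pool.Agent.Lib.MP_216314_pr.P.PSymB
import Pool.Agent.Lib.MP_216314_pr.P.PProbA
import Pool.Agent.Lib.MP_216314_pr.UniFin

/-!
# JOB PSumQ: the sum rule for critical bond percolation in a square

`sum_rules` (UniFin) with `q = 1`, `m = n = N`, `b = K = 0`: `Ex cR + Ex cBR = Ex cL + Ex aL + 1`, `Ex cT + Ex cL = Ex cBR + Ex aB + 1`; `aB`, `aL` vanish (empty intervals: `Ico (max 0 (-0)) 0`, `Ico 0 0`).
Adding: `Ex cR + Ex cT = 2`. Here `wcfg N N 0 0 = (edges N N).powerset` (the arc is empty), `wt 1 = 1`, so `Ex 1 .. F` is the average of `F` over `(edges N N).powerset`, and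
`Ex cT = ∑ x ∈ Icc 0 N, Pr (box 0 N 0 N) (fun ω => (gr ω).Reachable (0,0) (x,N))` (exchange of the sums: the card of a filter is a sum of indicators).
By the transposition (`Pr_map`, `reach_map`, `box_tr`) the sum for the right side is equal to the sum for the upper side.
-/

set_option autoImplicit false

noncomputable section

namespace FKP

open Finset FKI

theorem psumq_wcfg (N : ℕ) : wcfg N N 0 0 = (edges N N).powerset := by
  unfold wcfg
  have h : warc 0 0 = ∅ := by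
    unfold warc
    simp
  rw [h]
  exact Finset.filter_true_of_mem (fun ω _ => Finset.empty_subset ω)

theorem psumq_wt (N : ℕ) (ω : Finset Edge) : wt 1 N N ω = 1 := by
  unfold wt
  rw [Real.sqrt_one, one_pow, one_pow, one_mul]

open Classical in
theorem psumq_Ex (N : ℕ) (T : Finset ℤ) (R : ℤ → Finset Edge → Prop) :
    Ex 1 N N 0 0 (fun ω => ((T.filter (fun x => R x ω)).card : ℝ)) =
      ∑ x ∈ T, Pr (box 0 N 0 N) (R x) := by
  unfold Ex Pr
  rw [psumq_wcfg, box_eq_edges]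
  simp only [psumq_wt, one_mul]
  rw [← Finset.sum_div]
  congr 1
  · have h1 : ∀ ω : Finset Edge, ((T.filter (fun x => R x ω)).card : ℝ) =
        ∑ x ∈ T, if R x ω then (1 : ℝ) else 0 := by
      intro ω
      rw [Finset.sum_boole]
    simp only [h1]
    rw [Finset.sum_comm]
    apply Finset.sum_congr rfl
    intro x _
    rw [Finset.sum_boole]
  · rw [Finset.sum_const, Finset.card_powerset, nsmul_eq_mul, mul_one]
    push_cast
    rfl

theorem psumq_zero (N : ℕ) (F : Finset Edge → ℝ) (h : ∀ ω, F ω = 0) : Ex 1 N N 0 0 F = 0 := by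
  unfold Ex
  have h0 : ∑ ω ∈ wcfg N N 0 0, wt 1 N N ω * F ω = 0 := by
    apply Finset.sum_eq_zero
    intro ω _
    rw [h ω, mul_zero]
  rw [h0, zero_div]

theorem psumq_tr (N : ℕ) (y : ℤ) :
    Pr (box 0 N 0 N) (fun ω => (gr ω).Reachable (0, 0) ((N : ℤ), y)) =
      Pr (box 0 N 0 N) (fun ω => (gr ω).Reachable (0, 0) (y, (N : ℤ))) := by
  have h1 := Pr_map trE (box 0 N 0 N) (fun ω => (gr ω).Reachable (0, 0) (y, (N : ℤ)))
  rw [box_tr] at h1
  rw [h1]
  congr 1
  funext ω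
  have h2 := reach_map cp_tr ω (0, 0) ((N : ℤ), y)
  exact propext h2.symm

theorem sum_one (N : ℕ) : ∑ x ∈ Icc (0 : ℤ) N,
    Pr (box 0 N 0 N) (fun ω => (gr ω).Reachable (0, 0) (x, (N : ℤ))) = 1 := by
  have hr := sum_rules (q := 1) one_pos (m := N) (n := N) (b := 0) (K := 0) le_rfl (by positivity)
    (by simp) (by positivity)
  obtain ⟨h1, h2⟩ := hr
  have a1 : Ex 1 N N 0 0 (cBL 0 0) = 0 := psumq_zero N _ (fun ω => by
    unfold cBL
    simp)
  have a2 : Ex 1 N N 0 0 (aL 0 0) = 0 := psumq_zero N _ (fun ω => by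
    unfold aL
    simp)
  have a3 : Ex 1 N N 0 0 (aB 0 0) = 0 := psumq_zero N _ (fun ω => by
    unfold aB
    simp)
  have b1 : Ex 1 N N 0 0 (cT N N 0) = ∑ x ∈ Icc (0 : ℤ) N,
      Pr (box 0 N 0 N) (fun ω => (gr ω).Reachable (0, 0) (x, (N : ℤ))) := by
    unfold cT
    exact psumq_Ex N (Icc (0 : ℤ) N) (fun x ω => (gr ω).Reachable (0, 0) (x, (N : ℤ)))
  have b2 : Ex 1 N N 0 0 (cR N N 0) = ∑ x ∈ Icc (0 : ℤ) N,
      Pr (box 0 N 0 N) (fun ω => (gr ω).Reachable (0, 0) (x, (N : ℤ))) := by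
    unfold cR
    have h3 := psumq_Ex N (Icc (0 : ℤ) N) (fun y ω => (gr ω).Reachable (0, 0) ((N : ℤ), y))
    rw [h3]
    exact Finset.sum_congr rfl (fun y _ => psumq_tr N y)
  rw [a1, a2, b2, Real.sqrt_one, if_neg (lt_irrefl _)] at h1
  rw [a1, a3, b1, Real.sqrt_one, if_neg (lt_irrefl _)] at h2
  linarith

end FKP
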