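import Pool.Agent.Lib.MP_216314_pr.P.PArmA
import Pool.Agent.Lib.MP_216314_pr.P.PGeo
import Pool.Agent.Lib.MP_216314_pr.P.PLong
import Pool.Agent.Lib.MP_216314_pr.P.PSumQ

/-!
# JOB PUp: the upper bound

* `upper`: for `n ≥ 8` let `k = n/2` (floor), `r = n/4`, `s = r/2`; then `k < n`, `1 ≤ r`, `s < r`, `n ≤ 2(n-k)`, `r ≤ 2(r-s)`, `n ≤ 8 r` (as `n < 4r+4 ≤ 8r`). `rsw` with `κ = 32` gives `c` for the five crossings (lengths `2n ≤ 4(n-k)`,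
  `2n ≤ 16 r ≤ 32 (r-s)`), all in `E = box 0 2n 0 2n` (`Pr_HC`, `Pr_VC`). `Pr_fkg` six times and `geo`: `Pr (0 ↔ (x,2n)) ≥ c^5 piQ n piH r ≥ c^5 piQ n piH n` for `r ≤ x ≤ 2n-r` (at least `n` values of `x`).
  `sum_one (2n)`: `n c^5 piQ n piH n ≤ 1`. For `n ≤ 8` the bound holds with constant `8` (`piQ, piH ≤ 1`).
-/

set_option autoImplicit false

noncomputable section

namespace FKP

open Finset FKI

theorem pup_and {A B : Finset Edge → Prop} (hA : Inc A) (hB : Inc B) :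
    Inc (fun ω => A ω ∧ B ω) :=
  fun ω ω' hs h => ⟨hA ω ω' hs h.1, hB ω ω' hs h.2⟩

theorem pup_fkg {E : Finset Edge} {A B : Finset Edge → Prop} {a b : ℝ} (hA : Inc A) (hB : Inc B)
    (hb0 : 0 ≤ b) (ha : a ≤ Pr E A) (hb : b ≤ Pr E B) :
    a * b ≤ Pr E (fun ω => A ω ∧ B ω) :=
  (mul_le_mul ha hb hb0 (Pr_nonneg _ _)).trans (Pr_fkg E hA hB)

theorem pup_pt {c : ℝ} (hc0 : 0 < c) (hc : ∀ a b : ℕ, 1 ≤ b → a ≤ 32 * b → c ≤ h a b) {n : ℕ}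
    (hn : 8 ≤ n) {x : ℤ} (hx : ((n / 4 : ℕ) : ℤ) ≤ x) (hx' : x + ((n / 4 : ℕ) : ℤ) ≤ 2 * n) :
    piQ n * piH n * c ^ 5 ≤ Pr (box 0 ((2 * n : ℕ) : ℤ) 0 ((2 * n : ℕ) : ℤ))
      (fun ω => (gr ω).Reachable (0, 0) (x, ((2 * n : ℕ) : ℤ))) := by
  obtain ⟨k, hk⟩ : ∃ k, k = n / 2 := ⟨_, rfl⟩
  obtain ⟨r, hr⟩ : ∃ r, r = n / 4 := ⟨_, rfl⟩
  obtain ⟨s, hs⟩ : ∃ s, s = r / 2 := ⟨_, rfl⟩
  rw [← hr] at hx hx'
  have e2 : ((2 * n : ℕ) : ℤ) = 2 * (n : ℤ) := by push_cast; ring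
  rw [e2]
  set E : Finset Edge := box 0 (2 * (n : ℤ)) 0 (2 * (n : ℤ)) with hE
  have hQ : piQ n ≤ Pr E (QA n) := by
    have hsub : box 0 (n:ℤ) 0 n ⊆ E := box_mono le_rfl (by omega) le_rfl (by omega)
    rw [Pr_dep hsub (dep_QA (Finset.Subset.refl _))]
    exact le_rfl
  have hH : piH n ≤ Pr E (HB n r x) := by
    rw [Pr_HB (box_mono (by omega) (by omega) (by omega) le_rfl)]
    exact piH_anti (by omega)
  have hG1 : c ≤ Pr E (HC 0 (2 * n) k n) := by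
    rw [Pr_HC (2 * n) (n - k) (by push_cast; ring) (by omega)
      (box_mono le_rfl le_rfl (by omega) (by omega))]
    exact hc _ _ (by omega) (by omega)
  have hG2 : c ≤ Pr E (VC k n 0 (2 * n)) := by
    rw [Pr_VC (n - k) (2 * n) (by omega) (by push_cast; ring)
      (box_mono (by omega) (by omega) le_rfl le_rfl)]
    exact hc _ _ (by omega) (by omega)
  have hV1 : c ≤ Pr E (VC (x - r) (x - s) 0 (2 * n)) := by
    rw [Pr_VC (r - s) (2 * n) (by omega) (by push_cast; ring)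
      (box_mono (by omega) (by omega) le_rfl le_rfl)]
    exact hc _ _ (by omega) (by omega)
  have hV2 : c ≤ Pr E (VC (x + s) (x + r) 0 (2 * n)) := by
    rw [Pr_VC (r - s) (2 * n) (by omega) (by push_cast; ring)
      (box_mono (by omega) (by omega) le_rfl le_rfl)]
    exact hc _ _ (by omega) (by omega)
  have hH1 : c ≤ Pr E (HC 0 (2 * n) (2 * n - r) (2 * n - s)) := by
    rw [Pr_HC (2 * n) (r - s) (by push_cast; ring) (by omega)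
      (box_mono le_rfl le_rfl (by omega) (by omega))]
    exact hc _ _ (by omega) (by omega)
  have hH0 : 0 ≤ piH n := Pr_nonneg _ _
  have i1 := inc_QA n
  have i2 := inc_HB n r x
  have i3 := inc_HC 0 (2 * n) k n
  have i4 := inc_VC k n 0 (2 * n)
  have i5 := inc_VC (x - r) (x - s) 0 (2 * n)
  have i6 := inc_VC (x + s) (x + r) 0 (2 * n)
  have i7 := inc_HC 0 (2 * n) (2 * n - r) (2 * n - s)
  have f1 := pup_fkg i1 i2 hH0 hQ hH
  have j1 := pup_and i1 i2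
  have f2 := pup_fkg j1 i3 hc0.le f1 hG1
  have j2 := pup_and j1 i3
  have f3 := pup_fkg j2 i4 hc0.le f2 hG2
  have j3 := pup_and j2 i4
  have f4 := pup_fkg j3 i5 hc0.le f3 hV1
  have j4 := pup_and j3 i5
  have f5 := pup_fkg j4 i6 hc0.le f4 hV2
  have j5 := pup_and j4 i6
  have f6 := pup_fkg j5 i7 hc0.le f5 hH1
  have e3 : piQ n * piH n * c ^ 5 = piQ n * piH n * c * c * c * c * c := by ring
  rw [e3]
  refine f6.trans (Pr_mono fun ω _ hω => ?_)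
  obtain ⟨⟨⟨⟨⟨⟨w1, w2⟩, w3⟩, w4⟩, w5⟩, w6⟩, w7⟩ := hω
  exact geo (by omega) (by omega) (by omega) hx hx' w1 w2 w3 w4 w5 w6 w7

theorem upper : ∃ C : ℝ, 0 < C ∧ ∀ n : ℕ, 1 ≤ n → piQ n * piH n ≤ C / n := by
  obtain ⟨c, hc0, hc⟩ := rsw 32
  have hC : 0 < 1 / c ^ 5 := by positivity
  refine ⟨1 / c ^ 5 + 8, by positivity, fun n hn => ?_⟩
  have hn0 : (0:ℝ) < n := by exact_mod_cast hn
  rw [le_div_iff₀ hn0]
  have hQ0 : 0 ≤ piQ n := Pr_nonneg _ _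
  have hH0 : 0 ≤ piH n := Pr_nonneg _ _
  rcases Nat.lt_or_ge n 8 with h8 | h8
  · have h1 : piQ n * piH n ≤ 1 := mul_le_one₀ (Pr_le_one _ _) hH0 (Pr_le_one _ _)
    have h2 : (n:ℝ) ≤ 8 := by exact_mod_cast h8.le
    have h3 : piQ n * piH n * n ≤ 1 * 8 := mul_le_mul h1 h2 hn0.le zero_le_one
    linarith
  · have hs := sum_one (2 * n)
    have hsub : Icc ((n / 4 : ℕ) : ℤ) (2 * n - ((n / 4 : ℕ) : ℤ)) ⊆ Icc (0:ℤ) ((2 * n : ℕ) : ℤ) := by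
      intro x hx
      rw [Finset.mem_Icc] at hx ⊢
      omega
    have h1 := Finset.sum_le_sum_of_subset_of_nonneg (f := fun x : ℤ =>
      Pr (box 0 ((2 * n : ℕ) : ℤ) 0 ((2 * n : ℕ) : ℤ))
        (fun ω => (gr ω).Reachable (0, 0) (x, ((2 * n : ℕ) : ℤ)))) hsub
      (fun x _ _ => Pr_nonneg _ _)
    have h2 : ∑ _x ∈ Icc ((n / 4 : ℕ) : ℤ) (2 * n - ((n / 4 : ℕ) : ℤ)), piQ n * piH n * c ^ 5
        ≤ ∑ x ∈ Icc ((n / 4 : ℕ) : ℤ) (2 * n - ((n / 4 : ℕ) : ℤ)),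
          Pr (box 0 ((2 * n : ℕ) : ℤ) 0 ((2 * n : ℕ) : ℤ))
            (fun ω => (gr ω).Reachable (0, 0) (x, ((2 * n : ℕ) : ℤ))) := by
      refine Finset.sum_le_sum fun x hx => ?_
      rw [Finset.mem_Icc] at hx
      exact pup_pt hc0 hc h8 hx.1 (by omega)
    rw [Finset.sum_const, nsmul_eq_mul] at h2
    have h3 : (n : ℝ) ≤ ((Icc ((n / 4 : ℕ) : ℤ) (2 * n - ((n / 4 : ℕ) : ℤ))).card : ℝ) := by
      rw [Int.card_Icc]
      have : n ≤ (2 * (n:ℤ) - ((n / 4 : ℕ) : ℤ) + 1 - ((n / 4 : ℕ) : ℤ)).toNat := by omega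
      exact_mod_cast this
    have h4 : (0:ℝ) ≤ piQ n * piH n * c ^ 5 := by positivity
    have h5 := mul_le_mul_of_nonneg_right h3 h4
    have h6 : (n:ℝ) * (piQ n * piH n * c ^ 5) ≤ 1 := by
      refine h5.trans (h2.trans (h1.trans (le_of_eq hs)))
    have h7 : piQ n * piH n * n ≤ 1 / c ^ 5 := by
      rw [le_div_iff₀ (by positivity)]
      calc piQ n * piH n * n * c ^ 5 = (n:ℝ) * (piQ n * piH n * c ^ 5) := by ring
        _ ≤ 1 := h6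
    linarith

end FKP
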