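import Pool.Agent.Lib.MP_216314_pr.P.PLow
import Pool.Agent.Lib.MP_216314_pr.P.PUp

/-!
# The product of the corner arm and the boundary arm probability
-/

set_option autoImplicit false

noncomputable section

namespace FKP

open Finset FKI

theorem arm_product : ∃ C : ℝ, 0 < C ∧ ∀ n : ℕ, 1 ≤ n →
    1 / (2 * ((n : ℝ) + 1)) ≤ piQ n * piH n ∧ piQ n * piH n ≤ C / n := by
  obtain ⟨C, hC, h⟩ := upper
  exact ⟨C, hC, fun n hn => ⟨lower n, h n hn⟩⟩

end FKP
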