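import Pool.Agent.Lib.MP_216314_pr.P.PExpl
import Pool.Agent.Lib.MP_216314_pr.Chain

/-!
# JOB PGoodA: a vertical crossing excludes a dual horizontal crossing

* `VC_good`: a vertical crossing `(x,0) — (x',n)` of the square excludes that the exploration reaches the column `n`. `pth` (Chain) gives a chain `c` in `ω ∩ box 0 n 0 n` with boundary
  `ind (x,0) + ind (x',n)`. Put `z (i,j) = ∑ i' ∈ Icc 0 i, c (i',j,true)`. For `1 ≤ j < n` the boundary is `0` on the row `j`, so `z (i,j) - z (i,j-1) = c (i,j,false)` (induction on `i`; `c (-1,j,false) = 0`),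
  and `z (i,j) - z (i-1,j) = c (i,j,true)`. So `z` does not change across closed edges, `z = 0` on the column `-1`, hence `z = 0` on `DS n ω` (`DS_const`). But `z (n,j) = z (n,0)` (as `c (n,j,false) = 0`)
  and `z (n,0) = ∑_i c (i,0,true) = 1` (sum of the boundaries at the vertices `(i,0)`, `0 ≤ i ≤ n`: the horizontal edges count twice; for `n ≥ 1` the vertex `(x',n)` is in another row, and there are no edges `(i,-1,true)`).
-/

set_option autoImplicit false

noncomputable section

namespace FKP

open Finset FKI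

theorem PGoodA_sum (c : Edge → ZMod 2) (j : ℤ) (hc : c (-1, j, false) = 0) (k : ℕ) :
    ∑ i ∈ range k, bd c ((i : ℤ), j) = ∑ i ∈ range k, c ((i : ℤ), j - 1, true) +
      ∑ i ∈ range k, c ((i : ℤ), j, true) + c ((k : ℤ) - 1, j, false) := by
  have h2 : ∀ x : ZMod 2, x + x = 0 := by decide
  induction k with
  | zero => simp [hc]
  | succ k ih =>
    rw [sum_range_succ, sum_range_succ, sum_range_succ, ih]
    have h3 : (((k + 1 : ℕ) : ℤ) - 1) = (k : ℤ) := by push_cast; ring
    rw [h3]
    simp only [bd]
    linear_combination h2 (c ((k : ℤ) - 1, j, false))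

theorem VC_good {n : ℕ} (hn : 1 ≤ n) {ω : Finset Edge} (hω : VC 0 n 0 n ω) : Good n ω := by
  have h2 : ∀ x : ZMod 2, x + x = 0 := by decide
  obtain ⟨x, x', hx0, hxn, hx0', hxn', hc⟩ := hω
  obtain ⟨c, hc1, hc2⟩ := pth hc
  have hcb : ∀ e, e ∉ box 0 n 0 n → c e = 0 := fun e he =>
    hc1 e (fun h => he (mem_inter.1 h).2)
  have hco : ∀ e, e ∉ ω → c e = 0 := fun e he => hc1 e (fun h => he (mem_inter.1 h).1)
  have hleft : ∀ j : ℤ, c (-1, j, false) = 0 := by
    intro j
    apply hcb
    rw [mem_box]
    simp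
  have hright : ∀ j : ℤ, c ((n : ℤ), j, false) = 0 := by
    intro j
    apply hcb
    rw [mem_box]
    simp
  have hdown : ∀ i : ℤ, c (i, -1, true) = 0 := by
    intro j
    apply hcb
    rw [mem_box]
    simp
  have hbd : ∀ i j : ℤ, 1 ≤ j → j < n → bd c (i, j) = 0 := by
    intro i j h1 h3
    rw [hc2]
    have h4 : ((i, j) : V) ≠ (x, 0) := by
      intro h
      have := congrArg Prod.snd h
      simp only at this
      omega
    have h5 : ((i, j) : V) ≠ (x', (n : ℤ)) := by
      intro h
      have := congrArg Prod.snd h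
      simp only at this
      omega
    simp [ind, h4, h5]
  set z : V → ZMod 2 := fun f => ∑ i ∈ range (f.1 + 1).toNat, c ((i : ℤ), f.2, true) with hz
  -- rows
  have hrow : ∀ i j : ℤ, -1 ≤ i → 1 ≤ j → j < n → z (i, j - 1) + z (i, j) = c (i, j, false) := by
    intro i j hi h1 h3
    have h4 := PGoodA_sum c j (hleft j) (i + 1).toNat
    have h5 : (((i + 1).toNat : ℕ) : ℤ) - 1 = i := by omega
    rw [h5] at h4
    have h6 : ∑ i ∈ range (i + 1).toNat, bd c ((i : ℤ), j) = 0 :=
      sum_eq_zero fun k _ => hbd _ _ h1 h3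
    rw [h6] at h4
    have h7 : z (i, j - 1) + z (i, j) + c (i, j, false) = 0 := h4.symm
    linear_combination h7 - h2 (c (i, j, false))
  have hzz : ∀ f g e, sep n f g e → e ∉ ω → z f = z g := by
    intro f g e hs he
    obtain ⟨hf, hg, h | h⟩ := hs
    · obtain ⟨h1, h3⟩ := h
      obtain ⟨f1, f2⟩ := f
      simp only [fcs, mem_product, mem_Icc, mem_Ico] at hf hg
      subst h1
      simp only at h3 hf hg
      have h4 : (f1 + 1 + 1).toNat = (f1 + 1).toNat + 1 := by omega
      have h5 : (((f1 + 1).toNat : ℕ) : ℤ) = f1 + 1 := by omega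
      simp only [hz]
      rw [h4, sum_range_succ, h5, hco _ (h3 ▸ he), add_zero]
    · obtain ⟨h1, h3, h4, h5⟩ := h
      obtain ⟨f1, f2⟩ := f
      simp only [fcs, mem_product, mem_Icc, mem_Ico] at hf hg
      subst h1
      simp only at h3 h4 h5 hf hg
      have h6 := hrow f1 (f2 + 1) (by omega) (by omega) (by omega)
      rw [hco _ (h5 ▸ he)] at h6
      have h7 : f2 + 1 - 1 = f2 := by ring
      rw [h7] at h6
      linear_combination h6 - h2 (z (f1, f2 + 1))
  -- the column `n`
  have hcol : ∀ k : ℕ, k < n → z ((n : ℤ), (k : ℤ)) = z ((n : ℤ), 0) := by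
    intro k
    induction k with
    | zero => intro _; rfl
    | succ k ih =>
      intro hk
      have h6 := hrow (n : ℤ) ((k + 1 : ℕ) : ℤ) (by omega) (by push_cast; omega) (by exact_mod_cast hk)
      rw [hright] at h6
      have h7 : (((k + 1 : ℕ) : ℤ) - 1) = (k : ℤ) := by push_cast; ring
      rw [h7] at h6
      rw [← ih (by omega)]
      linear_combination h6 - h2 (z ((n : ℤ), (k : ℤ)))
  have hbot : z ((n : ℤ), 0) = 1 := by
    have h4 := PGoodA_sum c 0 (hleft 0) (n + 1)
    have h5 : (((n + 1 : ℕ) : ℤ) - 1) = (n : ℤ) := by push_cast; ring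
    rw [h5, hright, add_zero] at h4
    have h6 : ∑ i ∈ range (n + 1), c ((i : ℤ), 0 - 1, true) = 0 :=
      sum_eq_zero fun k _ => by
        have := hdown (k : ℤ)
        simpa using this
    rw [h6, zero_add] at h4
    have h7 : (((n : ℤ) + 1).toNat) = n + 1 := by omega
    have h8 : z ((n : ℤ), 0) = ∑ i ∈ range (n + 1), bd c ((i : ℤ), 0) := by
      rw [h4]
      simp only [hz]
      rw [h7]
    rw [h8, sum_eq_single x.toNat]
    · rw [hc2]
      have h9 : ((x.toNat : ℕ) : ℤ) = x := by omega
      rw [h9]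
      have h10 : ((x, 0) : V) ≠ (x', (n : ℤ)) := by
        intro h
        have := congrArg Prod.snd h
        simp only at this
        omega
      simp [ind, h10]
    · intro k _ hk
      rw [hc2]
      have h9 : (((k : ℤ), 0) : V) ≠ (x, 0) := by
        intro h
        have := congrArg Prod.fst h
        simp only at this
        omega
      have h10 : (((k : ℤ), 0) : V) ≠ (x', (n : ℤ)) := by
        intro h
        have := congrArg Prod.snd h
        simp only at this
        omega
      simp [ind, h9, h10]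
    · intro h
      exfalso
      apply h
      rw [mem_range]
      omega
  intro j hj
  have h3 : z ((n : ℤ), j) = 0 := by
    refine DS_const z ?_ hzz hj
    intro j _ _
    simp [hz]
  have h4 : ((n : ℤ), j) ∈ fcs n := by
    have := hj
    unfold DS at this
    classical
    exact Finset.mem_of_mem_filter _ this
  simp only [fcs, mem_product, mem_Icc, mem_Ico] at h4
  have h5 := hcol j.toNat (by omega)
  have h6 : ((j.toNat : ℕ) : ℤ) = j := by omega
  rw [h6, h3, hbot] at h5
  exact absurd h5 (by decide)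

end FKP
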