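import Pool.Agent.Lib.MP_216314_pr.P.PExpl

/-!
# JOB PGoodB: duality

* `bad_HC`: `psi (i,j,true) = (i,j,false)`, `psi (i,j,false) = (i+1,j-1,true)`. The face `(i,j)` corresponds to the vertex `(i+1,j)`. If the exploration reaches `(n,j)`, the path of faces becomes a path of
  vertices from `(0,·)` to `(n+1,j)` in the rectangle `[0,n+1] × [0,n-1]`: a step across the closed edge `e` is the edge `psi e`, which is in `((box 0 n 0 n) \ ω).map psi` and in the box of the rectangle.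
-/

set_option autoImplicit false

noncomputable section

namespace FKP

open Finset FKI

/-- the dual edge, as an edge of the square lattice -/
def psi : Edge ≃ Edge where
  toFun e := if e.2.2 then (e.1, e.2.1, false) else (e.1 + 1, e.2.1 - 1, true)
  invFun e := if e.2.2 then (e.1 - 1, e.2.1 + 1, false) else (e.1, e.2.1, true)
  left_inv e := by
    obtain ⟨x, y, t⟩ := e
    cases t <;> simp
  right_inv e := by
    obtain ⟨x, y, t⟩ := e
    cases t <;> simp

/-- the vertex corresponding to a face -/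
def pgoodb_phi (f : V) : V := (f.1 + 1, f.2)

theorem pgoodb_step {n : ℕ} {ω : Finset Edge} {f g : V} {e : Edge} (hs : sep n f g e)
    (he : e ∉ ω) :
    ∃ e' ∈ (box 0 n 0 n \ ω).map psi.toEmbedding ∩ box 0 (n + 1) 0 (n - 1),
      ea e' = pgoodb_phi f ∧ eb e' = pgoodb_phi g := by
  have hbox := sep_mem_box hs
  refine ⟨psi e, Finset.mem_inter.2 ⟨?_, ?_⟩, ?_⟩
  · exact Finset.mem_map.2 ⟨e, Finset.mem_sdiff.2 ⟨hbox, he⟩, rfl⟩
  · obtain ⟨hf, hg, h⟩ := hs
    obtain ⟨f1, f2⟩ := f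
    obtain ⟨g1, g2⟩ := g
    simp only [fcs, Finset.mem_product, Finset.mem_Icc, Finset.mem_Ico] at hf hg
    rcases h with ⟨h1, h2⟩ | ⟨h1, h3, h4, h2⟩
    · simp only [Prod.mk.injEq] at h1
      rw [mem_box, h2]
      left
      simp only [psi, Equiv.coe_fn_mk, if_true]
      refine ⟨trivial, ?_, ?_, ?_, ?_⟩ <;> omega
    · simp only [Prod.mk.injEq] at h1
      rw [mem_box, h2]
      right
      simp only [psi, Equiv.coe_fn_mk, Bool.false_eq_true, if_false]
      refine ⟨trivial, ?_, ?_, ?_, ?_⟩ <;> omega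
  · obtain ⟨hf, hg, h⟩ := hs
    obtain ⟨f1, f2⟩ := f
    obtain ⟨g1, g2⟩ := g
    rcases h with ⟨h1, h2⟩ | ⟨h1, h3, h4, h2⟩
    · simp only [Prod.mk.injEq] at h1
      obtain ⟨h5, h6⟩ := h1
      subst h5 h6
      rw [h2]
      refine ⟨Prod.ext ?_ ?_, Prod.ext ?_ ?_⟩ <;> simp [psi, ea, eb, pgoodb_phi]
    · simp only [Prod.mk.injEq] at h1
      obtain ⟨h5, h6⟩ := h1
      subst h5 h6
      rw [h2]
      refine ⟨Prod.ext ?_ ?_, Prod.ext ?_ ?_⟩ <;> simp [psi, ea, eb, pgoodb_phi]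

theorem pgoodb_inj {f g : V} (h : f ≠ g) : pgoodb_phi f ≠ pgoodb_phi g := by
  intro h1
  apply h
  obtain ⟨f1, f2⟩ := f
  obtain ⟨g1, g2⟩ := g
  simp only [pgoodb_phi, Prod.mk.injEq] at h1 ⊢
  exact ⟨by omega, h1.2⟩

/-- the path of faces becomes a path of vertices -/
def pgoodb_hom (n : ℕ) (ω : Finset Edge) :
    dg n ω →g gr ((box 0 n 0 n \ ω).map psi.toEmbedding ∩ box 0 (n + 1) 0 (n - 1)) where
  toFun := pgoodb_phi
  map_rel' := by
    intro f g hfg
    unfold dg at hfg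
    unfold gr
    rw [SimpleGraph.fromRel_adj] at hfg ⊢
    obtain ⟨hne, h⟩ := hfg
    refine ⟨pgoodb_inj hne, ?_⟩
    rcases h with ⟨e, hs, he⟩ | ⟨e, hs, he⟩
    · left
      obtain ⟨e', h1, h2, h3⟩ := pgoodb_step hs he
      exact ⟨e', h1, h2, h3⟩
    · right
      obtain ⟨e', h1, h2, h3⟩ := pgoodb_step hs he
      exact ⟨e', h1, h2, h3⟩

theorem bad_HC {n : ℕ} (hn : 1 ≤ n) {ω : Finset Edge} (hω : ¬ Good n ω) :
    HC 0 (n + 1) 0 (n - 1) ((box 0 n 0 n \ ω).map psi.toEmbedding) := by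
  unfold Good at hω
  push Not at hω
  obtain ⟨j, hj⟩ := hω
  simp only [DS, Finset.mem_filter, fcs, Finset.mem_product, Finset.mem_Icc, Finset.mem_Ico] at hj
  obtain ⟨⟨⟨h1, h2⟩, h3, h4⟩, j0, h5, h6, h7⟩ := hj
  refine ⟨j0, j, h5, by omega, h3, by omega, ?_⟩
  exact h7.map (pgoodb_hom n ω)

end FKP
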