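import Pool.Agent.Lib.MP_216314_pr.P.PFront
import Pool.Agent.Lib.MP_216314_pr.P.PSymC
import Pool.Agent.Lib.MP_216314_pr.P.PProbA
import Pool.Agent.Lib.MP_216314_pr.P.PExit
import Pool.Agent.Lib.MP_216314_pr.P.PGoodA
import Pool.Agent.Lib.MP_216314_pr.P.PGoodB

/-!
# JOB PGood: squares are crossed with probability at least one half

* `good_VC`: `front`: `C ⊆ fr n D ⊆ ω`.
* `good_half`: `Pr (¬ Good) ≤ Pr (E) (fun ω => HC .. ((E \ ω).map psi)) = Pr E (fun ω => HC .. (ω.map psi))` (`Pr_compl`) `= Pr (E.map psi) (HC ..)` (`Pr_map`) `≤ Pr (E.map psi ∪ box ..) (HC ..)` (`Pr_super`) `= h (n+1) (n-1)` (`Pr_dep`)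
  `≤ h n n` (`h_anti`, `h_mono`) `= Pr (VC)` (`Pr_VC`) `≤ Pr Good` (`VC_good`). And `Pr (¬ Good) = 1 - Pr Good`.
* `square_half`: `good_VC`, `Pr_VC`.
-/

set_option autoImplicit false

noncomputable section

namespace FKP

open Finset FKI

theorem good_VC {n : ℕ} (hn : 1 ≤ n) {ω : Finset Edge} (hω : Good n ω) : VC 0 n 0 n ω := by
  classical
  obtain ⟨C, z, hF, hC, -⟩ := front hn (D := DS n ω) ⟨ω, rfl, hω⟩
  obtain ⟨x, x', h1, h2, h3, h4, hr, -⟩ := hF.conn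
  refine ⟨x, x', h1, h2, h3, h4, SimpleGraph.Reachable.mono (gr_mono fun e he => ?_) hr⟩
  have h5 : e ∈ fr n (DS n ω) := hC he
  refine mem_inter.2 ⟨fr_open rfl h5, ?_⟩
  unfold fr at h5
  exact (mem_filter.1 h5).1

theorem good_half {n : ℕ} (hn : 1 ≤ n) : 1 / 2 ≤ Pr (box 0 n 0 n) (Good n) := by
  have h1 : Pr (box 0 n 0 n) (fun ω => ¬ Good n ω) ≤
      Pr (box 0 n 0 n) (fun ω => HC 0 (n + 1) 0 (n - 1) ((box 0 n 0 n \ ω).map psi.toEmbedding)) :=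
    Pr_mono fun ω _ hω => bad_HC hn hω
  have h2 : Pr (box 0 n 0 n) (fun ω => HC 0 (n + 1) 0 (n - 1) ((box 0 n 0 n \ ω).map psi.toEmbedding)) =
      Pr (box 0 n 0 n) (fun ω => HC 0 (n + 1) 0 (n - 1) (ω.map psi.toEmbedding)) :=
    Pr_compl (box 0 n 0 n) (fun ω => HC 0 (n + 1) 0 (n - 1) (ω.map psi.toEmbedding))
  have h3 := Pr_map psi (box 0 n 0 n) (HC 0 (n + 1) 0 (n - 1))
  have h4 : Pr ((box 0 n 0 n).map psi.toEmbedding) (HC 0 (n + 1) 0 (n - 1)) ≤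
      Pr ((box 0 n 0 n).map psi.toEmbedding ∪ box 0 (n + 1) 0 (n - 1)) (HC 0 (n + 1) 0 (n - 1)) :=
    Pr_super subset_union_left (inc_HC _ _ _ _)
  have h5 : Pr ((box 0 n 0 n).map psi.toEmbedding ∪ box 0 (n + 1) 0 (n - 1)) (HC 0 (n + 1) 0 (n - 1)) =
      h (n + 1) (n - 1) :=
    Pr_HC (n + 1) (n - 1) (by push_cast; ring) (by push_cast [Nat.cast_sub hn]; ring) subset_union_right
  have h6 : h (n + 1) (n - 1) ≤ h n (n - 1) := h_anti (Nat.le_succ n)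
  have h7 : h n (n - 1) ≤ h n n := h_mono (Nat.sub_le n 1)
  have h8 : Pr (box 0 n 0 n) (VC 0 n 0 n) = h n n := Pr_VC n n (by ring) (by ring) (Subset.refl _)
  have h9 : Pr (box 0 n 0 n) (VC 0 n 0 n) ≤ Pr (box 0 n 0 n) (Good n) := Pr_mono fun ω _ hω => VC_good hn hω
  have h10 := Pr_not (box 0 n 0 n) (Good n)
  linarith

theorem square_half {n : ℕ} (hn : 1 ≤ n) : 1 / 2 ≤ h n n := by
  have h8 : Pr (box 0 n 0 n) (VC 0 n 0 n) = h n n := Pr_VC n n (by ring) (by ring) (Subset.refl _)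
  have h9 : Pr (box 0 n 0 n) (Good n) ≤ Pr (box 0 n 0 n) (VC 0 n 0 n) := Pr_mono fun ω _ hω => good_VC hn hω
  have h10 := good_half hn
  linarith

end FKP
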