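import Pool.Agent.Lib.MP_216314_pr.P.PX
import Pool.Agent.Lib.MP_216314_pr.P.PGood
import Pool.Agent.Lib.MP_216314_pr.P.PCross

/-!
# JOB PComb: longer rectangles from shorter ones

* `comb`: in `E = box (n-m) m 0 (2n+1)` consider the increasing events `A1 = XX n m` (`Pr_dep`, `XX_lower`, `good_half`: probability `≥ h m (2n+1) / 4`),
  `A2 = fun ω => XX n m (ω.map (rxE n).toEmbedding)` (same probability: `Pr_map` with `E.map (rxE n) = E` by `box_rx`), `A3 = HC 0 n 0 n` (probability `h n n ≥ 1/2`). `Pr_fkg` twice.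
  `A1 ∧ A2 ∧ A3` implies `HC (n-m) m 0 (2n+1)`: `A3`: `(0,y) — (n,y')` in the square. `A1`: `(x,0) — (x',n)` in the square, `(x,0) — (m,y'')` in the rectangle. By `cross` `(0,y)` and `(x,0)` are connected.
  `A2` gives (apply the reflection, `conn_map`, `box_rx`) a vertical crossing `(x2,0) — (x2',n)` of the square and `(x2,0) — (n-m,y2)` in the reflected rectangle; `cross` again. All connections are in `ω ⊆ E`,
  so `Conn.of_reach`. (First replace `ω` by a subset of `E`: `Pr_mono` gives `ω ⊆ E`.) `Pr_HC`: the probability is `h (2m-n) (2n+1)`.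
-/

set_option autoImplicit false

noncomputable section

namespace FKP

open Finset FKI

theorem inc_XX (n m : ℕ) : Inc (XX n m) := by
  rintro ω ω' hs ⟨x, x', y', h1, h2, h3, h4, h5, h6, hc, hd⟩
  exact ⟨x, x', y', h1, h2, h3, h4, h5, h6, hc.mono (Finset.Subset.refl _) hs,
    hd.mono (Finset.Subset.refl _) hs⟩

theorem pcomb_dep {n m : ℕ} (hm : n ≤ m) : Dep (box 0 m 0 (2 * n + 1)) (XX n m) := by
  intro ω
  have hs : box 0 (n : ℤ) 0 n ⊆ box 0 (m : ℤ) 0 (2 * n + 1) :=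
    box_mono (le_refl _) (by exact_mod_cast hm) (le_refl _) (by omega)
  constructor
  · rintro ⟨x, x', y', h1, h2, h3, h4, h5, h6, hc, hd⟩
    exact ⟨x, x', y', h1, h2, h3, h4, h5, h6, (dep_Conn hs _ _ ω).1 hc,
      (dep_Conn (Finset.Subset.refl _) _ _ ω).1 hd⟩
  · rintro ⟨x, x', y', h1, h2, h3, h4, h5, h6, hc, hd⟩
    exact ⟨x, x', y', h1, h2, h3, h4, h5, h6, (dep_Conn hs _ _ ω).2 hc,
      (dep_Conn (Finset.Subset.refl _) _ _ ω).2 hd⟩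

/-- the reflected event -/
theorem pcomb_refl {n m : ℕ} {ω : Finset Edge} (hX : XX n m (ω.map (rxE n).toEmbedding)) :
    ∃ x x' y' : ℤ, 0 ≤ x ∧ x ≤ n ∧ 0 ≤ x' ∧ x' ≤ n ∧ 0 ≤ y' ∧ y' ≤ 2 * n + 1 ∧
      Conn (box 0 n 0 n) ω (x, 0) (x', (n : ℤ)) ∧
      Conn (box ((n : ℤ) - m) n 0 (2 * n + 1)) ω (x, 0) ((n : ℤ) - m, y') := by
  obtain ⟨x, x', y', h1, h2, h3, h4, h5, h6, hc, hd⟩ := hX
  have e1 : (box 0 (n : ℤ) 0 n).map (rxE n).toEmbedding = box 0 n 0 n := by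
    rw [box_rx, sub_self, sub_zero]
  have e2 : (box ((n : ℤ) - m) n 0 (2 * n + 1)).map (rxE n).toEmbedding
      = box 0 m 0 (2 * n + 1) := by
    rw [box_rx, sub_self, sub_sub_cancel]
  refine ⟨(n : ℤ) - x, (n : ℤ) - x', y', by omega, by omega, by omega, by omega, h5, h6, ?_, ?_⟩
  · rw [← conn_map (cp_rx (n : ℤ)), e1]
    have a1 : rxV (n : ℤ) ((n : ℤ) - x, 0) = (x, 0) := by
      show ((n : ℤ) - ((n : ℤ) - x), (0 : ℤ)) = (x, 0)
      rw [sub_sub_cancel]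
    have a2 : rxV (n : ℤ) ((n : ℤ) - x', (n : ℤ)) = (x', (n : ℤ)) := by
      show ((n : ℤ) - ((n : ℤ) - x'), (n : ℤ)) = (x', (n : ℤ))
      rw [sub_sub_cancel]
    rw [a1, a2]
    exact hc
  · rw [← conn_map (cp_rx (n : ℤ)), e2]
    have a1 : rxV (n : ℤ) ((n : ℤ) - x, 0) = (x, 0) := by
      show ((n : ℤ) - ((n : ℤ) - x), (0 : ℤ)) = (x, 0)
      rw [sub_sub_cancel]
    have a2 : rxV (n : ℤ) ((n : ℤ) - m, y') = ((m : ℤ), y') := by
      show ((n : ℤ) - ((n : ℤ) - m), y') = ((m : ℤ), y')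
      rw [sub_sub_cancel]
    rw [a1, a2]
    exact hd

/-- the geometric implication -/
theorem pcomb_geo {n m : ℕ} {ω : Finset Edge} (hω : ω ⊆ box ((n : ℤ) - m) m 0 (2 * n + 1))
    (h1 : XX n m ω) (h2 : XX n m (ω.map (rxE n).toEmbedding)) (h3 : HC 0 n 0 n ω) :
    HC ((n : ℤ) - m) m 0 (2 * n + 1) ω := by
  obtain ⟨x, x', y', a1, a2, a3, a4, a5, a6, hc, hd⟩ := h1
  obtain ⟨u, u', v', b1, b2, b3, b4, b5, b6, hc', hd'⟩ := pcomb_refl h2
  obtain ⟨y, y'', c1, c2, c3, c4, he⟩ := h3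
  have r1 : (gr ω).Reachable (0, y) (x, 0) :=
    cross (le_refl _) (le_refl _) (le_refl _) (le_refl _) ⟨c1, c2⟩ ⟨c3, c4⟩ ⟨a1, a2⟩ ⟨a3, a4⟩ he hc
  have r2 : (gr ω).Reachable (0, y) (u, 0) :=
    cross (le_refl _) (le_refl _) (le_refl _) (le_refl _) ⟨c1, c2⟩ ⟨c3, c4⟩ ⟨b1, b2⟩ ⟨b3, b4⟩ he hc'
  refine ⟨v', y', b5, b6, a5, a6, Conn.of_reach hω ?_⟩
  exact (hd'.reach.symm.trans r2.symm).trans (r1.trans hd.reach)

theorem comb {n m : ℕ} (hn : 1 ≤ n) (hm : n ≤ m) :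
    h m (2 * n + 1) ^ 2 / 32 ≤ h (2 * m - n) (2 * n + 1) := by
  set E : Finset Edge := box ((n : ℤ) - m) m 0 (2 * n + 1) with hE
  have hmn : (n : ℤ) ≤ m := by exact_mod_cast hm
  have hsub : box 0 (m : ℤ) 0 (2 * n + 1) ⊆ E :=
    box_mono (by omega) (le_refl _) (le_refl _) (le_refl _)
  have hsub' : box 0 (n : ℤ) 0 n ⊆ E :=
    box_mono (by omega) hmn (le_refl _) (by omega)
  have hEm : E.map (rxE (n : ℤ)).toEmbedding = E := by
    rw [hE, box_rx, sub_sub_cancel]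
  have p1 : h m (2 * n + 1) / 4 ≤ Pr E (XX n m) := by
    rw [Pr_dep hsub (pcomb_dep hm)]
    have q1 := XX_lower hn hm
    have q2 := good_half hn
    have q3 : 0 ≤ h m (2 * n + 1) := Pr_nonneg _ _
    have q4 : h m (2 * n + 1) / 2 * (1 / 2) ≤ h m (2 * n + 1) / 2 * Pr (box 0 n 0 n) (Good n) :=
      mul_le_mul_of_nonneg_left q2 (by linarith)
    linarith
  have p2 : h m (2 * n + 1) / 4 ≤ Pr E (fun ω => XX n m (ω.map (rxE (n : ℤ)).toEmbedding)) := by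
    rw [← Pr_map (rxE (n : ℤ)) E (XX n m), hEm]
    exact p1
  have p3 : 1 / 2 ≤ Pr E (HC 0 n 0 n) := by
    rw [Pr_HC n n (by rw [zero_add]) (by rw [zero_add]) hsub']
    exact square_half hn
  have i2 : Inc (fun ω => XX n m (ω.map (rxE (n : ℤ)).toEmbedding)) := by
    intro ω ω' hs hX
    exact inc_XX n m _ _ (Finset.map_subset_map.2 hs) hX
  have i12 : Inc (fun ω => XX n m ω ∧ XX n m (ω.map (rxE (n : ℤ)).toEmbedding)) := by
    intro ω ω' hs hX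
    exact ⟨inc_XX n m _ _ hs hX.1, i2 _ _ hs hX.2⟩
  have f1 := Pr_fkg E (inc_XX n m) i2
  have f2 := Pr_fkg E i12 (inc_HC 0 n 0 n)
  have g1 : Pr E (fun ω => (XX n m ω ∧ XX n m (ω.map (rxE (n : ℤ)).toEmbedding)) ∧ HC 0 n 0 n ω)
      ≤ Pr E (HC ((n : ℤ) - m) m 0 (2 * n + 1)) :=
    Pr_mono fun ω hω hA => pcomb_geo hω hA.1.1 hA.1.2 hA.2
  have g2 : Pr E (HC ((n : ℤ) - m) m 0 (2 * n + 1)) = h (2 * m - n) (2 * n + 1) :=
    Pr_HC (2 * m - n) (2 * n + 1) (by omega) (by push_cast; ring) (Finset.Subset.refl _)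
  rw [← g2]
  have q3 : 0 ≤ h m (2 * n + 1) := Pr_nonneg _ _
  have k1 : h m (2 * n + 1) / 4 * (h m (2 * n + 1) / 4)
      ≤ Pr E (fun ω => XX n m ω ∧ XX n m (ω.map (rxE (n : ℤ)).toEmbedding)) :=
    (mul_le_mul p1 p2 (by linarith) (le_trans (by linarith) p1)).trans f1
  have k2 : h m (2 * n + 1) / 4 * (h m (2 * n + 1) / 4) * (1 / 2)
      ≤ Pr E (fun ω => XX n m ω ∧ XX n m (ω.map (rxE (n : ℤ)).toEmbedding)) * Pr E (HC 0 n 0 n) :=
    mul_le_mul k1 p3 (by norm_num) (Pr_nonneg _ _)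
  have k3 := (k2.trans f2).trans g1
  calc h m (2 * n + 1) ^ 2 / 32 = h m (2 * n + 1) / 4 * (h m (2 * n + 1) / 4) * (1 / 2) := by ring
    _ ≤ _ := k3

end FKP
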