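import Pool.Agent.Lib.MP_216314_pr.P.PBar
import Pool.Agent.Lib.MP_216314_pr.P.PProbA
import Pool.Agent.Lib.MP_216314_pr.P.PProbB

/-!
# JOB PX: the Bollobas-Riordan lemma

`XX n m ω`: a vertical crossing of the square `[0,n]²` is connected to the right side of `[0,m] × [0,2n+1]` inside this rectangle.

* `Yv_half`: `HC → Yv ∨ Yv ∘ map` (`bar`), `Pr_or_le`, and `Pr box (fun ω => Yv (ω.map ry)) = Pr (box.map ry) Yv = Pr box Yv` (`Pr_map`, `box_ry`).
* `XX_lower`: `T` = set of the `D` in `(fcs n).powerset` such that `∃ ω, DS n ω = D ∧ Good n ω`. For `D ∈ T` choose `C, z` by `front`. `DS n ω = D` and `Yv n m C z ω` imply `XX n m ω`: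
  `C ⊆ fr n D ⊆ ω` (`fr_open`), and `C ⊆ box 0 n 0 n` (`sep_mem_box`), so `(x,0)` and `(x',n)` are connected in `ω ∩ box 0 n 0 n`, and the vertex `w` of `C` is connected to `(x,0)` there;
  `GG ⊆ box 0 m 0 (2n+1)`, `box 0 n 0 n ⊆ box 0 m 0 (2n+1)`. The two events are independent: `DS_dep` (edges `tch n D`), `Yv` depends on `GG n m z`, and `tch n D` and `GG n m z` are disjoint: an edge of
  `tch n D` has a face `f ∈ D ⊆ fcs n` on one side, `z f = 0`, so it is `tz` (`sep` gives `adjf`). `Pr_part`, `Pr_indep`, `Yv_half`, `Pr_part_eq` (for the event `Good n`: `Good n ω ↔ DS n ω ∈ T`), `Pr_dep`.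
-/

set_option autoImplicit false

noncomputable section

namespace FKP

open Finset FKI

/-- a vertical crossing of the square is connected to the right side of the rectangle -/
def XX (n m : ℕ) (ω : Finset Edge) : Prop :=
  ∃ x x' y' : ℤ, 0 ≤ x ∧ x ≤ n ∧ 0 ≤ x' ∧ x' ≤ n ∧ 0 ≤ y' ∧ y' ≤ 2 * n + 1 ∧
    Conn (box 0 n 0 n) ω (x, 0) (x', (n : ℤ)) ∧ Conn (box 0 m 0 (2 * n + 1)) ω (x, 0) ((m : ℤ), y')

theorem Yv_half {n m : ℕ} (hn : 1 ≤ n) (hm : n ≤ m) {C : Finset Edge} {z : V → ZMod 2}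
    (hF : Fr n C z) : h m (2 * n + 1) / 2 ≤ Pr (box 0 m 0 (2 * n + 1)) (Yv n m C z) := by
  have hbox : (box 0 (m : ℤ) 0 (2 * n + 1)).map (ryE (2 * n + 1)).toEmbedding
      = box 0 (m : ℤ) 0 (2 * n + 1) := by
    rw [box_ry]
    congr 1 <;> ring
  have hcast : (((2 * n + 1 : ℕ) : ℕ) : ℤ) = 2 * (n : ℤ) + 1 := by push_cast; ring
  have h1 : h m (2 * n + 1) ≤ Pr (box 0 m 0 (2 * n + 1))
      (fun ω => Yv n m C z ω ∨ Yv n m C z (ω.map (ryE (2 * n + 1)).toEmbedding)) := by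
    unfold h
    rw [hcast]
    exact Pr_mono (fun ω _ hω => bar hn hm hF hω)
  have h2 := Pr_or_le (box 0 (m : ℤ) 0 (2 * n + 1)) (Yv n m C z)
    (fun ω => Yv n m C z (ω.map (ryE (2 * n + 1)).toEmbedding))
  have h3 : Pr (box 0 (m : ℤ) 0 (2 * n + 1))
      (fun ω => Yv n m C z (ω.map (ryE (2 * n + 1)).toEmbedding))
      = Pr (box 0 (m : ℤ) 0 (2 * n + 1)) (Yv n m C z) := by
    rw [← Pr_map, hbox]
  rw [h3] at h2
  linarith

theorem px_GG_sub (n m : ℕ) (z : V → ZMod 2) : GG n m z ⊆ box 0 m 0 (2 * n + 1) := by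
  classical
  unfold GG
  exact Finset.filter_subset _ _

theorem px_box_sub {n m : ℕ} (hm : n ≤ m) :
    box 0 (n : ℤ) 0 n ⊆ box 0 (m : ℤ) 0 (2 * n + 1) := by
  apply box_mono
  · omega
  · omega
  · omega
  · omega

theorem px_tch_sub {n m : ℕ} (hm : n ≤ m) (D : Finset V) :
    tch n D ⊆ box 0 (m : ℤ) 0 (2 * n + 1) := by
  classical
  refine Finset.Subset.trans ?_ (px_box_sub hm)
  unfold tch
  exact Finset.filter_subset _ _

theorem px_adj {n : ℕ} {f g : V} {e : Edge} (hs : sep n f g e) : adjf e f ∧ adjf e g := by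
  obtain ⟨_, _, h | h⟩ := hs
  · obtain ⟨hg, he⟩ := h
    subst hg
    subst he
    constructor
    · right
      refine ⟨rfl, Or.inl ?_⟩
      ext <;> simp
    · right
      refine ⟨rfl, Or.inr ?_⟩
      ext <;> simp
  · obtain ⟨hg, _, _, he⟩ := h
    subst hg
    subst he
    constructor
    · left
      refine ⟨rfl, Or.inl ?_⟩
      ext <;> simp
    · left
      refine ⟨rfl, Or.inr ?_⟩
      ext <;> simp

theorem px_low {n : ℕ} {f : V} {z : V → ZMod 2} (hf : f ∈ fcs n) (hz : z f = 0) : low z n f := by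
  unfold fcs at hf
  rw [mem_product, mem_Icc, mem_Ico] at hf
  exact ⟨hf.2.1, hf.2.2, hz⟩

theorem px_disj {n m : ℕ} {D : Finset V} {z : V → ZMod 2} (hz : ∀ f ∈ D, z f = 0) :
    Disjoint (tch n D) (GG n m z) := by
  classical
  rw [Finset.disjoint_left]
  intro e he he'
  unfold tch at he
  unfold GG at he'
  rw [mem_filter] at he he'
  obtain ⟨_, f, g, hs, hfg⟩ := he
  apply he'.2
  obtain ⟨ha, hb⟩ := px_adj hs
  rcases hfg with hf | hg
  · exact ⟨f, ha, Or.inl (px_low hs.1 (hz f hf))⟩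
  · exact ⟨g, hb, Or.inl (px_low hs.2.1 (hz g hg))⟩

theorem px_Yv_dep (n m : ℕ) (C : Finset Edge) (z : V → ZMod 2) :
    Dep (GG n m z) (Yv n m C z) := by
  intro ω
  unfold Yv
  constructor
  · rintro ⟨w, hw, y', h1, h2, hc⟩
    exact ⟨w, hw, y', h1, h2, (dep_Conn (Finset.Subset.refl _) _ _ ω).1 hc⟩
  · rintro ⟨w, hw, y', h1, h2, hc⟩
    exact ⟨w, hw, y', h1, h2, (dep_Conn (Finset.Subset.refl _) _ _ ω).2 hc⟩

theorem px_XX {n m : ℕ} (hm : n ≤ m) {D : Finset V} {C : Finset Edge} {z : V → ZMod 2}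
    (hF : Fr n C z) (hC : C ⊆ fr n D) {ω : Finset Edge} (hD : DS n ω = D)
    (hY : Yv n m C z ω) : XX n m ω := by
  have hCω : C ⊆ ω := hC.trans (fr_open hD)
  have hCb : C ⊆ box 0 (n : ℤ) 0 n := by
    intro e he
    obtain ⟨f, g, hs⟩ := hF.sub e he
    exact sep_mem_box hs
  obtain ⟨x, x', h1, h2, h3, h4, hr, hall⟩ := hF.conn
  obtain ⟨w, hw, y', h5, h6, hc⟩ := hY
  have hsub : C ⊆ ω ∩ box 0 (n : ℤ) 0 n := Finset.subset_inter hCω hCb
  have hc1 : Conn (box 0 (n : ℤ) 0 n) ω (x, 0) (x', (n : ℤ)) :=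
    SimpleGraph.Reachable.mono (gr_mono hsub) hr
  have hc2 : Conn (box 0 (n : ℤ) 0 n) ω (x, 0) w :=
    SimpleGraph.Reachable.mono (gr_mono hsub) (hall w hw)
  have hc3 : Conn (box 0 (m : ℤ) 0 (2 * n + 1)) ω (x, 0) w :=
    hc2.mono (px_box_sub hm) (Finset.Subset.refl _)
  have hc4 : Conn (box 0 (m : ℤ) 0 (2 * n + 1)) ω ((m : ℤ), y') w :=
    hc.mono (px_GG_sub n m z) (Finset.Subset.refl _)
  exact ⟨x, x', y', h1, h2, h3, h4, h5, h6, hc1, hc3.trans hc4.symm⟩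

theorem XX_lower {n m : ℕ} (hn : 1 ≤ n) (hm : n ≤ m) :
    h m (2 * n + 1) / 2 * Pr (box 0 n 0 n) (Good n) ≤ Pr (box 0 m 0 (2 * n + 1)) (XX n m) := by
  classical
  set E := box 0 (m : ℤ) 0 (2 * n + 1) with hE
  have key : ∀ D : Finset V, ∃ (C : Finset Edge) (z : V → ZMod 2),
      (∃ ω, DS n ω = D ∧ Good n ω) → Fr n C z ∧ C ⊆ fr n D ∧ ∀ f ∈ D, z f = 0 := by
    intro D
    by_cases hD : ∃ ω, DS n ω = D ∧ Good n ω
    · obtain ⟨C, z, hh⟩ := front hn hD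
      exact ⟨C, z, fun _ => hh⟩
    · exact ⟨∅, fun _ => 0, fun h => absurd h hD⟩
  choose C z hCz using key
  set T : Finset (Finset V) :=
    (fcs n).powerset.filter (fun D => ∃ ω, DS n ω = D ∧ Good n ω) with hT
  have hmemT : ∀ D, D ∈ T → ∃ ω, DS n ω = D ∧ Good n ω := fun D hD => (mem_filter.1 hD).2
  have hgood : ∀ ω, ω ⊆ E → (Good n ω ↔ DS n ω ∈ T) := by
    intro ω _
    constructor
    · intro hg
      rw [hT, mem_filter, mem_powerset]
      refine ⟨?_, ω, rfl, hg⟩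
      unfold DS
      exact Finset.filter_subset _ _
    · intro hD
      obtain ⟨ω', h1, h2⟩ := hmemT _ hD
      intro j
      rw [← h1]
      exact h2 j
  have hsum : ∑ D ∈ T, Pr E (fun ω => DS n ω = D) = Pr (box 0 n 0 n) (Good n) := by
    rw [Pr_part_eq T (fun ω => DS n ω) (Good n) hgood]
    exact Pr_dep (px_box_sub hm) (good_dep n)
  have hle : ∑ D ∈ T, Pr E (fun ω => DS n ω = D ∧ Yv n m (C D) (z D) ω) ≤ Pr E (XX n m) := by
    refine Pr_part T (fun ω => DS n ω) (fun D ω => Yv n m (C D) (z D) ω) (XX n m) ?_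
    intro ω _ D hD h1 h2
    obtain ⟨hF, hC, _⟩ := hCz D (hmemT D hD)
    exact px_XX hm hF hC h1 h2
  have hterm : ∀ D ∈ T, Pr E (fun ω => DS n ω = D) * (h m (2 * n + 1) / 2)
      ≤ Pr E (fun ω => DS n ω = D ∧ Yv n m (C D) (z D) ω) := by
    intro D hD
    obtain ⟨hF, hC, hz⟩ := hCz D (hmemT D hD)
    rw [Pr_indep (px_tch_sub hm D) (px_GG_sub n m (z D)) (px_disj hz) (DS_dep n D)
      (px_Yv_dep n m (C D) (z D))]
    exact mul_le_mul_of_nonneg_left (Yv_half hn hm hF) (Pr_nonneg _ _)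
  calc h m (2 * n + 1) / 2 * Pr (box 0 n 0 n) (Good n)
      = ∑ D ∈ T, Pr E (fun ω => DS n ω = D) * (h m (2 * n + 1) / 2) := by
        rw [← Finset.sum_mul, hsum, mul_comm]
    _ ≤ ∑ D ∈ T, Pr E (fun ω => DS n ω = D ∧ Yv n m (C D) (z D) ω) := Finset.sum_le_sum hterm
    _ ≤ Pr E (XX n m) := hle

end FKP
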