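import Pool.Agent.Lib.MP_216314_pr.P.PExit

/-!
# JOB PArmA: monotonicity of the arm probabilities

* `piH_anti`, `piQ_anti`: an arm to distance `n` contains an arm to distance `k ≤ n` (`first_hit` with `f v = max |v.1| v.2`, resp. `max v.1 v.2`, `t = k`: the edges used have both end points in
  `[-k,k] × [0,k]`, hence are in the box; `f c = k`), and `Pr_dep`, `Pr_mono` (compare both in the big box).
* `piQ_le_piH`: the corner arm is a boundary arm (`box_mono`, `Pr_dep`).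
-/

set_option autoImplicit false

noncomputable section

namespace FKP

open Finset FKI

theorem parma_dep_HA {n : ℕ} {E : Finset Edge} (hE : box (-n) n 0 n ⊆ E) : Dep E (HA n) := by
  intro ω
  unfold HA
  constructor
  · rintro (⟨y, h1, h2, hc⟩ | ⟨y, h1, h2, hc⟩ | ⟨y, h1, h2, hc⟩)
    · exact Or.inl ⟨y, h1, h2, (dep_Conn hE _ _ ω).1 hc⟩
    · exact Or.inr (Or.inl ⟨y, h1, h2, (dep_Conn hE _ _ ω).1 hc⟩)
    · exact Or.inr (Or.inr ⟨y, h1, h2, (dep_Conn hE _ _ ω).1 hc⟩)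
  · rintro (⟨y, h1, h2, hc⟩ | ⟨y, h1, h2, hc⟩ | ⟨y, h1, h2, hc⟩)
    · exact Or.inl ⟨y, h1, h2, (dep_Conn hE _ _ ω).2 hc⟩
    · exact Or.inr (Or.inl ⟨y, h1, h2, (dep_Conn hE _ _ ω).2 hc⟩)
    · exact Or.inr (Or.inr ⟨y, h1, h2, (dep_Conn hE _ _ ω).2 hc⟩)

theorem parma_ends {x1 x2 y1 y2 : ℤ} {e : Edge} (he : e ∈ box x1 x2 y1 y2) :
    (e.2.2 = false ∧ ea e = (e.1, e.2.1) ∧ eb e = (e.1 + 1, e.2.1)) ∨
      (e.2.2 = true ∧ ea e = (e.1, e.2.1) ∧ eb e = (e.1, e.2.1 + 1)) := by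
  obtain ⟨x, y, t⟩ := e
  cases t
  · left
    exact ⟨rfl, rfl, rfl⟩
  · right
    exact ⟨rfl, rfl, rfl⟩

/-- the arm of length `n` in the half plane contains the arm of length `k` -/
theorem parma_H {k n : ℕ} (hk : k ≤ n) {ω : Finset Edge} {v : V}
    (hv : v.1 = n ∨ v.1 = -(n : ℤ) ∨ v.2 = n)
    (hc : Conn (box (-n) n 0 n) ω (0, 0) v) : HA k ω := by
  set f : V → ℤ := fun v => max (max v.1 (-v.1)) v.2 with hf
  have h1 : ∀ e ∈ box (-(n:ℤ)) n 0 n, f (ea e) - f (eb e) ≤ 1 ∧ f (eb e) - f (ea e) ≤ 1 := by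
    intro e he
    rcases parma_ends he with ⟨_, h2, h3⟩ | ⟨_, h2, h3⟩
    · rw [h2, h3]
      simp only [hf]
      omega
    · rw [h2, h3]
      simp only [hf]
      omega
  have h2 : f ((0, 0) : V) ≤ k := by
    simp only [hf]
    omega
  have h3 : (k : ℤ) ≤ f v := by
    simp only [hf]
    omega
  obtain ⟨c, hc1, _, hc2⟩ := first_hit f h1 h2 h3 hc
  have hsub : (box (-(n:ℤ)) n 0 n).filter (fun e => f (ea e) ≤ k ∧ f (eb e) ≤ k)
      ⊆ box (-(k:ℤ)) k 0 k := by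
    intro e he
    rw [Finset.mem_filter] at he
    obtain ⟨he1, he2, he3⟩ := he
    have hm := mem_box.1 he1
    rw [mem_box]
    rcases parma_ends he1 with ⟨h4, h5, h6⟩ | ⟨h4, h5, h6⟩
    · rw [h5] at he2
      rw [h6] at he3
      simp only [hf] at he2 he3
      rcases hm with ⟨h7, h8, h9, h10, h11⟩ | ⟨h7, _⟩
      · left
        refine ⟨h7, ?_, ?_, ?_, ?_⟩ <;> omega
      · rw [h4] at h7
        exact absurd h7 (by simp)
    · rw [h5] at he2
      rw [h6] at he3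
      simp only [hf] at he2 he3
      rcases hm with ⟨h7, _⟩ | ⟨h7, h8, h9, h10, h11⟩
      · rw [h4] at h7
        exact absurd h7 (by simp)
      · right
        refine ⟨h7, ?_, ?_, ?_, ?_⟩ <;> omega
  have hc3 : Conn (box (-(k:ℤ)) k 0 k) ω (0, 0) c := hc2.mono hsub (Finset.Subset.refl _)
  obtain ⟨m1, m2, m3, m4⟩ := conn_mem_box hc3 (by simp only; omega)
  obtain ⟨x, y⟩ := c
  simp only [hf] at hc1 m1 m2 m3 m4
  have hcase : x = k ∨ x = -(k:ℤ) ∨ y = k := by omega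
  rcases hcase with rfl | rfl | rfl
  · exact Or.inl ⟨y, m3, m4, hc3⟩
  · exact Or.inr (Or.inl ⟨y, m3, m4, hc3⟩)
  · exact Or.inr (Or.inr ⟨x, m1, m2, hc3⟩)

/-- the arm of length `n` in the quarter plane contains the arm of length `k` -/
theorem parma_Q {k n : ℕ} (hk : k ≤ n) {ω : Finset Edge} {v : V}
    (hv : v.1 = n ∨ v.2 = n)
    (hc : Conn (box 0 n 0 n) ω (0, 0) v) : QA k ω := by
  set f : V → ℤ := fun v => max v.1 v.2 with hf
  have h1 : ∀ e ∈ box 0 (n:ℤ) 0 n, f (ea e) - f (eb e) ≤ 1 ∧ f (eb e) - f (ea e) ≤ 1 := by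
    intro e he
    rcases parma_ends he with ⟨_, h2, h3⟩ | ⟨_, h2, h3⟩
    · rw [h2, h3]
      simp only [hf]
      omega
    · rw [h2, h3]
      simp only [hf]
      omega
  have h2 : f ((0, 0) : V) ≤ k := by
    simp only [hf]
    omega
  have h3 : (k : ℤ) ≤ f v := by
    simp only [hf]
    omega
  obtain ⟨c, hc1, _, hc2⟩ := first_hit f h1 h2 h3 hc
  have hsub : (box 0 (n:ℤ) 0 n).filter (fun e => f (ea e) ≤ k ∧ f (eb e) ≤ k)
      ⊆ box 0 (k:ℤ) 0 k := by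
    intro e he
    rw [Finset.mem_filter] at he
    obtain ⟨he1, he2, he3⟩ := he
    have hm := mem_box.1 he1
    rw [mem_box]
    rcases parma_ends he1 with ⟨h4, h5, h6⟩ | ⟨h4, h5, h6⟩
    · rw [h5] at he2
      rw [h6] at he3
      simp only [hf] at he2 he3
      rcases hm with ⟨h7, h8, h9, h10, h11⟩ | ⟨h7, _⟩
      · left
        refine ⟨h7, ?_, ?_, ?_, ?_⟩ <;> omega
      · rw [h4] at h7
        exact absurd h7 (by simp)
    · rw [h5] at he2
      rw [h6] at he3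
      simp only [hf] at he2 he3
      rcases hm with ⟨h7, _⟩ | ⟨h7, h8, h9, h10, h11⟩
      · rw [h4] at h7
        exact absurd h7 (by simp)
      · right
        refine ⟨h7, ?_, ?_, ?_, ?_⟩ <;> omega
  have hc3 : Conn (box 0 (k:ℤ) 0 k) ω (0, 0) c := hc2.mono hsub (Finset.Subset.refl _)
  obtain ⟨m1, m2, m3, m4⟩ := conn_mem_box hc3 (by simp only; omega)
  obtain ⟨x, y⟩ := c
  simp only [hf] at hc1 m1 m2 m3 m4
  have hcase : x = k ∨ y = k := by omega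
  rcases hcase with rfl | rfl
  · exact Or.inl ⟨y, m3, m4, hc3⟩
  · exact Or.inr ⟨x, m1, m2, hc3⟩

theorem piH_anti {k n : ℕ} (hk : k ≤ n) : piH n ≤ piH k := by
  have hsub : box (-(k:ℤ)) k 0 k ⊆ box (-(n:ℤ)) n 0 n :=
    box_mono (by omega) (by omega) le_rfl (by omega)
  unfold piH
  rw [← Pr_dep hsub (parma_dep_HA (Finset.Subset.refl _))]
  refine Pr_mono fun ω _ hω => ?_
  rcases hω with ⟨y, _, _, hc⟩ | ⟨y, _, _, hc⟩ | ⟨x, _, _, hc⟩
  · exact parma_H hk (Or.inl rfl) hc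
  · exact parma_H hk (Or.inr (Or.inl rfl)) hc
  · exact parma_H hk (Or.inr (Or.inr rfl)) hc

theorem piQ_anti {k n : ℕ} (hk : k ≤ n) : piQ n ≤ piQ k := by
  have hsub : box 0 (k:ℤ) 0 k ⊆ box 0 (n:ℤ) 0 n :=
    box_mono le_rfl (by omega) le_rfl (by omega)
  unfold piQ
  rw [← Pr_dep hsub (dep_QA (Finset.Subset.refl _))]
  refine Pr_mono fun ω _ hω => ?_
  rcases hω with ⟨y, _, _, hc⟩ | ⟨x, _, _, hc⟩
  · exact parma_Q hk (Or.inl rfl) hc
  · exact parma_Q hk (Or.inr rfl) hc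

theorem piQ_le_piH (n : ℕ) : piQ n ≤ piH n := by
  have hsub : box 0 (n:ℤ) 0 n ⊆ box (-(n:ℤ)) n 0 n :=
    box_mono (by omega) le_rfl le_rfl le_rfl
  unfold piQ piH
  rw [← Pr_dep hsub (dep_QA (Finset.Subset.refl _))]
  refine Pr_mono fun ω _ hω => ?_
  rcases hω with ⟨y, h1, h2, hc⟩ | ⟨x, h1, h2, hc⟩
  · exact Or.inl ⟨y, h1, h2, hc.mono hsub (Finset.Subset.refl _)⟩
  · exact Or.inr (Or.inr ⟨x, by omega, h2, hc.mono hsub (Finset.Subset.refl _)⟩)

end FKP
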