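import Pool.Agent.Lib.MP_216314_pr.P.PFront
import Pool.Agent.Lib.MP_216314_pr.P.PSymB

/-!
# JOB PBar: a crossing of the big rectangle hits the crossing path or its mirror image

`R = [0,m] × [0,2n+1]`, `n ≤ m`; the mirror is `y ↦ 2n+1-y` on vertices, `j ↦ 2n-j` on faces. `low z n f`: `f` is a face of the rows `0..n-1` with `z f = 0`.
`tz z n e`: one of the two faces next to the edge `e` is low or the mirror image of a low face. `GG n m z`: the edges of `R` that are not `tz`.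
`Yv`: some vertex of `C` is connected to the right side of `R` by open edges of `GG`.

PROOF of `bar`. Call a vertex `v = (x,y)` of `R` with `y ≤ n` of class `1` if it is not in `Vt C` and `z = 1` on all the faces `(x-1,y-1), (x,y-1), (x-1,y), (x,y)` which are in the rows `0..n-1`
(if `v ∉ Vt C` these faces have the same value of `z`, because two consecutive ones are separated by an edge at `v`, which is not in `C`: `Fr.chg`; for abscissas `> n` use `Fr.right`);
a vertex with `y ≥ n+1` is of class `1` if its mirror image is. For an edge `e` of `R` with end points `u, v`, `u` of class `1`, `v ∉ Vt C ∪ mirror (Vt C)`: `e ∈ GG` (the faces next to `e` are next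
to `u`), and `v` is of class `1` (they have a common face in the rows `0..n-1` resp. its mirror; for the edge `(x,n,true)` between `(x,n)` and `(x,n+1)` the two are mirror images).
Now let `(0,y)` and `(m,y')` be connected in `ω ∩ box`. If the conclusion fails, then no vertex of `Vt C ∪ mirror (Vt C)` is connected to `(m,y')` in `ω ∩ GG` (for a vertex of `mirror (Vt C)` apply the
reflection: `conn_map`, `GG` is symmetric). `(m,y')` itself is not in `Vt C ∪ mirror (Vt C)`, so it is of class `1` (`Fr.right`, `n ≤ m`). By induction along the walk every vertex `v` connected to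
`(m,y')` in `ω ∩ box` is of class `1` and is connected to `(m,y')` in `ω ∩ GG`. In particular `(0,y)`: but a vertex `(0,y)` has a low face `(-1,·)` next to it (`Fr.left`) or a mirror one: contradiction.
(`1 ≤ n` is needed here.)
-/

set_option autoImplicit false

noncomputable section

namespace FKP

open Finset FKI

/-- faces next to an edge -/
def adjf (e : Edge) (f : V) : Prop :=
  (e.2.2 = false ∧ (f = (e.1, e.2.1 - 1) ∨ f = (e.1, e.2.1))) ∨
    (e.2.2 = true ∧ (f = (e.1 - 1, e.2.1) ∨ f = (e.1, e.2.1)))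

/-- low faces -/
def low (z : V → ZMod 2) (n : ℕ) (f : V) : Prop := 0 ≤ f.2 ∧ f.2 < n ∧ z f = 0

/-- the edge is next to a low face or to the mirror image of a low face -/
def tz (z : V → ZMod 2) (n : ℕ) (e : Edge) : Prop :=
  ∃ f, adjf e f ∧ (low z n f ∨ low z n (f.1, 2 * n - f.2))

open Classical in
/-- the edges of the rectangle on the right of the crossing path and of its mirror image -/
def GG (n m : ℕ) (z : V → ZMod 2) : Finset Edge :=
  (box 0 m 0 (2 * n + 1)).filter (fun e => ¬ tz z n e)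

/-- the crossing path is connected to the right side -/
def Yv (n m : ℕ) (C : Finset Edge) (z : V → ZMod 2) (ω : Finset Edge) : Prop :=
  ∃ w ∈ Vt C, ∃ y' : ℤ, 0 ≤ y' ∧ y' ≤ 2 * n + 1 ∧ Conn (GG n m z) ω ((m : ℤ), y') w

/-- mirror image of a face -/
def pbar_mf (n : ℕ) (f : V) : V := (f.1, 2 * n - f.2)

theorem pbar_mf_mf (n : ℕ) (f : V) : pbar_mf n (pbar_mf n f) = f := by
  unfold pbar_mf
  ext <;> simp

theorem pbar_adjf_ry (n : ℕ) (e : Edge) (f : V) :
    adjf (ryE (2 * n + 1) e) f ↔ adjf e (pbar_mf n f) := by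
  obtain ⟨x, y, t⟩ := e
  obtain ⟨a, b⟩ := f
  unfold adjf pbar_mf ryE
  cases t
  · simp only [Equiv.coe_fn_mk, Bool.false_eq_true, if_false, true_and, false_and, or_false,
      Prod.mk.injEq]
    constructor
    · rintro (⟨h1, h2⟩ | ⟨h1, h2⟩)
      · exact Or.inr ⟨h1, by omega⟩
      · exact Or.inl ⟨h1, by omega⟩
    · rintro (⟨h1, h2⟩ | ⟨h1, h2⟩)
      · exact Or.inr ⟨h1, by omega⟩
      · exact Or.inl ⟨h1, by omega⟩
  · simp only [Equiv.coe_fn_mk, if_true, true_and, Prod.mk.injEq]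
    constructor
    · rintro (⟨h, _⟩ | ⟨h1, h2⟩ | ⟨h1, h2⟩)
      · exact absurd h (by simp)
      · exact Or.inr (Or.inl ⟨h1, by omega⟩)
      · exact Or.inr (Or.inr ⟨h1, by omega⟩)
    · rintro (⟨h, _⟩ | ⟨h1, h2⟩ | ⟨h1, h2⟩)
      · exact absurd h (by simp)
      · exact Or.inr (Or.inl ⟨h1, by omega⟩)
      · exact Or.inr (Or.inr ⟨h1, by omega⟩)

theorem pbar_tz_ry (z : V → ZMod 2) (n : ℕ) (e : Edge) : tz z n (ryE (2 * n + 1) e) ↔ tz z n e := by
  have key : ∀ e : Edge, tz z n e → tz z n (ryE (2 * n + 1) e) := by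
    rintro e ⟨f, hf, h⟩
    refine ⟨pbar_mf n f, ?_, ?_⟩
    · rw [pbar_adjf_ry, pbar_mf_mf]; exact hf
    · have e1 : ((pbar_mf n f).1, 2 * n - (pbar_mf n f).2) = f := pbar_mf_mf n f
      rw [e1]
      exact h.symm
  constructor
  · intro h
    have h1 := key _ h
    have e1 : ryE (2 * n + 1) (ryE (2 * n + 1) e) = e := (ryE (2 * n + 1)).left_inv e
    rwa [e1] at h1
  · exact key e

/-- faces next to a vertex -/
def pbar_vf (v f : V) : Prop := (f.1 = v.1 ∨ f.1 = v.1 - 1) ∧ (f.2 = v.2 ∨ f.2 = v.2 - 1)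

theorem pbar_adj_ea {e : Edge} {f : V} (h : adjf e f) : pbar_vf (ea e) f := by
  obtain ⟨x, y, t⟩ := e
  obtain ⟨a, b⟩ := f
  unfold adjf at h
  unfold pbar_vf ea
  simp only [Prod.mk.injEq] at h ⊢
  rcases h with ⟨_, ⟨h1, h2⟩ | ⟨h1, h2⟩⟩ | ⟨_, ⟨h1, h2⟩ | ⟨h1, h2⟩⟩ <;>
    refine ⟨?_, ?_⟩ <;> omega

theorem pbar_adj_eb {e : Edge} {f : V} (h : adjf e f) : pbar_vf (eb e) f := by
  obtain ⟨x, y, t⟩ := e
  obtain ⟨a, b⟩ := f
  unfold adjf at h
  unfold pbar_vf eb
  simp only [Prod.mk.injEq] at h ⊢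
  rcases h with ⟨h, ⟨h1, h2⟩ | ⟨h1, h2⟩⟩ | ⟨h, ⟨h1, h2⟩ | ⟨h1, h2⟩⟩
  all_goals
    rw [h]
    simp only [Bool.false_eq_true, if_false, if_true]
    refine ⟨?_, ?_⟩ <;> omega

theorem pbar_vf_mirror {n : ℕ} {v f : V} (h : pbar_vf v f) :
    pbar_vf (ryV (2 * n + 1) v) (pbar_mf n f) := by
  unfold pbar_vf ryV pbar_mf at *
  simp only [Equiv.coe_fn_mk]
  refine ⟨h.1, ?_⟩
  omega

/-- regular vertices -/
def pbar_c1 (n : ℕ) (C : Finset Edge) (z : V → ZMod 2) (v : V) : Prop :=
  v ∉ Vt C ∧ ∀ f, pbar_vf v f → 0 ≤ f.2 → f.2 < n → z f ≠ 0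

theorem pbar_Vt_ea {C : Finset Edge} {e : Edge} (he : e ∈ C) : ea e ∈ Vt C := by
  unfold Vt
  rw [mem_union]
  exact Or.inl (mem_image_of_mem _ he)

theorem pbar_Vt_eb {C : Finset Edge} {e : Edge} (he : e ∈ C) : eb e ∈ Vt C := by
  unfold Vt
  rw [mem_union]
  exact Or.inr (mem_image_of_mem _ he)

/-- horizontal neighbours -/
theorem pbar_zh {n : ℕ} {C : Finset Edge} {z : V → ZMod 2} (hF : Fr n C z) {x y j : ℤ}
    (hv : (x, y) ∉ Vt C) (hx : 0 ≤ x) (hj : j = y ∨ j = y - 1) (hj0 : 0 ≤ j) (hjn : j < n) :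
    z (x - 1, j) = z (x, j) := by
  by_cases hxn : x ≤ n
  · have hs : sep n (x - 1, j) (x, j) (x, j, true) := by
      refine ⟨?_, ?_, Or.inl ⟨?_, rfl⟩⟩
      · unfold fcs
        rw [mem_product, mem_Icc, mem_Ico]
        exact ⟨⟨by change (-1 : ℤ) ≤ x - 1; omega, by change x - 1 ≤ (n : ℤ); omega⟩, hj0, hjn⟩
      · unfold fcs
        rw [mem_product, mem_Icc, mem_Ico]
        exact ⟨⟨by change (-1 : ℤ) ≤ x; omega, by change x ≤ (n : ℤ); omega⟩, hj0, hjn⟩
      · simp
    have hC : (x, j, true) ∉ C := by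
      intro hC
      rcases hj with hj | hj
      · apply hv
        have := pbar_Vt_ea hC
        unfold ea at this
        rw [← hj]; exact this
      · apply hv
        have := pbar_Vt_eb hC
        unfold eb at this
        simp only [if_true] at this
        have e1 : j + 1 = y := by omega
        rw [e1] at this
        exact this
    by_contra hne
    exact hC ((hF.chg _ _ _ hs).2 hne)
  · rw [hF.right (x - 1) j (by omega) hj0 hjn, hF.right x j (by omega) hj0 hjn]

/-- vertical neighbours -/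
theorem pbar_zv {n : ℕ} {C : Finset Edge} {z : V → ZMod 2} (hF : Fr n C z) {x y i : ℤ}
    (hv : (x, y) ∉ Vt C) (hx : 0 ≤ x) (hi : i = x ∨ i = x - 1) (hy0 : 0 ≤ y - 1) (hyn : y < n) :
    z (i, y - 1) = z (i, y) := by
  by_cases hi0 : i = -1
  · rw [hi0, hF.left (y - 1) hy0 (by omega), hF.left y (by omega) hyn]
  · by_cases hin : i < n
    · have hs : sep n (i, y - 1) (i, y) (i, y, false) := by
        refine ⟨?_, ?_, Or.inr ⟨?_, by change 0 ≤ i; omega, hin, rfl⟩⟩
        · unfold fcs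
          rw [mem_product, mem_Icc, mem_Ico]
          exact ⟨⟨by change (-1 : ℤ) ≤ i; omega, by change i ≤ (n : ℤ); omega⟩, hy0,
            by change y - 1 < (n : ℤ); omega⟩
        · unfold fcs
          rw [mem_product, mem_Icc, mem_Ico]
          exact ⟨⟨by change (-1 : ℤ) ≤ i; omega, by change i ≤ (n : ℤ); omega⟩,
            by change 0 ≤ y; omega, hyn⟩
        · simp
      have hC : (i, y, false) ∉ C := by
        intro hC
        rcases hi with hi | hi
        · apply hv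
          have := pbar_Vt_ea hC
          unfold ea at this
          rw [← hi]; exact this
        · apply hv
          have := pbar_Vt_eb hC
          unfold eb at this
          simp only [Bool.false_eq_true, if_false] at this
          have e1 : i + 1 = x := by omega
          rw [e1] at this
          exact this
      by_contra hne
      exact hC ((hF.chg _ _ _ hs).2 hne)
    · rw [hF.right i (y - 1) (by omega) hy0 (by omega), hF.right i y (by omega) (by omega) hyn]

/-- all the faces of the strip next to a vertex outside `Vt C` have the same value -/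
theorem pbar_const {n : ℕ} {C : Finset Edge} {z : V → ZMod 2} (hF : Fr n C z) {v f g : V}
    (hv : v ∉ Vt C) (hx : 0 ≤ v.1) (hf : pbar_vf v f) (hg : pbar_vf v g) (hf0 : 0 ≤ f.2)
    (hfn : f.2 < n) (hg0 : 0 ≤ g.2) (hgn : g.2 < n) : z f = z g := by
  obtain ⟨x, y⟩ := v
  have h1 : ∀ f : V, pbar_vf (x, y) f → 0 ≤ f.2 → f.2 < n → z f = z (x, f.2) := by
    rintro ⟨a, b⟩ ⟨ha, hb⟩ hb0 hbn
    simp only at ha hb hb0 hbn ⊢
    rcases ha with ha | ha
    · rw [ha]
    · rw [ha]; exact pbar_zh hF hv hx hb hb0 hbn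
  rw [h1 f hf hf0 hfn, h1 g hg hg0 hgn]
  obtain ⟨_, hf2⟩ := hf
  obtain ⟨_, hg2⟩ := hg
  simp only at hf2 hg2
  rcases hf2 with hf2 | hf2 <;> rcases hg2 with hg2 | hg2
  · rw [hf2, hg2]
  · rw [hf2, hg2]
    rw [hf2] at hfn
    rw [hg2] at hg0
    exact (pbar_zv hF hv hx (Or.inl rfl) hg0 hfn).symm
  · rw [hf2, hg2]
    rw [hf2] at hf0
    rw [hg2] at hgn
    exact pbar_zv hF hv hx (Or.inl rfl) hf0 hgn
  · rw [hf2, hg2]

/-- the edge at a regular vertex is in `GG` -/
theorem pbar_GG {n m : ℕ} {C : Finset Edge} {z : V → ZMod 2} {e : Edge} {u : V}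
    (he : e ∈ box 0 m 0 (2 * n + 1)) (hu : ea e = u ∨ eb e = u) (h1 : pbar_c1 n C z u)
    (h2 : pbar_c1 n C z (ryV (2 * n + 1) u)) : e ∈ GG n m z := by
  classical
  unfold GG
  rw [mem_filter]
  refine ⟨he, ?_⟩
  rintro ⟨f, hf, h⟩
  have hvf : pbar_vf u f := by
    rcases hu with hu | hu
    · rw [← hu]; exact pbar_adj_ea hf
    · rw [← hu]; exact pbar_adj_eb hf
  rcases h with ⟨h3, h4, h5⟩ | ⟨h3, h4, h5⟩
  · exact h1.2 f hvf h3 h4 h5
  · exact h2.2 (pbar_mf n f) (pbar_vf_mirror hvf) h3 h4 h5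

/-- transfer of regularity along an edge -/
theorem pbar_step {n : ℕ} (hn : 1 ≤ n) {C : Finset Edge} {z : V → ZMod 2} (hF : Fr n C z) {u v : V}
    (hu0 : 0 ≤ u.2) (hv : v ∉ Vt C) (hx : 0 ≤ v.1)
    (hadj : (u.2 = v.2 ∧ (u.1 = v.1 + 1 ∨ u.1 = v.1 - 1)) ∨
      (u.1 = v.1 ∧ (u.2 = v.2 + 1 ∨ u.2 = v.2 - 1)))
    (h1 : pbar_c1 n C z u) (h2 : pbar_c1 n C z (ryV (2 * n + 1) u)) : pbar_c1 n C z v := by
  refine ⟨hv, fun f hf hf0 hfn => ?_⟩
  have key : ∀ g : V, pbar_vf v g → pbar_vf u g → 0 ≤ g.2 → g.2 < n → z f ≠ 0 := by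
    intro g hg hg' hg0 hgn
    rw [pbar_const hF hv hx hf hg hf0 hfn hg0 hgn]
    exact h1.2 g hg' hg0 hgn
  obtain ⟨a, b⟩ := u
  obtain ⟨x, y⟩ := v
  have hf' := hf
  obtain ⟨_, hf2⟩ := hf'
  simp only at hu0 hx hadj hf2
  rcases hadj with ⟨hb, ha⟩ | ⟨ha, hb⟩
  · rcases ha with ha | ha
    · exact key (x, f.2) ⟨Or.inl rfl, hf2⟩ ⟨Or.inr (by change x = a - 1; omega),
        by rw [show (a, b).2 = y from hb]; exact hf2⟩ hf0 hfn
    · exact key (x - 1, f.2) ⟨Or.inr rfl, hf2⟩ ⟨Or.inl (by change x - 1 = a; omega),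
        by rw [show (a, b).2 = y from hb]; exact hf2⟩ hf0 hfn
  · rcases hb with hb | hb
    · -- `u` above `v`
      by_cases hyn : y < n
      · have hy0 : 0 ≤ y := by omega
        exact key (x, y) ⟨Or.inl rfl, Or.inl rfl⟩ ⟨Or.inl (by change x = a; omega),
          Or.inr (by change y = b - 1; omega)⟩ hy0 hyn
      · -- `y = n`
        have hyn' : y = n := by omega
        have hm : ryV (2 * n + 1) (a, b) = (x, y) := by
          unfold ryV
          simp only [Equiv.coe_fn_mk, Prod.mk.injEq]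
          omega
        rw [hm] at h2
        exact h2.2 f hf hf0 hfn
    · exact key (x, y - 1) ⟨Or.inl rfl, Or.inr rfl⟩ ⟨Or.inl (by change x = a; omega),
        Or.inl (by change y - 1 = b; omega)⟩ (by change 0 ≤ y - 1; omega)
        (by change y - 1 < (n : ℤ); omega)

theorem GG_symm (n m : ℕ) (z : V → ZMod 2) :
    (GG n m z).map (ryE (2 * n + 1)).toEmbedding = GG n m z := by
  classical
  have hb : (2 * (n : ℤ) + 1) - (2 * n + 1) = 0 := by ring
  have hbox := box_ry (2 * n + 1) 0 m 0 (2 * n + 1)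
  rw [hb, sub_zero] at hbox
  have hinv : ∀ e, ryE (2 * n + 1) (ryE (2 * n + 1) e) = e := (ryE (2 * n + 1)).left_inv
  have hboxm : ∀ e, ryE (2 * n + 1) e ∈ box 0 m 0 (2 * n + 1) ↔ e ∈ box 0 m 0 (2 * n + 1) := by
    intro e
    constructor
    · intro h
      rw [← hbox, mem_map] at h
      obtain ⟨e', h1, h2⟩ := h
      have h3 : e' = e := (ryE (2 * n + 1)).injective h2
      rw [← h3]; exact h1
    · intro h
      rw [← hbox, mem_map]
      exact ⟨e, h, rfl⟩
  ext e
  rw [mem_map]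
  constructor
  · rintro ⟨e', h1, rfl⟩
    unfold GG at h1 ⊢
    rw [mem_filter] at h1 ⊢
    exact ⟨(hboxm e').2 h1.1, fun h => h1.2 ((pbar_tz_ry z n e').1 h)⟩
  · intro h1
    refine ⟨ryE (2 * n + 1) e, ?_, hinv e⟩
    unfold GG at h1 ⊢
    rw [mem_filter] at h1 ⊢
    exact ⟨(hboxm e).2 h1.1, fun h => h1.2 ((pbar_tz_ry z n e).1 h)⟩

theorem bar {n m : ℕ} (hn : 1 ≤ n) (hm : n ≤ m) {C : Finset Edge} {z : V → ZMod 2}
    (hF : Fr n C z) {ω : Finset Edge} (hω : HC 0 m 0 (2 * n + 1) ω) :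
    Yv n m C z ω ∨ Yv n m C z (ω.map (ryE (2 * n + 1)).toEmbedding) := by
  classical
  obtain ⟨y, y', hy0, hy1, hy'0, hy'1, hc⟩ := hω
  by_contra hcon
  push Not at hcon
  obtain ⟨hY1, hY2⟩ := hcon
  have hinvV : ∀ v, ryV (2 * n + 1) (ryV (2 * n + 1) v) = v := (ryV (2 * n + 1)).left_inv
  -- vertices connected to the right side inside `GG` are outside of the path and its mirror image
  have hout : ∀ v, Conn (GG n m z) ω ((m : ℤ), y') v → v ∉ Vt C ∧ ryV (2 * n + 1) v ∉ Vt C := by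
    intro v hv
    constructor
    · intro hvC
      exact hY1 ⟨v, hvC, y', hy'0, hy'1, hv⟩
    · intro hvC
      refine hY2 ⟨ryV (2 * n + 1) v, hvC, 2 * n + 1 - y', by omega, by omega, ?_⟩
      have h1 := (conn_map (cp_ry (2 * n + 1)) (GG n m z) ω ((m : ℤ), y') v).2 hv
      rw [GG_symm] at h1
      exact h1
  have hm0 := hout _ (Conn.refl _ _ _)
  have hstart : ∀ w : ℤ, 0 ≤ w → w ≤ 2 * n + 1 → ((m : ℤ), w) ∉ Vt C → pbar_c1 n C z ((m : ℤ), w) := by
    intro w hw0 hw1 hw
    refine ⟨hw, fun f hf hf0 hfn => ?_⟩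
    have hz1 : z ((m : ℤ), f.2) = 1 := hF.right m f.2 (by exact_mod_cast hm) hf0 hfn
    have h2 : z f = z ((m : ℤ), f.2) :=
      pbar_const hF hw (by change (0 : ℤ) ≤ (m : ℤ); omega) hf ⟨Or.inl rfl, hf.2⟩ hf0 hfn hf0 hfn
    rw [h2, hz1]
    decide
  have hmir : ryV (2 * n + 1) ((m : ℤ), y') = ((m : ℤ), 2 * n + 1 - y') := rfl
  have hstep : ∀ v, (gr (ω ∩ box 0 m 0 (2 * n + 1))).Reachable ((m : ℤ), y') v →
      pbar_c1 n C z v ∧ pbar_c1 n C z (ryV (2 * n + 1) v) ∧ 0 ≤ v.2 ∧ v.2 ≤ 2 * n + 1 ∧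
        Conn (GG n m z) ω ((m : ℤ), y') v := by
    intro v hv
    rw [SimpleGraph.reachable_iff_reflTransGen] at hv
    induction hv with
    | refl =>
      refine ⟨hstart y' hy'0 hy'1 hm0.1, ?_, hy'0, hy'1, Conn.refl _ _ _⟩
      rw [hmir]
      have h3 := hm0.2
      rw [hmir] at h3
      exact hstart _ (by omega) (by omega) h3
    | tail h1 h2 ih =>
      rename_i b c
      obtain ⟨ib1, ib2, ib0, ib3, ib4⟩ := ih
      have hadj2 := h2
      unfold gr at hadj2
      rw [SimpleGraph.fromRel_adj] at hadj2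
      obtain ⟨hbc, hE⟩ := hadj2
      have hE' : ∃ e ∈ ω ∩ box 0 m 0 (2 * n + 1), (ea e = b ∧ eb e = c) ∨ (ea e = c ∧ eb e = b) := by
        rcases hE with ⟨e, he, h3, h4⟩ | ⟨e, he, h3, h4⟩
        · exact ⟨e, he, Or.inl ⟨h3, h4⟩⟩
        · exact ⟨e, he, Or.inr ⟨h3, h4⟩⟩
      obtain ⟨e, he, hends⟩ := hE'
      rw [mem_inter] at he
      have hGG : e ∈ GG n m z := pbar_GG he.2
        (hends.elim (fun h => Or.inl h.1) (fun h => Or.inr h.2)) ib1 ib2
      have hadjG : (gr (ω ∩ GG n m z)).Adj b c := by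
        unfold gr
        rw [SimpleGraph.fromRel_adj]
        refine ⟨hbc, ?_⟩
        rcases hends with h | h
        · exact Or.inl ⟨e, mem_inter.2 ⟨he.1, hGG⟩, h.1, h.2⟩
        · exact Or.inr ⟨e, mem_inter.2 ⟨he.1, hGG⟩, h.1, h.2⟩
      have hconn : Conn (GG n m z) ω ((m : ℤ), y') c := ib4.trans hadjG.reachable
      obtain ⟨hc1, hc2⟩ := hout c hconn
      -- geometry of the edge
      have hgeo : 0 ≤ c.1 ∧ 0 ≤ c.2 ∧ c.2 ≤ 2 * n + 1 ∧
          ((b.2 = c.2 ∧ (b.1 = c.1 + 1 ∨ b.1 = c.1 - 1)) ∨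
            (b.1 = c.1 ∧ (b.2 = c.2 + 1 ∨ b.2 = c.2 - 1))) := by
        have hbx := he.2
        rw [mem_box] at hbx
        obtain ⟨ex, ey, et⟩ := e
        unfold ea eb at hends
        simp only at hbx hends
        cases et
        · simp only [Bool.false_eq_true, if_false, false_and, or_false, true_and] at hbx hends
          rcases hends with ⟨h3, h4⟩ | ⟨h3, h4⟩
          · rw [← h3, ← h4]
            dsimp only
            refine ⟨by omega, by omega, by omega, Or.inl ⟨rfl, by omega⟩⟩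
          · rw [← h3, ← h4]
            dsimp only
            refine ⟨by omega, by omega, by omega, Or.inl ⟨rfl, by omega⟩⟩
        · simp only [if_true, Bool.true_eq_false, false_and, false_or, true_and] at hbx hends
          rcases hends with ⟨h3, h4⟩ | ⟨h3, h4⟩
          · rw [← h3, ← h4]
            dsimp only
            refine ⟨by omega, by omega, by omega, Or.inr ⟨rfl, by omega⟩⟩
          · rw [← h3, ← h4]
            dsimp only
            refine ⟨by omega, by omega, by omega, Or.inr ⟨rfl, by omega⟩⟩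
      obtain ⟨g1, g2, g3, g4⟩ := hgeo
      refine ⟨pbar_step hn hF ib0 hc1 g1 g4 ib1 ib2, ?_, g2, g3, hconn⟩
      have e2 : pbar_c1 n C z (ryV (2 * n + 1) (ryV (2 * n + 1) b)) := by rw [hinvV]; exact ib1
      refine pbar_step hn hF (u := ryV (2 * n + 1) b) ?_ hc2 g1 ?_ ib2 e2
      · unfold ryV
        simp only [Equiv.coe_fn_mk]
        omega
      · unfold ryV
        simp only [Equiv.coe_fn_mk]
        omega
  have hfin := hstep (0, y) (Conn.symm hc)
  obtain ⟨f1, f2, _, _, _⟩ := hfin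
  have hleft : ∀ w : ℤ, 0 ≤ w → w ≤ n → ¬ pbar_c1 n C z (0, w) := by
    intro w hw0 hwn hcl
    by_cases hw : w < n
    · exact hcl.2 (-1, w) ⟨Or.inr (by simp), Or.inl rfl⟩ hw0 hw (hF.left w hw0 hw)
    · exact hcl.2 (-1, w - 1) ⟨Or.inr (by simp), Or.inr rfl⟩ (by change 0 ≤ w - 1; omega)
        (by change w - 1 < (n : ℤ); omega) (hF.left (w - 1) (by omega) (by omega))
  by_cases hyn : y ≤ n
  · exact hleft y hy0 hyn f1
  · have hmy : ryV (2 * n + 1) (0, y) = (0, 2 * n + 1 - y) := rfl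
    rw [hmy] at f2
    exact hleft _ (by omega) (by omega) f2

end FKP
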