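import Pool.Agent.Lib.MP_216314_pr.P.PBase

/-!
# JOB PExpl: exploration of the faces of the square `[0,n] × [0,n]` from the left

The face `(i,j)` is the unit square `[i,i+1] × [j,j+1]`; the faces of the strip are `-1 ≤ i ≤ n`, `0 ≤ j < n`. The faces `(i-1,j)` and `(i,j)` are separated by the
vertical edge `(i,j,true)`, the faces `(i,j-1)` and `(i,j)` by the horizontal edge `(i,j,false)`. `dg n ω`: faces of the strip separated by a closed edge are adjacent.
`DS n ω`: faces connected to the column `-1`. `Good n ω`: the column `n` is not reached. `fr n D`: edges of the square between a face of `D` and a face not in `D`.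
`tch n D`: edges of the square with a face of `D` on one of the two sides.

* `fr_open`: if `DS n ω = D` and an edge between a face of `D` and a face of the strip not in `D` were closed, the other face would be in `DS n ω`.
* `DS_dep`: suppose `ω ∩ tch n D = ω' ∩ tch n D` and `DS n ω = D`. Then `DS n ω' = D`: `⊇`: along a path in `dg n ω` (all its faces are in `D`) every edge crossed is in
  `tch n D`, hence closed in `ω'` too. `⊆`: along a path in `dg n ω'` from the column `-1` (faces of the column `-1` are in `D`) all faces are in `D`: if `f ∈ D` and `g`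
  is the next one, the edge crossed is in `tch n D`, closed in `ω'`, hence in `ω`, so `g ∈ DS n ω = D`. Apply this to `ω` and `ω ∩ tch n D`.
-/

set_option autoImplicit false

noncomputable section

namespace FKP

open Finset FKI

/-- faces of the strip -/
def fcs (n : ℕ) : Finset V := Icc (-1) (n : ℤ) ×ˢ Ico 0 (n : ℤ)

/-- the edge between the faces `f` and `g` (`g` to the right of `f` or above `f`), if it counts -/
def sep (n : ℕ) (f g : V) (e : Edge) : Prop :=
  f ∈ fcs n ∧ g ∈ fcs n ∧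
    ((g = (f.1 + 1, f.2) ∧ e = (g.1, g.2, true)) ∨
      (g = (f.1, f.2 + 1) ∧ 0 ≤ f.1 ∧ f.1 < n ∧ e = (g.1, g.2, false)))

/-- faces separated by a closed edge -/
def dg (n : ℕ) (ω : Finset Edge) : SimpleGraph V :=
  SimpleGraph.fromRel (fun f g => ∃ e, sep n f g e ∧ e ∉ ω)

open Classical in
/-- the explored faces -/
def DS (n : ℕ) (ω : Finset Edge) : Finset V :=
  (fcs n).filter (fun f => ∃ j : ℤ, 0 ≤ j ∧ j < n ∧ (dg n ω).Reachable (-1, j) f)

/-- the exploration does not reach the column `n` -/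
def Good (n : ℕ) (ω : Finset Edge) : Prop := ∀ j : ℤ, ((n : ℤ), j) ∉ DS n ω

open Classical in
/-- the frontier of a set of faces -/
def fr (n : ℕ) (D : Finset V) : Finset Edge :=
  (box 0 n 0 n).filter (fun e => ∃ f g, sep n f g e ∧ ((f ∈ D ∧ g ∉ D) ∨ (f ∉ D ∧ g ∈ D)))

open Classical in
/-- the edges touching a set of faces -/
def tch (n : ℕ) (D : Finset V) : Finset Edge :=
  (box 0 n 0 n).filter (fun e => ∃ f g, sep n f g e ∧ (f ∈ D ∨ g ∈ D))

theorem pexpl_mem_fcs {n : ℕ} {f : V} :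
    f ∈ fcs n ↔ (-1 ≤ f.1 ∧ f.1 ≤ n) ∧ 0 ≤ f.2 ∧ f.2 < n := by
  unfold fcs
  rw [mem_product, mem_Icc, mem_Ico]

theorem sep_mem_box {n : ℕ} {f g : V} {e : Edge} (hs : sep n f g e) : e ∈ box 0 n 0 n := by
  obtain ⟨hf, hg, h⟩ := hs
  rw [pexpl_mem_fcs] at hf hg
  rw [mem_box]
  rcases h with ⟨h1, h2⟩ | ⟨h1, h3, h4, h2⟩
  · right
    subst h2
    rw [h1] at hg ⊢
    simp only at hg ⊢
    exact ⟨trivial, by omega, by omega, by omega, by omega⟩
  · left
    subst h2
    rw [h1] at hg ⊢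
    simp only at hg ⊢
    exact ⟨trivial, by omega, by omega, by omega, by omega⟩

theorem pexpl_ne {n : ℕ} {f g : V} {e : Edge} (hs : sep n f g e) : f ≠ g := by
  rintro rfl
  rcases hs.2.2 with ⟨h1, _⟩ | ⟨h1, _⟩
  · have := congrArg Prod.fst h1
    simp at this
  · have := congrArg Prod.snd h1
    simp at this

theorem pexpl_adj {n : ℕ} {ω : Finset Edge} {f g : V} {e : Edge} (hs : sep n f g e)
    (he : e ∉ ω) : (dg n ω).Adj f g := by
  unfold dg
  rw [SimpleGraph.fromRel_adj]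
  exact ⟨pexpl_ne hs, Or.inl ⟨e, hs, he⟩⟩

open Classical in
theorem pexpl_mem_DS {n : ℕ} {ω : Finset Edge} {f : V} : f ∈ DS n ω ↔
    f ∈ fcs n ∧ ∃ j : ℤ, 0 ≤ j ∧ j < n ∧ (dg n ω).Reachable (-1, j) f := by
  unfold DS
  rw [mem_filter]

open Classical in
theorem pexpl_mem_fr {n : ℕ} {D : Finset V} {e : Edge} : e ∈ fr n D ↔
    e ∈ box 0 n 0 n ∧ ∃ f g, sep n f g e ∧ ((f ∈ D ∧ g ∉ D) ∨ (f ∉ D ∧ g ∈ D)) := by
  unfold fr
  rw [mem_filter]

open Classical in
theorem pexpl_mem_tch {n : ℕ} {D : Finset V} {e : Edge} : e ∈ tch n D ↔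
    e ∈ box 0 n 0 n ∧ ∃ f g, sep n f g e ∧ (f ∈ D ∨ g ∈ D) := by
  unfold tch
  rw [mem_filter]

theorem DS_left {n : ℕ} {ω : Finset Edge} {j : ℤ} (h0 : 0 ≤ j) (h1 : j < n) :
    ((-1 : ℤ), j) ∈ DS n ω := by
  rw [pexpl_mem_DS, pexpl_mem_fcs]
  refine ⟨⟨⟨le_rfl, ?_⟩, h0, h1⟩, j, h0, h1, SimpleGraph.Reachable.refl _⟩
  show (-1 : ℤ) ≤ n
  omega

theorem DS_step {n : ℕ} {ω : Finset Edge} {f g : V} {e : Edge} (hs : sep n f g e) (he : e ∉ ω) :
    f ∈ DS n ω ↔ g ∈ DS n ω := by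
  have h1 := pexpl_adj hs he
  rw [pexpl_mem_DS, pexpl_mem_DS]
  constructor
  · rintro ⟨_, j, h2, h3, h4⟩
    exact ⟨hs.2.1, j, h2, h3, h4.trans h1.reachable⟩
  · rintro ⟨_, j, h2, h3, h4⟩
    exact ⟨hs.1, j, h2, h3, h4.trans h1.symm.reachable⟩

theorem pexpl_ind {n : ℕ} {ω : Finset Edge} {P : V → Prop}
    (h0 : ∀ j : ℤ, 0 ≤ j → j < n → P (-1, j))
    (h1 : ∀ f g e, sep n f g e → e ∉ ω → P f → P g)
    (h2 : ∀ f g e, sep n f g e → e ∉ ω → P g → P f) {f : V} (hf : f ∈ DS n ω) : P f := by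
  rw [pexpl_mem_DS] at hf
  obtain ⟨hff, j, h3, h4, h5⟩ := hf
  clear hff
  rw [SimpleGraph.reachable_iff_reflTransGen] at h5
  induction h5 with
  | refl => exact h0 j h3 h4
  | tail _ hadj ih =>
    have hadj' := hadj
    unfold dg at hadj'
    rw [SimpleGraph.fromRel_adj] at hadj'
    obtain ⟨_, ⟨e, he, he'⟩ | ⟨e, he, he'⟩⟩ := hadj'
    · exact h1 _ _ e he he' (ih)
    · exact h2 _ _ e he he' (ih)

theorem fr_open {n : ℕ} {ω : Finset Edge} {D : Finset V} (hD : DS n ω = D) : fr n D ⊆ ω := by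
  intro e he
  rw [pexpl_mem_fr] at he
  obtain ⟨_, f, g, hs, h⟩ := he
  by_contra hne
  have h1 := DS_step hs hne
  rw [hD] at h1
  rcases h with ⟨h2, h3⟩ | ⟨h2, h3⟩
  · exact h3 (h1.1 h2)
  · exact h2 (h1.2 h3)

theorem pexpl_tch {n : ℕ} {D : Finset V} {f g : V} {e : Edge} (hs : sep n f g e)
    (h : f ∈ D ∨ g ∈ D) : e ∈ tch n D := by
  rw [pexpl_mem_tch]
  exact ⟨sep_mem_box hs, f, g, hs, h⟩

theorem pexpl_agree {n : ℕ} {D : Finset V} {ω ω' : Finset Edge}
    (h : ∀ e ∈ tch n D, e ∈ ω ↔ e ∈ ω') (hD : DS n ω = D) : DS n ω' = D := by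
  apply Finset.Subset.antisymm
  · intro f hf
    refine pexpl_ind (P := fun f => f ∈ D) ?_ ?_ ?_ hf
    · intro j h0 h1
      rw [← hD]
      exact DS_left h0 h1
    · intro f g e hs he hfD
      have h1 : e ∉ ω := fun h2 => he ((h e (pexpl_tch hs (Or.inl hfD))).1 h2)
      have h3 := DS_step hs h1
      rw [hD] at h3
      exact h3.1 hfD
    · intro f g e hs he hgD
      have h1 : e ∉ ω := fun h2 => he ((h e (pexpl_tch hs (Or.inr hgD))).1 h2)
      have h3 := DS_step hs h1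
      rw [hD] at h3
      exact h3.2 hgD
  · intro f hf
    rw [← hD] at hf
    have h1 : f ∈ D ∧ f ∈ DS n ω' := by
      refine pexpl_ind (P := fun f => f ∈ D ∧ f ∈ DS n ω') ?_ ?_ ?_ hf
      · intro j h0 h1
        refine ⟨?_, DS_left h0 h1⟩
        rw [← hD]
        exact DS_left h0 h1
      · rintro f g e hs he ⟨hfD, hf'⟩
        have h1 : e ∉ ω' := fun h2 => he ((h e (pexpl_tch hs (Or.inl hfD))).2 h2)
        have h3 := DS_step hs he
        rw [hD] at h3
        exact ⟨h3.1 hfD, (DS_step hs h1).1 hf'⟩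
      · rintro f g e hs he ⟨hgD, hg'⟩
        have h1 : e ∉ ω' := fun h2 => he ((h e (pexpl_tch hs (Or.inr hgD))).2 h2)
        have h3 := DS_step hs he
        rw [hD] at h3
        exact ⟨h3.2 hgD, (DS_step hs h1).2 hg'⟩
    exact h1.2

theorem DS_dep (n : ℕ) (D : Finset V) : Dep (tch n D) (fun ω => DS n ω = D) := by
  intro ω
  have h1 : ∀ e ∈ tch n D, e ∈ ω ↔ e ∈ ω ∩ tch n D := fun e he =>
    ⟨fun h => mem_inter.2 ⟨h, he⟩, fun h => (mem_inter.1 h).1⟩
  exact ⟨pexpl_agree h1, pexpl_agree fun e he => (h1 e he).symm⟩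

theorem pexpl_DS (n : ℕ) (ω : Finset Edge) : DS n (ω ∩ box 0 n 0 n) = DS n ω := by
  have h1 : dg n (ω ∩ box 0 n 0 n) = dg n ω := by
    unfold dg
    congr 1
    funext f g
    apply propext
    constructor
    · rintro ⟨e, hs, he⟩
      exact ⟨e, hs, fun h => he (mem_inter.2 ⟨h, sep_mem_box hs⟩)⟩
    · rintro ⟨e, hs, he⟩
      exact ⟨e, hs, fun h => he (mem_inter.1 h).1⟩
  unfold DS
  rw [h1]

theorem good_dep (n : ℕ) : Dep (box 0 n 0 n) (Good n) := by
  intro ω
  unfold Good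
  rw [pexpl_DS]

/-- a function which does not change across closed edges and is `0` on the column `-1` is `0` on the explored faces -/
theorem DS_const {n : ℕ} {ω : Finset Edge} (z : V → ZMod 2)
    (h0 : ∀ j : ℤ, 0 ≤ j → j < n → z (-1, j) = 0)
    (hz : ∀ f g e, sep n f g e → e ∉ ω → z f = z g) {f : V} (hf : f ∈ DS n ω) : z f = 0 :=
  pexpl_ind (P := fun f => z f = 0) h0 (fun f g e hs he h => (hz f g e hs he).symm.trans h)
    (fun f g e hs he h => (hz f g e hs he).trans h) hf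

end FKP
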