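import Pool.Agent.Lib.MP_216314_pr.P.PPrim

/-!
# JOB PFrE: degrees of the frontier modulo 2

* `fr_even`: going around the vertex `(x,y)`: the faces `(x-1,y-1), (x,y-1), (x,y), (x-1,y)`; consecutive ones are separated by the edges `(x,y-1,true)`, `(x,y,false)`, `(x,y,true)`, `(x-1,y,false)`;
  the number of changes of the membership in `D` around a cycle is even. For `x = 0` the edge `(-1,y,false)` is not in the square and both faces `(-1,y-1), (-1,y)` are in `D`; for `x = n` the edge `(n,y,false)`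
  is not in the square and the faces `(n,y-1), (n,y)` are not in `D`. (Write membership in `fr n D` of the four edges explicitly, `mem_box`, then decide by cases.)
* `fr_odd`: telescoping of the indicator of `D` along the row `0` from the face `(-1,0) ∈ D` to `(n,0) ∉ D`: `[(i,0,true) ∈ fr n D] = 1_D (i-1,0) + 1_D (i,0)` in `ZMod 2`.
* `comp_even`: at a vertex `v` either all edges of `C0` at `v` are in `C` or none.
-/

set_option autoImplicit false

noncomputable section

namespace FKP

open Finset FKI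

theorem pfre_mem_h {n : ℕ} {D : Finset V} {a b : ℤ} : (a, b, false) ∈ fr n D ↔
    (0 ≤ a ∧ a < n ∧ 1 ≤ b ∧ b < n) ∧ ¬ ((a, b - 1) ∈ D ↔ (a, b) ∈ D) := by
  classical
  unfold fr
  rw [mem_filter, mem_box]
  constructor
  · rintro ⟨_, f, g, ⟨hf, hg, h⟩, h2⟩
    unfold fcs at hf hg
    rw [mem_product, mem_Icc, mem_Ico] at hf hg
    rcases h with ⟨_, h⟩ | ⟨h3, h4, h5, h6⟩
    · simp at h
    · have e1 : g.1 = a := by
        have := congrArg (fun t : Edge => t.1) h6
        exact this.symm
      have e2 : g.2 = b := by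
        have := congrArg (fun t : Edge => t.2.1) h6
        exact this.symm
      have e3 : g = (a, b) := Prod.ext e1 e2
      have e4 : f.1 = a := by rw [h3] at e1; exact e1
      have e5 : f.2 = b - 1 := by
        rw [h3] at e2
        change f.2 + 1 = b at e2
        omega
      have e6 : f = (a, b - 1) := Prod.ext e4 e5
      rw [e3, e6] at h2
      refine ⟨⟨by omega, by omega, by omega, by omega⟩, ?_⟩
      rcases h2 with h2 | h2
      · intro h7; exact h2.2 (h7.1 h2.1)
      · intro h7; exact h2.1 (h7.2 h2.2)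
  · rintro ⟨⟨h1, h2, h3, h4⟩, h5⟩
    refine ⟨Or.inl ⟨rfl, by omega, by omega, by change (0:ℤ) ≤ b; omega,
      by change b ≤ (n:ℤ); omega⟩, (a, b - 1), (a, b), ⟨?_, ?_, Or.inr ⟨?_, h1, h2, rfl⟩⟩, ?_⟩
    · unfold fcs
      rw [mem_product, mem_Icc, mem_Ico]
      refine ⟨⟨by change (-1:ℤ) ≤ a; omega, by change a ≤ (n:ℤ); omega⟩,
        by change (0:ℤ) ≤ b - 1; omega, by change b - 1 < (n:ℤ); omega⟩
    · unfold fcs
      rw [mem_product, mem_Icc, mem_Ico]
      refine ⟨⟨by change (-1:ℤ) ≤ a; omega, by change a ≤ (n:ℤ); omega⟩,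
        by change (0:ℤ) ≤ b; omega, by change b < (n:ℤ); omega⟩
    · simp
    · tauto

theorem pfre_mem_v {n : ℕ} {D : Finset V} {a b : ℤ} : (a, b, true) ∈ fr n D ↔
    (0 ≤ a ∧ a ≤ n ∧ 0 ≤ b ∧ b < n) ∧ ¬ ((a - 1, b) ∈ D ↔ (a, b) ∈ D) := by
  classical
  unfold fr
  rw [mem_filter, mem_box]
  constructor
  · rintro ⟨_, f, g, ⟨hf, hg, h⟩, h2⟩
    unfold fcs at hf hg
    rw [mem_product, mem_Icc, mem_Ico] at hf hg
    rcases h with ⟨h3, h6⟩ | ⟨_, _, _, h⟩
    · have e1 : g.1 = a := by
        have := congrArg (fun t : Edge => t.1) h6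
        exact this.symm
      have e2 : g.2 = b := by
        have := congrArg (fun t : Edge => t.2.1) h6
        exact this.symm
      have e3 : g = (a, b) := Prod.ext e1 e2
      have e4 : f.1 = a - 1 := by
        rw [h3] at e1
        change f.1 + 1 = a at e1
        omega
      have e5 : f.2 = b := by rw [h3] at e2; exact e2
      have e6 : f = (a - 1, b) := Prod.ext e4 e5
      rw [e3, e6] at h2
      refine ⟨⟨by omega, by omega, by omega, by omega⟩, ?_⟩
      rcases h2 with h2 | h2
      · intro h7; exact h2.2 (h7.1 h2.1)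
      · intro h7; exact h2.1 (h7.2 h2.2)
    · simp at h
  · rintro ⟨⟨h1, h2, h3, h4⟩, h5⟩
    refine ⟨Or.inr ⟨rfl, by change (0:ℤ) ≤ a; omega, by change a ≤ (n:ℤ); omega,
      by change (0:ℤ) ≤ b; omega,
      by change b < (n:ℤ); omega⟩, (a - 1, b), (a, b), ⟨?_, ?_, Or.inl ⟨?_, rfl⟩⟩, ?_⟩
    · unfold fcs
      rw [mem_product, mem_Icc, mem_Ico]
      refine ⟨⟨by change (-1:ℤ) ≤ a - 1; omega, by change a - 1 ≤ (n:ℤ); omega⟩,
        by change (0:ℤ) ≤ b; omega, by change b < (n:ℤ); omega⟩
    · unfold fcs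
      rw [mem_product, mem_Icc, mem_Ico]
      refine ⟨⟨by change (-1:ℤ) ≤ a; omega, by change a ≤ (n:ℤ); omega⟩,
        by change (0:ℤ) ≤ b; omega, by change b < (n:ℤ); omega⟩
    · simp
    · tauto

theorem pfre_zmod (P Q : Prop) [Decidable P] [Decidable Q] [Decidable (¬ (P ↔ Q))] :
    (if ¬ (P ↔ Q) then (1 : ZMod 2) else 0) = (if P then 1 else 0) + (if Q then 1 else 0) := by
  by_cases hP : P <;> by_cases hQ : Q <;> simp [hP, hQ]
  decide

theorem fr_even {n : ℕ} {D : Finset V} (hl : ∀ j : ℤ, 0 ≤ j → j < n → ((-1 : ℤ), j) ∈ D)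
    (hr : ∀ j : ℤ, ((n : ℤ), j) ∉ D) {x y : ℤ} (hx : 0 ≤ x) (hx' : x ≤ n) (hy : 1 ≤ y)
    (hy' : y < n) : dg2 (fr n D) (x, y) = 0 := by
  classical
  unfold dg2
  have h1 : (if (x - 1, y, false) ∈ fr n D then (1 : ZMod 2) else 0)
      = (if (x - 1, y - 1) ∈ D then 1 else 0) + (if (x - 1, y) ∈ D then 1 else 0) := by
    by_cases hx0 : x = 0
    · have e1 : (x - 1, y - 1) ∈ D := by
        have := hl (y - 1) (by omega) (by omega)
        rw [hx0]; exact this
      have e2 : (x - 1, y) ∈ D := by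
        have := hl y (by omega) (by omega)
        rw [hx0]; exact this
      have e3 : (x - 1, y, false) ∉ fr n D := by
        rw [pfre_mem_h]; rintro ⟨⟨h, _⟩, _⟩; omega
      rw [if_neg e3, if_pos e1, if_pos e2]; decide
    · rw [← pfre_zmod]
      refine if_congr ?_ rfl rfl
      rw [pfre_mem_h]
      exact ⟨fun h => h.2, fun h => ⟨⟨by omega, by omega, by omega, by omega⟩, h⟩⟩
  have h2 : (if (x, y, false) ∈ fr n D then (1 : ZMod 2) else 0)
      = (if (x, y - 1) ∈ D then 1 else 0) + (if (x, y) ∈ D then 1 else 0) := by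
    by_cases hx0 : x = n
    · have e1 : (x, y - 1) ∉ D := by rw [hx0]; exact hr _
      have e2 : (x, y) ∉ D := by rw [hx0]; exact hr _
      have e3 : (x, y, false) ∉ fr n D := by
        rw [pfre_mem_h]; rintro ⟨⟨_, h, _⟩, _⟩; omega
      rw [if_neg e3, if_neg e1, if_neg e2]; decide
    · rw [← pfre_zmod]
      refine if_congr ?_ rfl rfl
      rw [pfre_mem_h]
      exact ⟨fun h => h.2, fun h => ⟨⟨by omega, by omega, by omega, by omega⟩, h⟩⟩
  have h3 : (if (x, y - 1, true) ∈ fr n D then (1 : ZMod 2) else 0)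
      = (if (x - 1, y - 1) ∈ D then 1 else 0) + (if (x, y - 1) ∈ D then 1 else 0) := by
    rw [← pfre_zmod]
    refine if_congr ?_ rfl rfl
    rw [pfre_mem_v]
    exact ⟨fun h => h.2, fun h => ⟨⟨by omega, by omega, by omega, by omega⟩, h⟩⟩
  have h4 : (if (x, y, true) ∈ fr n D then (1 : ZMod 2) else 0)
      = (if (x - 1, y) ∈ D then 1 else 0) + (if (x, y) ∈ D then 1 else 0) := by
    rw [← pfre_zmod]
    refine if_congr ?_ rfl rfl
    rw [pfre_mem_v]
    exact ⟨fun h => h.2, fun h => ⟨⟨by omega, by omega, by omega, by omega⟩, h⟩⟩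
  rw [h1, h2, h3, h4]
  have key : ∀ a b c d : ZMod 2, (a + b) + (c + d) + (a + c) + (b + d) = 0 := by decide
  exact key _ _ _ _

theorem fr_odd {n : ℕ} (hn : 1 ≤ n) {D : Finset V}
    (hl : ∀ j : ℤ, 0 ≤ j → j < n → ((-1 : ℤ), j) ∈ D) (hr : ∀ j : ℤ, ((n : ℤ), j) ∉ D) :
    ∑ i ∈ Icc 0 (n : ℤ), (if (i, 0, true) ∈ fr n D then (1 : ZMod 2) else 0) = 1 := by
  classical
  have key : ∀ k : ℕ, k ≤ n → ∑ i ∈ Icc 0 (k : ℤ), (if (i, 0, true) ∈ fr n D then (1 : ZMod 2) else 0)
      = (if ((-1 : ℤ), (0 : ℤ)) ∈ D then 1 else 0) + (if ((k : ℤ), (0 : ℤ)) ∈ D then 1 else 0) := by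
    have hterm : ∀ i : ℤ, 0 ≤ i → i ≤ n → (if (i, 0, true) ∈ fr n D then (1 : ZMod 2) else 0)
        = (if (i - 1, (0 : ℤ)) ∈ D then 1 else 0) + (if (i, (0 : ℤ)) ∈ D then 1 else 0) := by
      intro i hi hi'
      rw [← pfre_zmod]
      refine if_congr ?_ rfl rfl
      rw [pfre_mem_v]
      exact ⟨fun h => h.2, fun h => ⟨⟨by omega, by omega, by omega, by omega⟩, h⟩⟩
    intro k
    induction k with
    | zero =>
      intro _
      have e : Icc (0 : ℤ) ((0 : ℕ) : ℤ) = {0} := by simp
      rw [e, sum_singleton, hterm 0 le_rfl (by omega)]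
      simp
    | succ k ih =>
      intro hk
      have e : Icc (0 : ℤ) ((k + 1 : ℕ) : ℤ) = insert ((k : ℤ) + 1) (Icc 0 (k : ℤ)) := by
        ext t
        rw [mem_insert, mem_Icc, mem_Icc]
        push_cast
        omega
      have hne : ((k : ℤ) + 1) ∉ Icc (0 : ℤ) (k : ℤ) := by
        rw [mem_Icc]; omega
      rw [e, sum_insert hne, ih (by omega), hterm ((k : ℤ) + 1) (by omega) (by omega)]
      have e2 : (k : ℤ) + 1 - 1 = k := by ring
      rw [e2]
      push_cast
      have key2 : ∀ a b c : ZMod 2, (b + c) + (a + b) = a + c := by decide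
      exact key2 _ _ _
  rw [key n le_rfl, if_pos (hl 0 le_rfl (by omega)), if_neg (hr 0), add_zero]

open Classical in
/-- the edges of `C0` in the component of `v0` -/
def comp (C0 : Finset Edge) (v0 : V) : Finset Edge :=
  C0.filter (fun e => (gr C0).Reachable v0 (ea e))

theorem comp_even {C0 : Finset Edge} {v0 v : V} (hv : dg2 C0 v = 0) : dg2 (comp C0 v0) v = 0 := by
  classical
  have hadj : ∀ e ∈ C0, (gr C0).Reachable (ea e) (eb e) := by
    intro e he
    refine SimpleGraph.Adj.reachable ?_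
    unfold gr
    rw [SimpleGraph.fromRel_adj]
    refine ⟨?_, Or.inl ⟨e, he, rfl, rfl⟩⟩
    obtain ⟨x, y, t⟩ := e
    unfold ea eb
    cases t <;> simp
  have hmem : ∀ e : Edge, (ea e = v ∨ eb e = v) →
      (e ∈ comp C0 v0 ↔ e ∈ C0 ∧ (gr C0).Reachable v0 v) := by
    intro e he
    unfold comp
    rw [mem_filter]
    constructor
    · rintro ⟨h1, h2⟩
      refine ⟨h1, ?_⟩
      rcases he with he | he
      · rw [← he]; exact h2
      · rw [← he]; exact h2.trans (hadj e h1)
    · rintro ⟨h1, h2⟩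
      refine ⟨h1, ?_⟩
      rcases he with he | he
      · rw [he]; exact h2
      · rw [← he] at h2; exact h2.trans (hadj e h1).symm
  have m1 := hmem (v.1 - 1, v.2, false) (Or.inr (by unfold eb; simp))
  have m2 := hmem (v.1, v.2, false) (Or.inl (by unfold ea; simp))
  have m3 := hmem (v.1, v.2 - 1, true) (Or.inr (by unfold eb; simp))
  have m4 := hmem (v.1, v.2, true) (Or.inl (by unfold ea; simp))
  by_cases hr : (gr C0).Reachable v0 v
  · unfold dg2 at hv ⊢
    simp only [hr, and_true] at m1 m2 m3 m4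
    simp only [m1, m2, m3, m4]
    exact hv
  · unfold dg2
    simp only [hr, and_false, iff_false] at m1 m2 m3 m4
    simp only [m1, m2, m3, m4, if_false]
    decide

/-- a set of edges with an odd number of bottom edges has a component with an odd number of bottom edges -/
theorem comp_odd {n : ℕ} {C0 : Finset Edge}
    (h : ∑ i ∈ Icc 0 (n : ℤ), (if (i, 0, true) ∈ C0 then (1 : ZMod 2) else 0) = 1) :
    ∃ x : ℤ, 0 ≤ x ∧ x ≤ n ∧ (x, 0, true) ∈ C0 ∧
      ∑ i ∈ Icc 0 (n : ℤ), (if (i, 0, true) ∈ comp C0 (x, 0) then (1 : ZMod 2) else 0) = 1 := by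
  classical
  set B : Finset ℤ := (Icc 0 (n : ℤ)).filter (fun i => (i, 0, true) ∈ C0) with hB
  have hcard : ((B.card : ℕ) : ZMod 2) = 1 := by
    rw [← h, hB, card_filter]
    push_cast
    rfl
  by_contra hcon
  push Not at hcon
  have hfib : ∀ c ∈ B.image (fun i => (gr C0).connectedComponentMk (i, 0)),
      (((B.filter (fun i => (gr C0).connectedComponentMk (i, 0) = c)).card : ℕ) : ZMod 2) = 0 := by
    intro c hc
    rw [mem_image] at hc
    obtain ⟨x, hx, rfl⟩ := hc
    rw [hB, mem_filter, mem_Icc] at hx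
    have h1 := hcon x hx.1.1 hx.1.2 hx.2
    have h2 : ∑ i ∈ Icc 0 (n : ℤ), (if (i, 0, true) ∈ comp C0 (x, 0) then (1 : ZMod 2) else 0)
        = (((B.filter (fun i => (gr C0).connectedComponentMk (i, 0)
          = (gr C0).connectedComponentMk (x, 0))).card : ℕ) : ZMod 2) := by
      rw [hB, filter_filter, card_filter]
      push_cast
      refine sum_congr rfl fun i _ => ?_
      refine if_congr ?_ rfl rfl
      unfold comp
      rw [mem_filter, SimpleGraph.ConnectedComponent.eq]
      unfold ea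
      constructor
      · rintro ⟨h3, h4⟩
        exact ⟨h3, h4.symm⟩
      · rintro ⟨h3, h4⟩
        exact ⟨h3, h4.symm⟩
    rw [← h2]
    have key : ∀ a : ZMod 2, a ≠ 1 → a = 0 := by decide
    exact key _ h1
  have htot := card_eq_sum_card_image (fun i => (gr C0).connectedComponentMk (i, (0 : ℤ))) B
  rw [htot] at hcard
  push_cast at hcard
  rw [sum_eq_zero (fun c hc => hfib c hc)] at hcard
  exact absurd hcard (by decide)

/-- all vertices of a component are connected inside the component -/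
theorem comp_conn {C0 : Finset Edge} {v0 v : V} (hv : v ∈ Vt (comp C0 v0)) :
    (gr (comp C0 v0)).Reachable v0 v := by
  classical
  have hadj : ∀ (C : Finset Edge) (e : Edge), e ∈ C → (gr C).Adj (ea e) (eb e) := by
    intro C e he
    unfold gr
    rw [SimpleGraph.fromRel_adj]
    refine ⟨?_, Or.inl ⟨e, he, rfl, rfl⟩⟩
    obtain ⟨x, y, t⟩ := e
    unfold ea eb
    cases t <;> simp
  have key : ∀ u : V, (gr C0).Reachable v0 u → (gr (comp C0 v0)).Reachable v0 u := by
    intro u hu
    rw [SimpleGraph.reachable_iff_reflTransGen] at hu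
    induction hu with
    | refl => exact SimpleGraph.Reachable.refl _
    | tail h1 h2 ih =>
      refine ih.trans ?_
      rename_i b c
      have hb : (gr C0).Reachable v0 b := by
        rw [SimpleGraph.reachable_iff_reflTransGen]; exact h1
      have hc : (gr C0).Reachable v0 c := hb.trans h2.reachable
      have h3 := h2
      unfold gr at h3
      rw [SimpleGraph.fromRel_adj] at h3
      rcases h3.2 with ⟨e, he, h4, h5⟩ | ⟨e, he, h4, h5⟩
      · have h6 : e ∈ comp C0 v0 := by
          unfold comp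
          rw [mem_filter]
          exact ⟨he, by rw [h4]; exact hb⟩
        have := hadj _ e h6
        rw [h4, h5] at this
        exact this.reachable
      · have h6 : e ∈ comp C0 v0 := by
          unfold comp
          rw [mem_filter]
          exact ⟨he, by rw [h4]; exact hc⟩
        have := hadj _ e h6
        rw [h4, h5] at this
        exact this.symm.reachable
  unfold Vt at hv
  rw [mem_union, mem_image, mem_image] at hv
  rcases hv with ⟨e, he, rfl⟩ | ⟨e, he, rfl⟩
  · have h1 := he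
    unfold comp at h1
    rw [mem_filter] at h1
    exact key _ h1.2
  · have h1 := he
    unfold comp at h1
    rw [mem_filter] at h1
    exact (key _ h1.2).trans (hadj _ e he).reachable

end FKP
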