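import Pool.Agent.Lib.MP_216314_pr.P.PFrE

/-!
# JOB PFront: the frontier contains a connected crossing, and its primitive

Vertices `Vt C` of a set `C` of edges. `Fr n C z`: `C` is a connected set of edges of the square joining the rows `0` and `n`, and `z` is a function on the faces of the
strip which changes exactly across the edges of `C`, `0` on the left, `1` on the right.

(Use `fr_even`, `fr_odd`, `comp_even`, `comp_odd`, `comp_conn` of the file PFrE.)
* `front`: `D` = explored set of a good configuration `ω`. `fr n D` has even degree at the vertices of the rows `1..n-1` (going around the vertex, the number of changes of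
  membership in `D` is even; at `(0,j)` the faces to the left are in column `-1`, at `(n,j)` the faces to the right are in column `n`), and the number of `i` with `(i,0,true) ∈ fr n D` is
  odd (`(-1,0) ∈ D`, `(n,0) ∉ D`). Consider the graph `gr (fr n D)`. For a vertex `v` let `C v` = edges of `fr n D` whose end points are connected to `v` in it; it has even degree at the
  vertices of rows `1..n-1` (all or none of the edges at a vertex). The bottom edges `(i,0,true) ∈ fr n D` are distributed over the components; their number is odd, so some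
  component contains an odd number of them: choose `x` with `(x,0,true) ∈ fr n D` such that `C = C (x,0)` contains an odd number of them. `prim` gives `z` with
  `z (n,0) = 1` (odd number), hence `z (n, n-1) = 1`, so the number of `(i,n-1,true) ∈ C` is odd, in particular there is one: `x'`, and `(x',n)` is connected to `(x,0)`.
  `z = 0` on `D`: `DS_const`, because an edge between two faces of `D` is not in `fr n D`, and a closed edge is not in `fr n D` (`fr_open`).
  (Everything depends only on `D`, as the statement says.)
-/

set_option autoImplicit false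

noncomputable section

namespace FKP

open Finset FKI

theorem front {n : ℕ} (hn : 1 ≤ n) {D : Finset V} (hD : ∃ ω, DS n ω = D ∧ Good n ω) :
    ∃ (C : Finset Edge) (z : V → ZMod 2), Fr n C z ∧ C ⊆ fr n D ∧ ∀ f ∈ D, z f = 0 := by
  classical
  obtain ⟨ω, hω, hgood⟩ := hD
  have hl : ∀ j : ℤ, 0 ≤ j → j < n → ((-1 : ℤ), j) ∈ D := fun j h0 h1 => by
    rw [← hω]; exact DS_left h0 h1
  have hr : ∀ j : ℤ, ((n : ℤ), j) ∉ D := fun j => by
    rw [← hω]; exact hgood j
  obtain ⟨x, hx0, hxn, hxC, hodd⟩ := comp_odd (fr_odd hn hl hr)
  set C := comp (fr n D) (x, 0) with hC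
  have hsubC : C ⊆ fr n D := by
    rw [hC]; unfold comp; exact filter_subset _ _
  have hsep : ∀ e ∈ C, ∃ f g, sep n f g e := by
    intro e he
    have h1 := hsubC he
    unfold fr at h1
    rw [mem_filter] at h1
    obtain ⟨_, f, g, h2, _⟩ := h1
    exact ⟨f, g, h2⟩
  obtain ⟨z, z1, z2, z3, z4⟩ := prim (n := n) C hsep (fun a b h1 h2 h3 h4 =>
    comp_even (fr_even hl hr h1 h2 h3 h4))
  have hone : ∀ i j : ℤ, (n : ℤ) ≤ i → 0 ≤ j → j < n → z (i, j) = 1 := fun i j h1 h2 h3 => by
    rw [z3 i j h1 h2 h3]; exact hodd
  have htop : ∑ i' ∈ Icc 0 (n : ℤ), (if (i', (n : ℤ) - 1, true) ∈ C then (1 : ZMod 2) else 0) = 1 := by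
    rw [← z4 n ((n : ℤ) - 1) le_rfl (by omega) (by omega)]
    exact hone n ((n : ℤ) - 1) le_rfl (by omega) (by omega)
  have hex : ∃ x' ∈ Icc 0 (n : ℤ), (x', (n : ℤ) - 1, true) ∈ C := by
    by_contra hcon
    push Not at hcon
    rw [sum_eq_zero (fun i hi => if_neg (hcon i hi))] at htop
    exact absurd htop (by decide)
  obtain ⟨x', hx', hx'C⟩ := hex
  rw [mem_Icc] at hx'
  have hvt : (x', (n : ℤ)) ∈ Vt C := by
    unfold Vt
    rw [mem_union, mem_image, mem_image]
    refine Or.inr ⟨_, hx'C, ?_⟩
    unfold eb
    simp
  have hfro := fr_open hω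
  refine ⟨C, z, ⟨hsep, fun j _ _ => z1 j, hone, z2, x, x', hx0, hxn, hx'.1, hx'.2,
    comp_conn hvt, fun v hv => comp_conn hv⟩, hsubC, fun f hf => ?_⟩
  refine DS_const (n := n) (ω := ω) z (fun j _ _ => z1 j) (fun f g e hs he => ?_)
    (by rw [hω]; exact hf)
  by_contra hne
  exact he (hfro (hsubC ((z2 f g e hs).2 hne)))

end FKP
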