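import Pool.Agent.Lib.MP_216314_pr.P.PArmA
import Pool.Agent.Lib.MP_216314_pr.P.PHB
import Pool.Agent.Lib.MP_216314_pr.P.PSumQ

/-!
# The lower bound

* `lower`: `n = 2k+1`. For `0 ≤ x ≤ n`: `(0,0) ↔ (x,n)` in `[0,n]²` implies `QA k` (first hit of distance `k` from the corner) and the boundary arm of `(x,n)` of length `k` restricted to
  `box 0 n 0 n ∩ box (x-k) (x+k) (n-k) n`; these two events depend on disjoint sets of edges.
  So `1 = ∑_x Pr (..) ≤ (n+1) piQ k piH k` (`sum_one`).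
-/

set_option autoImplicit false

noncomputable section

namespace FKP

open Finset FKI

/-- the boundary arm of the vertex `(x,N)` of the upper side, downwards, using the edges of `G` -/
def plow_arm (G : Finset Edge) (N x : ℤ) (r : ℕ) (ω : Finset Edge) : Prop :=
  ∃ c : V, max (max (c.1 - x) (x - c.1)) (N - c.2) = r ∧ Conn G ω (x, N) c

theorem plow_inc (G : Finset Edge) (N x : ℤ) (r : ℕ) : Inc (plow_arm G N x r) := by
  rintro ω ω' hs ⟨c, h1, h2⟩
  exact ⟨c, h1, h2.mono (Finset.Subset.refl _) hs⟩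

theorem plow_dep (G : Finset Edge) (N x : ℤ) (r : ℕ) : Dep G (plow_arm G N x r) := by
  intro ω
  unfold plow_arm
  constructor
  · rintro ⟨c, h1, h2⟩
    exact ⟨c, h1, (dep_Conn (Finset.Subset.refl _) _ _ ω).1 h2⟩
  · rintro ⟨c, h1, h2⟩
    exact ⟨c, h1, (dep_Conn (Finset.Subset.refl _) _ _ ω).2 h2⟩

theorem plow_box (x N : ℤ) (r : ℕ) : box (x - r) (x + r) (N - r) N =
    ((box (-(r : ℤ)) r 0 r).map (ryE N).toEmbedding).map (shE x 0).toEmbedding := by
  rw [box_ry, box_sh]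
  congr 1 <;> ring

/-- the probability of the full arm is at most `piH r` -/
theorem plow_full (N x : ℤ) (r : ℕ) : Pr (box (x - r) (x + r) (N - r) N)
    (plow_arm (box (x - r) (x + r) (N - r) N) N x r) ≤ piH r := by
  rw [plow_box, Pr_map, Pr_map]
  unfold piH
  refine Pr_mono fun ω _ hh => ?_
  obtain ⟨c, hc1, hc2⟩ := hh
  have e1 : ((x, N) : V) = shV x 0 (ryV N (0, 0)) := by
    simp [shV, ryV]
  have e2 : c = shV x 0 (ryV N (c.1 - x, N - c.2)) := by
    ext <;> simp [shV, ryV]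
  rw [e1, e2, conn_map (cp_sh x 0), conn_map (cp_ry N)] at hc2
  have hm := conn_mem_box hc2 (by simp)
  simp only at hm
  obtain ⟨m1, m2, m3, m4⟩ := hm
  unfold HA
  have h3 : c.1 - x = r ∨ c.1 - x = -(r : ℤ) ∨ N - c.2 = r := by omega
  rcases h3 with h | h | h
  · left
    refine ⟨N - c.2, m3, m4, ?_⟩
    rw [h] at hc2
    exact hc2
  · right
    left
    refine ⟨N - c.2, m3, m4, ?_⟩
    rw [h] at hc2
    exact hc2
  · right
    right
    refine ⟨c.1 - x, m1, m2, ?_⟩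
    rw [h] at hc2
    exact hc2

theorem plow_part {E : Finset Edge} (N x : ℤ) (r : ℕ) :
    Pr E (plow_arm (E ∩ box (x - r) (x + r) (N - r) N) N x r) ≤ piH r := by
  rw [Pr_dep (Finset.inter_subset_left) (plow_dep _ N x r)]
  refine (Pr_super Finset.inter_subset_right (plow_inc _ N x r)).trans ?_
  refine le_trans (Pr_mono fun ω _ hh => ?_) (plow_full N x r)
  obtain ⟨c, h1, h2⟩ := hh
  exact ⟨c, h1, h2.mono Finset.inter_subset_right (Finset.Subset.refl _)⟩

/-- the corner arm -/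
theorem plow_QA {k N : ℕ} (hk : k ≤ N) {x : ℤ} {ω : Finset Edge}
    (hc : Conn (box 0 N 0 N) ω (0, 0) (x, (N : ℤ))) : QA k ω := by
  obtain ⟨c, h1, -, h2⟩ := first_hit (F := box 0 N 0 N) (ω := ω) (fun v : V => max v.1 v.2)
    (a := (0, 0)) (b := (x, (N : ℤ))) (t := k) (by
      rintro ⟨u, v, t⟩ _
      cases t <;> simp only [ea, eb, if_true, Bool.false_eq_true, if_false] <;> omega)
    (by simp) (by simp only [le_max_iff]; right; omega) hc
  have h3 : Conn (box 0 k 0 k) ω (0, 0) c := by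
    refine h2.mono ?_ (Finset.Subset.refl _)
    rintro ⟨u, v, t⟩ he
    rw [mem_filter, mem_box] at he
    rw [mem_box]
    obtain ⟨he1, he2, he3⟩ := he
    cases t
    · simp only [ea, eb, Bool.false_eq_true, if_false, false_and, or_false, true_and] at he1 he2 he3 ⊢
      omega
    · simp only [ea, eb, if_true, Bool.true_eq_false, false_and, false_or, true_and] at he1 he2 he3 ⊢
      omega
  obtain ⟨m1, m2, m3, m4⟩ := conn_mem_box h3 (by simp)
  obtain ⟨cx, cy⟩ := c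
  simp only at h1 m1 m2 m3 m4
  rcases max_choice cx cy with h | h
  · left
    rw [h] at h1
    exact ⟨cy, m3, m4, h1 ▸ h3⟩
  · right
    rw [h] at h1
    exact ⟨cx, m1, m2, h1 ▸ h3⟩

/-- the arm at the upper side -/
theorem plow_HB {k N : ℕ} (hk : k ≤ N) {x : ℤ} {ω : Finset Edge}
    (hc : Conn (box 0 N 0 N) ω (0, 0) (x, (N : ℤ))) :
    plow_arm (box 0 N 0 N ∩ box (x - k) (x + k) (N - k) N) N x k ω := by
  obtain ⟨c, h1, -, h2⟩ := first_hit (F := box 0 N 0 N) (ω := ω)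
    (fun v : V => max (max (v.1 - x) (x - v.1)) ((N : ℤ) - v.2))
    (a := (x, (N : ℤ))) (b := (0, 0)) (t := k) (by
      rintro ⟨u, v, t⟩ _
      cases t <;> simp only [ea, eb, if_true, Bool.false_eq_true, if_false] <;> omega)
    (by simp) (by simp only [le_max_iff]; right; omega) hc.symm
  refine ⟨c, h1, h2.mono ?_ (Finset.Subset.refl _)⟩
  rintro ⟨u, v, t⟩ he
  rw [mem_filter] at he
  obtain ⟨he1, he2, he3⟩ := he
  rw [mem_inter]
  refine ⟨he1, ?_⟩
  rw [mem_box] at he1 ⊢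
  cases t
  · simp only [ea, eb, Bool.false_eq_true, if_false, false_and, or_false, true_and] at he1 he2 he3 ⊢
    omega
  · simp only [ea, eb, if_true, Bool.true_eq_false, false_and, false_or, true_and] at he1 he2 he3 ⊢
    omega

theorem plow_one {k N : ℕ} (hk : N = 2 * k + 1) (x : ℤ) :
    Pr (box 0 N 0 N) (fun ω => (gr ω).Reachable (0, 0) (x, (N : ℤ))) ≤ piQ k * piH k := by
  have hkN : k ≤ N := by omega
  have hsub : box 0 (k : ℤ) 0 k ⊆ box 0 (N : ℤ) 0 N :=
    box_mono le_rfl (by omega) le_rfl (by omega)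
  have hdis : Disjoint (box 0 (k : ℤ) 0 k)
      (box 0 (N : ℤ) 0 N ∩ box (x - k) (x + k) (N - k) N) := by
    rw [Finset.disjoint_left]
    rintro ⟨u, v, t⟩ h1 h2
    rw [mem_inter] at h2
    have h3 := h2.2
    rw [mem_box] at h1 h3
    simp only at h1 h3
    rcases h1 with ⟨a1, a2, a3, a4, a5⟩ | ⟨a1, a2, a3, a4, a5⟩ <;>
      rcases h3 with ⟨b1, b2, b3, b4, b5⟩ | ⟨b1, b2, b3, b4, b5⟩ <;> omega
  calc Pr (box 0 N 0 N) (fun ω => (gr ω).Reachable (0, 0) (x, (N : ℤ)))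
      ≤ Pr (box 0 N 0 N) (fun ω => QA k ω ∧
        plow_arm (box 0 N 0 N ∩ box (x - k) (x + k) (N - k) N) N x k ω) := by
        refine Pr_mono fun ω hω hr => ?_
        have hc : Conn (box 0 N 0 N) ω (0, 0) (x, (N : ℤ)) := Conn.of_reach hω hr
        exact ⟨plow_QA hkN hc, plow_HB hkN hc⟩
    _ = Pr (box 0 N 0 N) (QA k) *
        Pr (box 0 N 0 N) (plow_arm (box 0 N 0 N ∩ box (x - k) (x + k) (N - k) N) N x k) :=
        Pr_indep hsub Finset.inter_subset_left hdis (dep_QA (Finset.Subset.refl _))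
          (plow_dep _ _ _ _)
    _ ≤ piQ k * piH k := by
        rw [Pr_dep hsub (dep_QA (Finset.Subset.refl _))]
        exact mul_le_mul_of_nonneg_left (plow_part (N : ℤ) x k) (Pr_nonneg _ _)

theorem lower (k : ℕ) : 1 / (2 * ((k : ℝ) + 1)) ≤ piQ k * piH k := by
  have h1 := sum_one (2 * k + 1)
  have h2 : ∑ x ∈ Icc (0 : ℤ) ((2 * k + 1 : ℕ) : ℤ),
      Pr (box 0 ((2 * k + 1 : ℕ) : ℤ) 0 ((2 * k + 1 : ℕ) : ℤ))
        (fun ω => (gr ω).Reachable (0, 0) (x, ((2 * k + 1 : ℕ) : ℤ))) ≤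
      ∑ _x ∈ Icc (0 : ℤ) ((2 * k + 1 : ℕ) : ℤ), piQ k * piH k :=
    Finset.sum_le_sum fun x _ => plow_one rfl x
  rw [h1, Finset.sum_const, Int.card_Icc, nsmul_eq_mul] at h2
  have h3 : ((((2 * k + 1 : ℕ) : ℤ) + 1 - 0).toNat : ℝ) = 2 * ((k : ℝ) + 1) := by
    have : (((2 * k + 1 : ℕ) : ℤ) + 1 - 0).toNat = 2 * k + 2 := by omega
    rw [this]
    push_cast
    ring
  rw [h3] at h2
  rw [div_le_iff₀ (by positivity)]
  linarith

end FKP
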