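import Pool.Agent.Lib.MP_216314_pr.P.PExpl

/-!
# JOB PPrim: the primitive of a set of edges

Vertices `Vt C` of a set `C` of edges. `Fr n C z`: `C` is a connected set of edges of the square joining the rows `0` and `n`, and `z` is a function on the faces of the
strip which changes exactly across the edges of `C`, `0` on the left, `1` on the right.

* `prim`: GENERAL primitive lemma. Let `C` be a set of separating edges with even degree at every vertex of the rows `1, …, n-1`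
  (`∑` of the indicators of the four edges at the vertex is `0` in `ZMod 2`). Put `z (i,j) = ∑ i' ∈ Icc 0 i, [(i',j,true) ∈ C]` (in `ZMod 2`). Then `z` changes exactly across `C`:
  across a vertical edge by definition; across the horizontal edge `(i,j,false)` (`1 ≤ j < n`) by induction on `i` from the even degree at `(i,j)`.
  `z (n, j)` does not depend on `j` (`(n,j,false) ∉ C`).
-/

set_option autoImplicit false

noncomputable section

namespace FKP

open Finset FKI

/-- the vertices of a set of edges -/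
def Vt (C : Finset Edge) : Finset V := C.image ea ∪ C.image eb

/-- connected crossing with primitive -/
structure Fr (n : ℕ) (C : Finset Edge) (z : V → ZMod 2) : Prop where
  sub : ∀ e ∈ C, ∃ f g, sep n f g e
  left : ∀ j : ℤ, 0 ≤ j → j < n → z (-1, j) = 0
  right : ∀ i j : ℤ, (n : ℤ) ≤ i → 0 ≤ j → j < n → z (i, j) = 1
  chg : ∀ f g e, sep n f g e → (e ∈ C ↔ z f ≠ z g)
  conn : ∃ x x' : ℤ, 0 ≤ x ∧ x ≤ n ∧ 0 ≤ x' ∧ x' ≤ n ∧ (gr C).Reachable (x, 0) (x', (n : ℤ)) ∧
    ∀ v ∈ Vt C, (gr C).Reachable (x, 0) v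

/-- degree modulo 2 of a vertex -/
def dg2 (C : Finset Edge) (v : V) : ZMod 2 :=
  (if (v.1 - 1, v.2, false) ∈ C then 1 else 0) + (if (v.1, v.2, false) ∈ C then 1 else 0) +
    (if (v.1, v.2 - 1, true) ∈ C then 1 else 0) + (if (v.1, v.2, true) ∈ C then 1 else 0)

theorem pprim_fcs {n : ℕ} {v : V} (hv : v ∈ fcs n) : -1 ≤ v.1 ∧ v.1 ≤ n ∧ 0 ≤ v.2 ∧ v.2 < n := by
  rw [fcs, mem_product, mem_Icc, mem_Ico] at hv
  exact ⟨hv.1.1, hv.1.2, hv.2.1, hv.2.2⟩

theorem pprim_icc {i : ℤ} (hi : 0 ≤ i) (t : ℤ → ZMod 2) :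
    ∑ i' ∈ Icc 0 i, t i' = (∑ i' ∈ Icc 0 (i - 1), t i') + t i := by
  have h1 : Icc (0 : ℤ) i = insert i (Icc 0 (i - 1)) := by
    ext k
    rw [mem_insert, mem_Icc, mem_Icc]
    omega
  have h2 : i ∉ Icc (0 : ℤ) (i - 1) := by
    rw [mem_Icc]
    omega
  rw [h1, sum_insert h2, add_comm]

theorem pprim_ne {x y : ZMod 2} {P : Prop} [Decidable P] (h : y = x + (if P then 1 else 0)) : P ↔ x ≠ y := by
  have h1 : ∀ x : ZMod 2, x ≠ x + 1 := by decide
  by_cases hP : P
  · rw [if_pos hP] at h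
    subst h
    exact ⟨fun _ => h1 x, fun _ => hP⟩
  · rw [if_neg hP, add_zero] at h
    subst h
    exact ⟨fun h2 => absurd h2 hP, fun h2 => absurd rfl h2⟩

theorem prim {n : ℕ} (C : Finset Edge) (hsub : ∀ e ∈ C, ∃ f g, sep n f g e)
    (hev : ∀ x y : ℤ, 0 ≤ x → x ≤ n → 1 ≤ y → y < n → dg2 C (x, y) = 0) :
    ∃ z : V → ZMod 2, (∀ j : ℤ, z (-1, j) = 0) ∧ (∀ f g e, sep n f g e → (e ∈ C ↔ z f ≠ z g)) ∧
      (∀ i j : ℤ, (n : ℤ) ≤ i → 0 ≤ j → j < n →
        z (i, j) = ∑ i' ∈ Icc 0 (n : ℤ), (if (i', 0, true) ∈ C then 1 else 0)) ∧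
      (∀ i j : ℤ, (n : ℤ) ≤ i → 0 ≤ j → j < n →
        z (i, j) = ∑ i' ∈ Icc 0 (n : ℤ), (if (i', j, true) ∈ C then 1 else 0)) := by
  have htwo : (2 : ZMod 2) = 0 := by decide
  have hnotT : ∀ i' j : ℤ, (n : ℤ) < i' → ((i', j, true) : Edge) ∉ C := by
    intro i' j hi hmem
    obtain ⟨f, g, hf, hg, h⟩ := hsub _ hmem
    have hg' := pprim_fcs hg
    rcases h with ⟨h1, h2⟩ | ⟨h1, h2, h3, h4⟩
    · rw [Prod.mk.injEq] at h2
      omega
    · simp at h4
  have hnotF : ∀ i' j : ℤ, (i' < 0 ∨ (n : ℤ) ≤ i') → ((i', j, false) : Edge) ∉ C := by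
    intro i' j hi hmem
    obtain ⟨f, g, hf, hg, h⟩ := hsub _ hmem
    rcases h with ⟨h1, h2⟩ | ⟨h1, h2, h3, h4⟩
    · simp at h2
    · rw [Prod.mk.injEq] at h4
      rw [h1] at h4
      simp only at h4
      omega
  set z : V → ZMod 2 := fun v => ∑ i' ∈ Icc 0 v.1, (if ((i', v.2, true) : Edge) ∈ C then 1 else 0) with hz
  have hz1 : ∀ i j : ℤ, 0 ≤ i → z (i, j) = z (i - 1, j) + (if ((i, j, true) : Edge) ∈ C then 1 else 0) := by
    intro i j hi
    exact pprim_icc hi (fun i' => if ((i', j, true) : Edge) ∈ C then 1 else 0)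
  have hz0 : ∀ i j : ℤ, i < 0 → z (i, j) = 0 := by
    intro i j hi
    rw [hz]
    simp only
    rw [Icc_eq_empty (by omega), sum_empty]
  -- induction
  have hind : ∀ j : ℤ, 1 ≤ j → j < n → ∀ k : ℕ, k ≤ n + 1 →
      z ((k : ℤ) - 1, j) + z ((k : ℤ) - 1, j - 1) = (if (((k : ℤ) - 1, j, false) : Edge) ∈ C then 1 else 0) := by
    intro j hj1 hj2 k
    induction k with
    | zero =>
      intro _
      rw [hz0 _ _ (by simp), hz0 _ _ (by simp), if_neg (hnotF _ _ (Or.inl (by simp))), add_zero]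
    | succ k ih =>
      intro hk
      have h1 := ih (by omega)
      have h2 := hev (k : ℤ) j (by omega) (by omega) hj1 hj2
      unfold dg2 at h2
      simp only at h2
      have e1 : ((k + 1 : ℕ) : ℤ) - 1 = k := by push_cast; ring
      rw [e1, hz1 k j (by omega), hz1 k (j - 1) (by omega)]
      linear_combination h1 + h2 - (if (((k : ℤ), j, false) : Edge) ∈ C then (1 : ZMod 2) else 0) * htwo
  have hind2 : ∀ i j : ℤ, 0 ≤ i → i ≤ n → 1 ≤ j → j < n →
      z (i, j) = z (i, j - 1) + (if ((i, j, false) : Edge) ∈ C then 1 else 0) := by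
    intro i j hi hi' hj1 hj2
    have h1 := hind j hj1 hj2 (i + 1).toNat (by omega)
    have e1 : (((i + 1).toNat : ℕ) : ℤ) - 1 = i := by omega
    rw [e1] at h1
    linear_combination h1 - z (i, j - 1) * htwo
  -- beyond n
  have hbey : ∀ (j : ℤ) (k : ℕ), z ((n : ℤ) + k, j) = z ((n : ℤ), j) := by
    intro j k
    induction k with
    | zero => simp
    | succ k ih =>
      rw [hz1 _ _ (by positivity), if_neg (hnotT _ _ (by push_cast; omega)), add_zero]
      have e1 : (n : ℤ) + ((k + 1 : ℕ) : ℤ) - 1 = n + k := by push_cast; ring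
      rw [e1, ih]
  have hbey2 : ∀ i j : ℤ, (n : ℤ) ≤ i → z (i, j) = z ((n : ℤ), j) := by
    intro i j hi
    have h1 := hbey j (i - n).toNat
    have e1 : (n : ℤ) + ((i - n).toNat : ℤ) = i := by omega
    rwa [e1] at h1
  have hcol : ∀ k : ℕ, (k : ℤ) < n → z ((n : ℤ), (k : ℤ)) = z ((n : ℤ), 0) := by
    intro k
    induction k with
    | zero => intro _; simp
    | succ k ih =>
      intro hk
      rw [hind2 n _ (by omega) le_rfl (by omega) hk, if_neg (hnotF _ _ (Or.inr le_rfl)), add_zero]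
      have e1 : (((k + 1 : ℕ) : ℤ)) - 1 = k := by push_cast; ring
      rw [e1]
      exact ih (by omega)
  refine ⟨z, fun j => hz0 _ _ (by norm_num), ?_, ?_, ?_⟩
  · rintro f g e ⟨hf, hg, h⟩
    have hf' := pprim_fcs hf
    have hg' := pprim_fcs hg
    rcases h with ⟨h1, h2⟩ | ⟨h1, h2, h3, h4⟩
    · subst h1
      subst h2
      refine pprim_ne ?_
      have h5 := hz1 (f.1 + 1) f.2 (by omega)
      rwa [add_sub_cancel_right] at h5
    · subst h1
      subst h4
      refine pprim_ne ?_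
      have h5 := hind2 f.1 (f.2 + 1) h2 (by omega) (by omega) (by simpa using hg'.2.2.2)
      rwa [add_sub_cancel_right] at h5
  · intro i j hi hj hj'
    have h1 := hcol j.toNat (by omega)
    have e1 : ((j.toNat : ℕ) : ℤ) = j := by omega
    rw [e1] at h1
    rw [hbey2 i j hi, h1]
  · intro i j hi hj hj'
    rw [hbey2 i j hi]

end FKP
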