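import Pool.Agent.Lib.MP_216314_pr.P.PBase
import Pool.Agent.Lib.MP_216314_pr.P.PProbA

/-!
# JOB PSymA: symmetries (general)

* `Pr_map`: bijection `ω ↦ ω.map σ` from `E.powerset` to `(E.map σ).powerset`.
* `reach_map`: `τ` induces an isomorphism `gr ω ≃g gr (ω.map σ)` (`SimpleGraph.Iso`, `SimpleGraph.Iso.reachable_iff`).
-/

set_option autoImplicit false

noncomputable section

namespace FKP

open Finset FKI

theorem Pr_map (σ : Edge ≃ Edge) (E : Finset Edge) (A : Finset Edge → Prop) :
    Pr (E.map σ.toEmbedding) A = Pr E (fun ω => A (ω.map σ.toEmbedding)) := by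
  classical
  rw [pproba_eq, pproba_eq, Finset.card_map]
  congr 2
  symm
  refine Finset.card_nbij' (fun ω => ω.map σ.toEmbedding) (fun ω => ω.map σ.symm.toEmbedding)
    ?_ ?_ ?_ ?_
  · intro ω hω
    rw [Finset.mem_coe, Finset.mem_filter, Finset.mem_powerset] at hω
    rw [Finset.mem_coe, Finset.mem_filter, Finset.mem_powerset]
    exact ⟨Finset.map_subset_map.2 hω.1, hω.2⟩
  · intro ω hω
    rw [Finset.mem_coe, Finset.mem_filter, Finset.mem_powerset] at hω
    rw [Finset.mem_coe, Finset.mem_filter, Finset.mem_powerset]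
    refine ⟨?_, ?_⟩
    · intro e he
      rw [Finset.mem_map] at he
      obtain ⟨e', he', rfl⟩ := he
      have h1 := hω.1 he'
      rw [Finset.mem_map] at h1
      obtain ⟨e2, he2, rfl⟩ := h1
      simpa using he2
    · show A ((ω.map σ.symm.toEmbedding).map σ.toEmbedding)
      have h1 : (ω.map σ.symm.toEmbedding).map σ.toEmbedding = ω := by
        rw [Finset.map_map]
        ext e
        simp
      rw [h1]
      exact hω.2
  · intro ω _
    show (ω.map σ.toEmbedding).map σ.symm.toEmbedding = ω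
    rw [Finset.map_map]
    ext e
    simp
  · intro ω _
    show (ω.map σ.symm.toEmbedding).map σ.toEmbedding = ω
    rw [Finset.map_map]
    ext e
    simp

/-- the bijection `σ` of the edges is induced by the bijection `τ` of the vertices -/
def Cp (σ : Edge ≃ Edge) (τ : V ≃ V) : Prop :=
  ∀ e, (ea (σ e) = τ (ea e) ∧ eb (σ e) = τ (eb e)) ∨ (ea (σ e) = τ (eb e) ∧ eb (σ e) = τ (ea e))

theorem reach_map {σ : Edge ≃ Edge} {τ : V ≃ V} (hc : Cp σ τ) (ω : Finset Edge) (u v : V) :
    (gr (ω.map σ.toEmbedding)).Reachable (τ u) (τ v) ↔ (gr ω).Reachable u v := by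
  have hadj : ∀ a b : V, (gr (ω.map σ.toEmbedding)).Adj (τ a) (τ b) ↔ (gr ω).Adj a b := by
    intro a b
    unfold gr
    rw [SimpleGraph.fromRel_adj, SimpleGraph.fromRel_adj]
    have h1 : (τ a ≠ τ b) ↔ a ≠ b := τ.injective.ne_iff
    rw [h1]
    refine and_congr Iff.rfl ?_
    constructor
    · rintro (⟨e', he', h2, h3⟩ | ⟨e', he', h2, h3⟩)
      · rw [Finset.mem_map] at he'
        obtain ⟨e, he, rfl⟩ := he'
        rcases hc e with ⟨h4, h5⟩ | ⟨h4, h5⟩
        · left
          exact ⟨e, he, τ.injective (h4.symm.trans h2), τ.injective (h5.symm.trans h3)⟩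
        · right
          exact ⟨e, he, τ.injective (h5.symm.trans h3), τ.injective (h4.symm.trans h2)⟩
      · rw [Finset.mem_map] at he'
        obtain ⟨e, he, rfl⟩ := he'
        rcases hc e with ⟨h4, h5⟩ | ⟨h4, h5⟩
        · right
          exact ⟨e, he, τ.injective (h4.symm.trans h2), τ.injective (h5.symm.trans h3)⟩
        · left
          exact ⟨e, he, τ.injective (h5.symm.trans h3), τ.injective (h4.symm.trans h2)⟩
    · rintro (⟨e, he, h2, h3⟩ | ⟨e, he, h2, h3⟩)
      · rcases hc e with ⟨h4, h5⟩ | ⟨h4, h5⟩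
        · left
          exact ⟨σ e, Finset.mem_map_of_mem _ he, by rw [h4, h2], by rw [h5, h3]⟩
        · right
          exact ⟨σ e, Finset.mem_map_of_mem _ he, by rw [h4, h3], by rw [h5, h2]⟩
      · rcases hc e with ⟨h4, h5⟩ | ⟨h4, h5⟩
        · right
          exact ⟨σ e, Finset.mem_map_of_mem _ he, by rw [h4, h2], by rw [h5, h3]⟩
        · left
          exact ⟨σ e, Finset.mem_map_of_mem _ he, by rw [h4, h3], by rw [h5, h2]⟩
  let φ : gr ω ≃g gr (ω.map σ.toEmbedding) :=
    { toEquiv := τ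
      map_rel_iff' := fun {a b} => hadj a b }
  exact SimpleGraph.Iso.reachable_iff (φ := φ) (u := u) (v := v)

theorem conn_map {σ : Edge ≃ Edge} {τ : V ≃ V} (hc : Cp σ τ) (F ω : Finset Edge) (u v : V) :
    Conn (F.map σ.toEmbedding) (ω.map σ.toEmbedding) (τ u) (τ v) ↔ Conn F ω u v := by
  unfold Conn
  rw [← Finset.map_inter]
  exact reach_map hc (ω ∩ F) u v

end FKP
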